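import Pool.Agent.H993R2.Kac.Few

set_option autoImplicit false
set_option maxHeartbeats 1000000
set_option linter.unusedSectionVars false

/-!
Bounds for the block part in the windows.
-/

namespace Pool.Agent.H993R2.Kac

open Finset

/-- reflection -/
def sgm (n m : ℕ) : ℕ := if m < n then n - 1 - m else m

theorem sgm_inj (n : ℕ) : Function.Injective (sgm n) := by
  intro a b h
  unfold sgm at h
  split_ifs at h <;> omega

/-- twist -/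
def tw (ε : ℝ) (σ : ℕ → ℕ) (a : ℕ → ℝ) (m : ℕ) : ℝ := ε ^ m * a (σ m)

theorem eps_sq {ε : ℝ} (hε : ε = 1 ∨ ε = -1) : ε * ε = 1 := by
  rcases hε with h | h <;> rw [h] <;> norm_num

theorem eps_pow_sq {ε : ℝ} (hε : ε = 1 ∨ ε = -1) (k : ℕ) : ε ^ k * ε ^ k = 1 := by
  rw [← mul_pow, eps_sq hε, one_pow]

theorem eps_reflect {ε : ℝ} (hε : ε = 1 ∨ ε = -1) (n i : ℕ) (hi : i ≤ n) :
    ε ^ (n - i) = ε ^ n * ε ^ i := by
  obtain ⟨k, rfl⟩ : ∃ k, n = k + i := ⟨n - i, by omega⟩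
  rw [Nat.add_sub_cancel, pow_add, mul_assoc, eps_pow_sq hε, mul_one]

theorem E2_bound_one (c : ℕ → ℝ) (t : ℕ) (M : ℝ) (hM0 : 0 ≤ M)
    (hM : ∀ m ≤ t, |∑ k ∈ Ico 0 m, c k| ≤ M) (x : ℝ) (hx0 : 0 ≤ x) (hx1 : x ≤ 1) :
    |E2 c 0 t x| ≤ 2 * M * (t : ℝ) ^ 2 := by
  apply E2_le_of_partial c 0 t (Nat.zero_le _) 1 one_pos _ _ x hx0 hx1
  intro m _ hm
  simp only [one_pow, mul_one]
  have h := abel_mono c (fun k => (k : ℝ) * ((k - 1 : ℕ) : ℝ)) 0 M m (Nat.zero_le _) (by simp) hM0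
    (fun k _ _ => by
      have h1 : (k : ℝ) ≤ ((k + 1 : ℕ) : ℝ) := by exact_mod_cast Nat.le_succ k
      have h2 : ((k - 1 : ℕ) : ℝ) ≤ ((k + 1 - 1 : ℕ) : ℝ) := by exact_mod_cast (by omega)
      exact mul_le_mul h1 h2 (by positivity) (by positivity))
    (fun m' _ h2 => hM m' (by omega))
  refine h.trans ?_
  apply mul_le_mul_of_nonneg_left _ (by positivity)
  have h1 : (m : ℝ) ≤ t := by exact_mod_cast hm
  have h2 : ((m - 1 : ℕ) : ℝ) ≤ t := by exact_mod_cast (by omega : m - 1 ≤ t)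
  calc (m : ℝ) * ((m - 1 : ℕ) : ℝ) ≤ t * t := mul_le_mul h1 h2 (by positivity) (by positivity)
    _ = (t : ℝ) ^ 2 := by ring

section

variable {A1 : ℝ} {l n : ℕ} {a : ℕ → ℝ}

/-- partial sums in the outer coordinate -/
theorem outer_partial (hE : Ev A1 7 l (tw 1 (sgm n) a)) (hA1 : 0 ≤ A1) {ε : ℝ}
    (hε : ε = 1 ∨ ε = -1) {m : ℕ} (hm : m ≤ 2 ^ l) :
    |∑ k ∈ Ico 0 m, tw ε (sgm n) a k| ≤ 4 * (A1 + 7) * sg l := by
  have h := hE.partial_le (by norm_num) hA1 hε hm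
  have e : ∑ k ∈ Ico 0 m, ε ^ k * tw 1 (sgm n) a k = ∑ k ∈ Ico 0 m, tw ε (sgm n) a k := by
    apply Finset.sum_congr rfl
    intro k _
    unfold tw
    rw [one_pow, one_mul]
  rw [e] at h
  exact h

theorem outer_E0 (hE : Ev A1 7 l (tw 1 (sgm n) a)) (hA1 : 0 ≤ A1) {ε : ℝ}
    (hε : ε = 1 ∨ ε = -1) (x : ℝ) (hx0 : 0 ≤ x) (hx1 : x ≤ 1) :
    |E0 (tw ε (sgm n) a) 0 (2 ^ l) x| ≤ 4 * (A1 + 7) * sg l := by
  apply E0_le_of_partial _ 0 _ (Nat.zero_le _) 1 one_pos _ _ x hx0 hx1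
  intro m _ hm
  simp only [one_pow, mul_one]
  exact outer_partial hE hA1 hε hm

theorem outer_E2 (hE : Ev A1 7 l (tw 1 (sgm n) a)) (hA1 : 0 ≤ A1) {ε : ℝ}
    (hε : ε = 1 ∨ ε = -1) (x : ℝ) (hx0 : 0 ≤ x) (hx1 : x ≤ 1) :
    |E2 (tw ε (sgm n) a) 0 (2 ^ l) x| ≤ 8 * (A1 + 7) * sg l * rr l ^ 2 := by
  have h := E2_bound_one (tw ε (sgm n) a) (2 ^ l) (4 * (A1 + 7) * sg l)
    (by have := sg_pos l; positivity) (fun m hm => outer_partial hE hA1 hε hm) x hx0 hx1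
  refine h.trans (le_of_eq ?_)
  unfold rr
  push_cast
  ring

/-- partial sums in the inner coordinate -/
theorem inner_partial (hE : Ev A1 7 l (tw 1 (sgm (n + 2 ^ l)) a)) (hA1 : 0 ≤ A1) {ε : ℝ}
    (hε : ε = 1 ∨ ε = -1) {m : ℕ} (hm1 : n ≤ m) (hm2 : m ≤ n + 2 ^ l) :
    |∑ k ∈ Ico n m, tw ε id a k| ≤ 8 * (A1 + 7) * sg l := by
  set N := n + 2 ^ l with hN
  have hL : 0 < 2 ^ l := by positivity
  have href := Finset.sum_Ico_reflect (fun k => tw ε id a k) (N - m) (m := 2 ^ l) (n := N - 1)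
    (by omega)
  have e1 : N - 1 + 1 - 2 ^ l = n := by omega
  have e2 : N - 1 + 1 - (N - m) = m := by omega
  rw [e1, e2] at href
  rw [← href]
  have e3 : ∑ i ∈ Ico (N - m) (2 ^ l), tw ε id a (N - 1 - i) =
      ε ^ (N - 1) * ∑ i ∈ Ico (N - m) (2 ^ l), tw ε (sgm N) a i := by
    rw [Finset.mul_sum]
    apply Finset.sum_congr rfl
    intro i hi
    rw [Finset.mem_Ico] at hi
    unfold tw sgm
    rw [if_pos (by omega), eps_reflect hε (N - 1) i (by omega)]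
    simp only [id]
    ring
  rw [e3, abs_mul, abs_eps_pow hε, one_mul]
  have h1 := outer_partial hE hA1 hε (m := 2 ^ l) le_rfl
  have h2 := outer_partial hE hA1 hε (m := N - m) (by omega)
  have e4 : ∑ i ∈ Ico (N - m) (2 ^ l), tw ε (sgm N) a i =
      ∑ i ∈ Ico 0 (2 ^ l), tw ε (sgm N) a i - ∑ i ∈ Ico 0 (N - m), tw ε (sgm N) a i := by
    rw [← Finset.sum_Ico_consecutive _ (Nat.zero_le (N - m)) (by omega)]
    ring
  rw [e4]
  calc _ ≤ _ := abs_sub _ _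
    _ ≤ 4 * (A1 + 7) * sg l + 4 * (A1 + 7) * sg l := add_le_add h1 h2
    _ = _ := by ring

theorem inner_E0 (hE : Ev A1 7 l (tw 1 (sgm (n + 2 ^ l)) a)) (hA1 : 0 ≤ A1) {ε : ℝ}
    (hε : ε = 1 ∨ ε = -1) (z : ℝ) (hz0 : 0 < z) (hz1 : z ≤ 1) (x : ℝ) (hx0 : 0 ≤ x) (hxz : x ≤ z) :
    |E0 (tw ε id a) n (n + 2 ^ l) x| ≤ 8 * (A1 + 7) * sg l * z ^ n := by
  apply E0_le_of_partial _ n _ (Nat.le_add_right _ _) z hz0 _ _ x hx0 hxz
  intro m hm1 hm2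
  exact abel_anti (fun k => tw ε id a k) (fun k => z ^ k) n (8 * (A1 + 7) * sg l) m hm1
    (fun k _ _ => by positivity) (fun k _ _ => pow_le_pow_of_le_one hz0.le hz1 (by omega))
    (fun m' h1 h2 => inner_partial hE hA1 hε h1 (by omega))

theorem inner_E2 (hE : Ev A1 7 l (tw 1 (sgm (n + 2 ^ l)) a)) (hA1 : 0 ≤ A1) {ε : ℝ}
    (hε : ε = 1 ∨ ε = -1) (z : ℝ) (hz0 : 0 < z) (hz1 : z ≤ 1) (x : ℝ) (hx0 : 0 ≤ x) (hxz : x ≤ z) :
    |E2 (tw ε id a) n (n + 2 ^ l) x| ≤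
      16 * (A1 + 7) * sg l * ((n + 2 ^ l : ℕ) : ℝ) ^ 2 * z ^ (n - 2) := by
  apply E2_le_of_partial _ n _ (Nat.le_add_right _ _) z hz0 _ _ x hx0 hxz
  intro m hm1 hm2
  have hsgl := sg_pos l
  have h1 : ∀ m', n ≤ m' → m' ≤ m →
      |∑ k ∈ Ico n m', tw ε id a k * ((k : ℝ) * ((k - 1 : ℕ) : ℝ))| ≤
      16 * (A1 + 7) * sg l * ((n + 2 ^ l : ℕ) : ℝ) ^ 2 := by
    intro m' hm'1 hm'2
    have h := abel_mono (fun k => tw ε id a k) (fun k => (k : ℝ) * ((k - 1 : ℕ) : ℝ)) n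
      (8 * (A1 + 7) * sg l) m' hm'1 (by positivity) (by positivity)
      (fun k _ _ => by
        have h1 : (k : ℝ) ≤ ((k + 1 : ℕ) : ℝ) := by exact_mod_cast Nat.le_succ k
        have h2 : ((k - 1 : ℕ) : ℝ) ≤ ((k + 1 - 1 : ℕ) : ℝ) := by exact_mod_cast (by omega)
        exact mul_le_mul h1 h2 (by positivity) (by positivity))
      (fun m'' h3 h4 => inner_partial hE hA1 hε h3 (by omega))
    refine h.trans ?_
    have h2 : (m' : ℝ) * ((m' - 1 : ℕ) : ℝ) ≤ ((n + 2 ^ l : ℕ) : ℝ) ^ 2 := by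
      have h3 : (m' : ℝ) ≤ ((n + 2 ^ l : ℕ) : ℝ) := by exact_mod_cast (by omega)
      have h4 : ((m' - 1 : ℕ) : ℝ) ≤ ((n + 2 ^ l : ℕ) : ℝ) := by exact_mod_cast (by omega)
      calc (m' : ℝ) * ((m' - 1 : ℕ) : ℝ) ≤ ((n + 2 ^ l : ℕ) : ℝ) * ((n + 2 ^ l : ℕ) : ℝ) :=
            mul_le_mul h3 h4 (by positivity) (by positivity)
        _ = _ := by ring
    calc 2 * (8 * (A1 + 7) * sg l) * ((m' : ℝ) * ((m' - 1 : ℕ) : ℝ))
        ≤ 2 * (8 * (A1 + 7) * sg l) * ((n + 2 ^ l : ℕ) : ℝ) ^ 2 :=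
          mul_le_mul_of_nonneg_left h2 (by positivity)
      _ = _ := by ring
  have h2 := abel_anti (fun k => tw ε id a k * ((k : ℝ) * ((k - 1 : ℕ) : ℝ)))
    (fun k => z ^ (k - 2)) n _ m hm1
    (fun k _ _ => by positivity) (fun k _ _ => pow_le_pow_of_le_one hz0.le hz1 (by omega)) h1
  refine le_trans (le_of_eq ?_) h2
  congr 1
  apply Finset.sum_congr rfl
  intro k _; ring

/-- a special block is large in the outer coordinate -/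
theorem outer_large (hE : Ev A1 7 l (tw 1 (sgm n) a)) {A : ℝ} (hA : 0 ≤ A)
    (hA1 : 16 * (A + 11 * 7) < A1) {ε : ℝ} (hε : ε = 1 ∨ ε = -1) {j : ℕ} (hj : j < l)
    (y : ℝ) (hy : 1 - (1 / 2) ^ j ≤ y) (hy1 : y ≤ 1 - (1 / 2) ^ (j + 1)) :
    A * sg j < E0 (tw ε (sgm n) a) 0 (2 ^ l) y := by
  have h := hE.large (by norm_num) hA1 hA hε hj y hy hy1
  refine lt_of_lt_of_eq h ?_
  unfold E0
  apply Finset.sum_congr rfl
  intro k _
  unfold tw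
  rw [one_pow, one_mul]

end

end Pool.Agent.H993R2.Kac
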