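import Pool.Agent.H993R2.Kac.MainDet

set_option autoImplicit false
set_option maxHeartbeats 1000000
set_option linter.unusedSectionVars false

/-!
Conditional estimates given the special block.
-/

namespace Pool.Agent.H993R2.Kac

open MeasureTheory ProbabilityTheory Finset

variable {Ω : Type*} [MeasurableSpace Ω] {P : Measure Ω} {ξ : ℕ → Ω → ℝ}

theorem cond_bad (h : Std ξ P) (S T : Finset ℕ) (hST : Disjoint S T) (Q : (ℕ → ℝ) → Prop)
    (B : (ℕ → ℝ) → (ℕ → ℝ) → Prop)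
    (hQm : MeasurableSet {x : S → ℝ | Q (ex S x)})
    (hBm : MeasurableSet {z : (S → ℝ) × (T → ℝ) | B (ex S z.1) (ex T z.2)})
    (hQc : ∀ a a' : ℕ → ℝ, (∀ k ∈ S, a k = a' k) → Q a → Q a')
    (hBc : ∀ a a' b b' : ℕ → ℝ, (∀ k ∈ S, a k = a' k) → (∀ k ∈ T, b k = b' k) → B a b → B a' b')
    {c : ℝ} (hc0 : 0 ≤ c)
    (hc : ∀ x : ℕ → ℝ, Q x → P.real {ω | B x (fun k => ξ k ω)} ≤ c) :
    P.real {ω | Q (fun k => ξ k ω) ∧ B (fun k => ξ k ω) (fun k => ξ k ω)} ≤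
      c * P.real {ω | Q (fun k => ξ k ω)} := by
  have hP := h.prob
  have hind := h.indep.indepFun_finset S T hST h.meas
  have hX : Measurable (fun ω (i : S) => ξ i ω) := measurable_pi_lambda _ fun i => h.meas i
  have hY : Measurable (fun ω (i : T) => ξ i ω) := measurable_pi_lambda _ fun i => h.meas i
  have eS : ∀ ω, ∀ k ∈ S, ex S (fun i : S => ξ i ω) k = ξ k ω := fun ω k hk => ex_of_mem hk
  have eT : ∀ ω, ∀ k ∈ T, ex T (fun i : T => ξ i ω) k = ξ k ω := fun ω k hk => ex_of_mem hk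
  have e1 : {ω | Q (fun k => ξ k ω)} =
      {ω | (fun (i : S) => ξ i ω) ∈ {x : S → ℝ | Q (ex S x)}} := by
    ext ω
    exact ⟨fun hq => hQc _ _ (fun k hk => (eS ω k hk).symm) hq,
      fun hq => hQc _ _ (fun k hk => eS ω k hk) hq⟩
  have e2 : {ω | Q (fun k => ξ k ω) ∧ B (fun k => ξ k ω) (fun k => ξ k ω)} =
      {ω | (fun (i : S) => ξ i ω) ∈ {x : S → ℝ | Q (ex S x)} ∧
        ((fun (i : S) => ξ i ω), (fun (i : T) => ξ i ω)) ∈
          {z : (S → ℝ) × (T → ℝ) | B (ex S z.1) (ex T z.2)}} := by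
    ext ω
    constructor
    · rintro ⟨hq, hb⟩
      exact ⟨hQc _ _ (fun k hk => (eS ω k hk).symm) hq,
        hBc _ _ _ _ (fun k hk => (eS ω k hk).symm) (fun k hk => (eT ω k hk).symm) hb⟩
    · rintro ⟨hq, hb⟩
      exact ⟨hQc _ _ (fun k hk => eS ω k hk) hq,
        hBc _ _ _ _ (fun k hk => eS ω k hk) (fun k hk => eT ω k hk) hb⟩
  rw [e2, e1]
  apply fubini_bound hX hY hind hQm hBm hc0
  intro x hx
  refine le_trans (le_of_eq ?_) (hc (ex S x) hx)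
  congr 1
  ext ω
  exact ⟨fun hb => hBc _ _ _ _ (fun _ _ => rfl) (fun k hk => eT ω k hk) hb,
    fun hb => hBc _ _ _ _ (fun _ _ => rfl) (fun k hk => (eT ω k hk).symm) hb⟩

theorem E0_congr {c c' : ℕ → ℝ} {s t : ℕ} (h : ∀ k ∈ Ico s t, c k = c' k) (x : ℝ) :
    E0 c s t x = E0 c' s t x := by
  unfold E0
  exact Finset.sum_congr rfl fun k hk => by rw [h k hk]

theorem E1_congr {c c' : ℕ → ℝ} {s t : ℕ} (h : ∀ k ∈ Ico s t, c k = c' k) (x : ℝ) :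
    E1 c s t x = E1 c' s t x := by
  unfold E1
  exact Finset.sum_congr rfl fun k hk => by rw [h k hk]

theorem BadW_congr {j : ℕ} {u v A : ℝ} {s t : ℕ} {D0 D1 D0' D1' : ℝ → ℝ} {c c' : ℕ → ℝ}
    (hc : ∀ k ∈ Ico s t, c k = c' k) (h0 : ∀ x, D0 x = D0' x) (h1 : ∀ x, D1 x = D1' x)
    (h : BadW j u v A s t D0 D1 c) : BadW j u v A s t D0' D1' c' := by
  rcases h with ⟨m, h2, h3, h4⟩ | ⟨i, h2, h3, h4⟩ | h2 | h2
  · left
    refine ⟨m, h2, h3, ?_⟩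
    refine h4.trans (le_of_eq ?_)
    congr 1
    apply Finset.sum_congr rfl
    intro k hk
    rw [Finset.mem_Ico] at hk
    rw [hc k (Finset.mem_Ico.mpr ⟨hk.1, by omega⟩)]
  · right; left
    refine ⟨i, h2, ?_, ?_⟩
    · rw [← h0, ← E0_congr hc]; exact h3
    · rw [← h1, ← E1_congr hc]; exact h4
  · right; right; left
    rw [← h0, ← E0_congr hc]; exact h2
  · right; right; right
    rw [← h0, ← E0_congr hc]; exact h2

theorem measurable_tw {𝓩 : Type*} [MeasurableSpace 𝓩] (ε : ℝ) (σ : ℕ → ℕ) {b : 𝓩 → ℕ → ℝ}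
    (hb : ∀ k, Measurable (fun z => b z k)) (k : ℕ) : Measurable (fun z => tw ε σ (b z) k) := by
  unfold tw
  exact (hb _).const_mul _

theorem measurable_E0 {𝓩 : Type*} [MeasurableSpace 𝓩] {c : 𝓩 → ℕ → ℝ}
    (hc : ∀ k, Measurable (fun z => c z k)) (s t : ℕ) (x : ℝ) :
    Measurable (fun z => E0 (c z) s t x) := by
  unfold E0
  exact Finset.measurable_sum _ fun k _ => (hc k).mul_const _

theorem measurable_E1 {𝓩 : Type*} [MeasurableSpace 𝓩] {c : 𝓩 → ℕ → ℝ}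
    (hc : ∀ k, Measurable (fun z => c z k)) (s t : ℕ) (x : ℝ) :
    Measurable (fun z => E1 (c z) s t x) := by
  unfold E1
  exact Finset.measurable_sum _ fun k _ => (hc k).mul_const _

theorem Std.tw (h : Std ξ P) {ε : ℝ} (hε : ε = 1 ∨ ε = -1) {σ : ℕ → ℕ}
    (hσ : Function.Injective σ) : Std (fun k ω => Kac.tw ε σ (fun i => ξ i ω) k) P := by
  unfold Kac.tw
  exact h.reindex σ hσ (fun m => ε ^ m) (fun m => by
    rcases hε with h1 | h1
    · left; rw [h1, one_pow]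
    · rw [h1]; exact neg_one_pow_eq_or ℝ m)

/-- Windows, conditionally on the block. -/
theorem cond_win (h : Std ξ P) (S T : Finset ℕ) (hST : Disjoint S T) (Q : (ℕ → ℝ) → Prop)
    (hQm : MeasurableSet {x : S → ℝ | Q (ex S x)})
    (hQc : ∀ a a' : ℕ → ℝ, (∀ k ∈ S, a k = a' k) → Q a → Q a')
    {ε : ℝ} (hε : ε = 1 ∨ ε = -1) {σ : ℕ → ℕ} (hσ : Function.Injective σ) (p q : ℕ)
    (j s t : ℕ) (u v A : ℝ)
    (hp : ∀ k ∈ Ico p q, σ k ∈ S) (hr : ∀ k ∈ Ico s t, σ k ∈ T)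
    (hs : s ≤ 2 ^ j) (hs0 : j = 0 → s = 0)
    (ht : s + 2 ^ (j + 1) ≤ t) (hu : 1 - (1 / 2) ^ j ≤ u) (huv : u ≤ v) (hv1 : v ≤ 1)
    (hv : v = 1 - (1 / 2) ^ (j + 1) ∨ t ≤ 2 ^ (j + 3)) (hA : 1 ≤ A) :
    P.real {ω | Q (fun k => ξ k ω) ∧
      BadW j u v A s t (E0 (tw ε σ (fun k => ξ k ω)) p q) (E1 (tw ε σ (fun k => ξ k ω)) p q)
        (tw ε σ (fun k => ξ k ω))} ≤ (300000 / A ^ 2) * P.real {ω | Q (fun k => ξ k ω)} := by
  apply cond_bad h S T hST Q (fun x y => BadW j u v A s t (E0 (tw ε σ x) p q)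
    (E1 (tw ε σ x) p q) (tw ε σ y)) hQm
  · apply measurableSet_BadW
    · intro x
      apply measurable_E0
      intro k
      exact measurable_tw ε σ (fun k => (measurable_ex S k).comp measurable_fst) k
    · intro x
      apply measurable_E1
      intro k
      exact measurable_tw ε σ (fun k => (measurable_ex S k).comp measurable_fst) k
    · intro k
      exact measurable_tw ε σ (fun k => (measurable_ex T k).comp measurable_snd) k
  · exact hQc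
  · intro a a' b b' ha hb hB
    have h1 : ∀ k ∈ Ico p q, tw ε σ a k = tw ε σ a' k := by
      intro k hk
      unfold tw
      rw [ha _ (hp k hk)]
    apply BadW_congr _ (E0_congr h1) (E1_congr h1) hB
    intro k hk
    unfold tw
    rw [hb _ (hr k hk)]
  · positivity
  · intro x _
    have hstd := h.tw hε hσ
    exact prob_BadW hstd j s t u v A hs hs0 ht hu huv hv1 hv hA _ _

/-! ### the four kinds of bad events -/

/-- the special event -/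
def Q0 (A1 : ℝ) (l n : ℕ) (a : ℕ → ℝ) : Prop := Ev A1 7 l (tw 1 (sgm (n + 2 ^ l)) a)

/-- inner bad window -/
def BadIn (e : ℕ) (j J n L : ℕ) (A : ℝ) (a : ℕ → ℝ) : Prop :=
  BadW j (pt J j) (pt J (j + 1)) A 0 n (E0 (tw ((-1) ^ e) id a) n (n + L))
    (E1 (tw ((-1) ^ e) id a) n (n + L)) (tw ((-1) ^ e) id a)

/-- outer bad window -/
def BadOut (e : ℕ) (j J n L : ℕ) (A : ℝ) (a : ℕ → ℝ) : Prop :=
  BadW j (pt J j) (pt J (j + 1)) A L (n + L) (E0 (tw ((-1) ^ e) (sgm (n + L)) a) 0 L)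
    (E1 (tw ((-1) ^ e) (sgm (n + L)) a) 0 L) (tw ((-1) ^ e) (sgm (n + L)) a)

/-- the rest is large in a block window -/
def BadS (e : ℕ) (l n : ℕ) (A : ℝ) (a : ℕ → ℝ) : Prop :=
  ∃ j, j < l ∧ ∃ m, 2 ^ l ≤ m ∧ m ≤ n + 2 ^ l ∧
    A * sg j ≤ |∑ k ∈ Ico (2 ^ l) m, tw ((-1) ^ e) (sgm (n + 2 ^ l)) a k *
      (1 - (1 / 2) ^ (j + 1)) ^ k|

/-- few sign changes -/
def BadF (l n I : ℕ) (a : ℕ → ℝ) : Prop :=
  (SCn (tw 1 (sgm (n + 2 ^ l)) a) (2 ^ l) (n + 2 ^ l) I : ℝ) < kap / 2 * ((I : ℝ) - 1)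

theorem ep_or (e : ℕ) : ((-1 : ℝ) ^ e = 1 ∨ (-1 : ℝ) ^ e = -1) := neg_one_pow_eq_or ℝ e

section

variable {A1 : ℝ} {l n : ℕ}

theorem Q0_meas : MeasurableSet {x : ↥(Ico n (n + 2 ^ l)) → ℝ | Q0 A1 l n (ex (Ico n (n + 2 ^ l)) x)} := by
  unfold Q0
  apply measurableSet_Ev
  intro k
  exact measurable_tw 1 _ (fun k => measurable_ex _ k) k

theorem Q0_congr (a a' : ℕ → ℝ) (h : ∀ k ∈ Ico n (n + 2 ^ l), a k = a' k)
    (hQ : Q0 A1 l n a) : Q0 A1 l n a' := by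
  unfold Q0 at hQ ⊢
  apply Ev_congr _ hQ
  intro k hk
  rw [Finset.mem_Ico] at hk
  unfold tw sgm
  rw [if_pos (by omega), h _ (Finset.mem_Ico.mpr (by omega))]

theorem disj_ST : Disjoint (Ico n (n + 2 ^ l)) (Ico 0 n) := by
  rw [disjoint_comm]
  exact Finset.Ico_disjoint_Ico_consecutive 0 n _

theorem cond_in (h : Std ξ P) {J e j : ℕ} {A : ℝ} (hn1 : 2 ^ (J + 1) ≤ n)
    (hn2 : n + 2 ^ l ≤ 3 * 2 ^ (J + 1)) (hj : j ≤ J) (hA : 1 ≤ A) :
    P.real {ω | Q0 A1 l n (fun k => ξ k ω) ∧ BadIn e j J n (2 ^ l) A (fun k => ξ k ω)} ≤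
      (300000 / A ^ 2) * P.real {ω | Q0 A1 l n (fun k => ξ k ω)} := by
  unfold BadIn
  have hp1 : 2 ^ (j + 1) ≤ 2 ^ (J + 1) := Nat.pow_le_pow_right (by norm_num) (by omega)
  have hp0 : 0 < 2 ^ l := by positivity
  apply cond_win h (Ico n (n + 2 ^ l)) (Ico 0 n) disj_ST _ Q0_meas Q0_congr (ep_or e)
    Function.injective_id n (n + 2 ^ l) j 0 n _ _ A (fun k hk => hk) (fun k hk => hk)
    (Nat.zero_le _) (fun _ => rfl) (by omega) (pt_ge J j) (pt_lt hj).le (pt_le_one _ _) _ hA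
  rcases Nat.lt_or_ge j J with h1 | h1
  · left; exact pt_of_le h1
  · right
    have h2 : j = J := le_antisymm hj h1
    subst h2
    have h3 : 2 ^ (j + 3) = 4 * 2 ^ (j + 1) := by rw [show j + 3 = j + 1 + 2 by rfl, pow_add]; ring
    omega

theorem cond_out (h : Std ξ P) {J e j : ℕ} {A : ℝ} (hl : 1 ≤ l) (hn1 : 2 ^ (J + 1) ≤ n)
    (hn2 : n + 2 ^ l ≤ 3 * 2 ^ (J + 1)) (hlj : l ≤ j) (hj : j ≤ J) (hA : 1 ≤ A) :
    P.real {ω | Q0 A1 l n (fun k => ξ k ω) ∧ BadOut e j J n (2 ^ l) A (fun k => ξ k ω)} ≤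
      (300000 / A ^ 2) * P.real {ω | Q0 A1 l n (fun k => ξ k ω)} := by
  unfold BadOut
  have hp1 : 2 ^ (j + 1) ≤ 2 ^ (J + 1) := Nat.pow_le_pow_right (by norm_num) (by omega)
  have hp2 : 2 ^ l ≤ 2 ^ j := Nat.pow_le_pow_right (by norm_num) hlj
  apply cond_win h (Ico n (n + 2 ^ l)) (Ico 0 n) disj_ST _ Q0_meas Q0_congr (ep_or e)
    (sgm_inj _) 0 (2 ^ l) j (2 ^ l) (n + 2 ^ l) _ _ A _ _
    hp2 (fun h0 => by omega) (by omega) (pt_ge J j) (pt_lt hj).le (pt_le_one _ _) _ hA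
  · intro k hk
    rw [Finset.mem_Ico] at hk ⊢
    unfold sgm
    rw [if_pos (by omega)]
    omega
  · intro k hk
    rw [Finset.mem_Ico] at hk ⊢
    unfold sgm
    rw [if_pos (by omega)]
    omega
  rcases Nat.lt_or_ge j J with h1 | h1
  · left; exact pt_of_le h1
  · right
    have h2 : j = J := le_antisymm hj h1
    subst h2
    have h3 : 2 ^ (j + 3) = 4 * 2 ^ (j + 1) := by rw [show j + 3 = j + 1 + 2 by rfl, pow_add]; ring
    omega

theorem BadS_congr {e : ℕ} {A : ℝ} (b b' : ℕ → ℝ) (hb : ∀ k ∈ Ico 0 n, b k = b' k)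
    (hB : BadS e l n A b) : BadS e l n A b' := by
  obtain ⟨j, hj, m, hm1, hm2, h⟩ := hB
  refine ⟨j, hj, m, hm1, hm2, ?_⟩
  refine h.trans (le_of_eq ?_)
  congr 1
  apply Finset.sum_congr rfl
  intro k hk
  rw [Finset.mem_Ico] at hk
  unfold tw sgm
  rw [if_pos (by omega), hb _ (Finset.mem_Ico.mpr (by omega))]

theorem measurableSet_BadS {𝓩 : Type*} [MeasurableSpace 𝓩] (e : ℕ) (A : ℝ) {b : 𝓩 → ℕ → ℝ}
    (hb : ∀ k, Measurable (fun z => b z k)) : MeasurableSet {z | BadS e l n A (b z)} := by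
  have hset : {z | BadS e l n A (b z)} = ⋃ j ∈ range l, ⋃ m ∈ Icc (2 ^ l) (n + 2 ^ l),
      {z | A * sg j ≤ |∑ k ∈ Ico (2 ^ l) m, tw ((-1) ^ e) (sgm (n + 2 ^ l)) (b z) k *
      (1 - (1 / 2) ^ (j + 1)) ^ k|} := by
    ext z
    simp only [Set.mem_iUnion, Finset.mem_Icc, Finset.mem_range, exists_prop]
    constructor
    · rintro ⟨j, hj, m, hm1, hm2, h⟩
      exact ⟨j, hj, m, ⟨hm1, hm2⟩, h⟩
    · rintro ⟨j, hj, m, ⟨hm1, hm2⟩, h⟩
      exact ⟨j, hj, m, hm1, hm2, h⟩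
  rw [hset]
  apply Finset.measurableSet_biUnion
  intro j _
  apply Finset.measurableSet_biUnion
  intro m _
  apply measurableSet_le measurable_const
  apply Measurable.abs
  exact Finset.measurable_sum _ fun k _ => (measurable_tw _ _ hb k).mul_const _

theorem prob_S_one {η : ℕ → Ω → ℝ} (h : Std η P) {A : ℝ} (hA : 0 < A) (j : ℕ) :
    P.real {ω | ∃ m, 2 ^ l ≤ m ∧ m ≤ n + 2 ^ l ∧
      A * sg j ≤ |∑ k ∈ Ico (2 ^ l) m, η k ω * (1 - (1 / 2) ^ (j + 1)) ^ k|} ≤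
      8 * (rr j / rr l) ^ 2 / A ^ 2 := by
  set y : ℝ := 1 - (1 / 2) ^ (j + 1) with hy
  have hsg := sg_pos j
  have hq : (0 : ℝ) < (1 / 2) ^ (j + 1) := by positivity
  have hq1 : ((1 : ℝ) / 2) ^ (j + 1) ≤ 1 := pow_le_one₀ (by norm_num) (by norm_num)
  have hy0 : 0 ≤ y := by rw [hy]; linarith
  have hy1 : y < 1 := by rw [hy]; linarith
  have hy2 : y ^ 2 < 1 := by nlinarith
  have hk := h.kolm (fun k => y ^ k) (2 ^ l) (n + 2 ^ l) (lam := A * sg j) (by positivity)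
  have e1 : {ω | ∃ m, 2 ^ l ≤ m ∧ m ≤ n + 2 ^ l ∧
      A * sg j ≤ |lf η (fun k => y ^ k) (Ico (2 ^ l) m) ω|} = {ω | ∃ m, 2 ^ l ≤ m ∧ m ≤ n + 2 ^ l ∧
      A * sg j ≤ |∑ k ∈ Ico (2 ^ l) m, η k ω * y ^ k|} := by
    have : ∀ m ω, lf η (fun k => y ^ k) (Ico (2 ^ l) m) ω =
        ∑ k ∈ Ico (2 ^ l) m, η k ω * y ^ k := by
      intro m ω
      unfold lf
      exact Finset.sum_congr rfl fun k _ => mul_comm _ _
    simp only [this]
  rw [e1] at hk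
  refine hk.trans ?_
  have e2 : ∑ k ∈ Ico (2 ^ l) (n + 2 ^ l), (y ^ k) ^ 2 =
      (y ^ (2 ^ l)) ^ 2 * ((1 - (y ^ 2) ^ n) / (1 - y ^ 2)) := by
    have h1 : ∀ k ∈ Ico (2 ^ l) (n + 2 ^ l), (y ^ k) ^ 2 = (y ^ 2) ^ k := by
      intro k _
      rw [← pow_mul, ← pow_mul, mul_comm]
    rw [Finset.sum_congr rfl h1, add_comm n, geom_Ico _ hy2, ← pow_mul, mul_comm 2, pow_mul]
  have h3 := pow_small y hy0 j l le_rfl
  have h4 : (1 - (y ^ 2) ^ n) / (1 - y ^ 2) ≤ rr (j + 1) := by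
    rw [div_le_iff₀ (by linarith)]
    have h5 : 0 ≤ (y ^ 2) ^ n := by positivity
    have h6 : rr (j + 1) * (1 / 2) ^ (j + 1) = 1 := by
      unfold rr
      rw [← mul_pow]; norm_num
    have h7 : (1 / 2) ^ (j + 1) ≤ 1 - y ^ 2 := by rw [hy] at *; nlinarith
    have h8 : rr (j + 1) * (1 / 2) ^ (j + 1) ≤ rr (j + 1) * (1 - y ^ 2) :=
      mul_le_mul_of_nonneg_left h7 (rr_pos _).le
    linarith
  have h9 : 0 ≤ (1 - (y ^ 2) ^ n) / (1 - y ^ 2) := by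
    apply div_nonneg _ (by linarith)
    have : (y ^ 2) ^ n ≤ 1 := pow_le_one₀ (by positivity) hy2.le
    linarith
  rw [e2, div_le_div_iff₀ (by positivity) (by positivity)]
  have hrl := rr_pos l
  have hrj := rr_pos j
  have hrr1 : rr (j + 1) = 2 * rr j := by unfold rr; rw [pow_succ]; ring
  calc (y ^ (2 ^ l)) ^ 2 * ((1 - (y ^ 2) ^ n) / (1 - y ^ 2)) * A ^ 2
      ≤ (rr (j + 1) / rr l) ^ 2 * rr (j + 1) * A ^ 2 := by
        apply mul_le_mul_of_nonneg_right _ (by positivity)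
        apply mul_le_mul _ h4 h9 (by positivity)
        exact pow_le_pow_left₀ (by positivity) h3 2
    _ = 8 * (rr j / rr l) ^ 2 * (A * sg j) ^ 2 := by
        rw [mul_pow A, sg_sq, hrr1]
        field_simp
        ring

theorem sum_rr_sq (l : ℕ) : ∑ j ∈ range l, (rr j / rr l) ^ 2 ≤ 1 / 3 := by
  have h1 : ∀ j ∈ range l, (rr j / rr l) ^ 2 = 4 ^ j / 4 ^ l := by
    intro j _
    unfold rr
    rw [div_pow, ← pow_mul, ← pow_mul, mul_comm j, mul_comm l, pow_mul, pow_mul]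
    norm_num
  rw [Finset.sum_congr rfl h1, ← Finset.sum_div, geom_sum_eq (by norm_num)]
  rw [div_le_iff₀ (by positivity)]
  have : (0 : ℝ) < 4 ^ l := by positivity
  linarith

theorem cond_S (h : Std ξ P) {e : ℕ} {A : ℝ} (hA : 0 < A) :
    P.real {ω | Q0 A1 l n (fun k => ξ k ω) ∧ BadS e l n A (fun k => ξ k ω)} ≤
      (3 / A ^ 2) * P.real {ω | Q0 A1 l n (fun k => ξ k ω)} := by
  have hP := h.prob
  apply cond_bad h (Ico n (n + 2 ^ l)) (Ico 0 n) disj_ST (Q0 A1 l n)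
    (fun _ y => BadS e l n A y) Q0_meas
  · exact measurableSet_BadS e A (fun k => (measurable_ex _ k).comp measurable_snd)
  · exact Q0_congr
  · intro _ _ b b' _ hb hB
    exact BadS_congr b b' hb hB
  · positivity
  · intro x _
    have hstd := h.tw (ep_or e) (sgm_inj (n + 2 ^ l))
    have hcov : {ω | BadS e l n A (fun k => ξ k ω)} ⊆ ⋃ j ∈ range l,
        {ω | ∃ m, 2 ^ l ≤ m ∧ m ≤ n + 2 ^ l ∧ A * sg j ≤
          |∑ k ∈ Ico (2 ^ l) m, tw ((-1) ^ e) (sgm (n + 2 ^ l)) (fun i => ξ i ω) k *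
            (1 - (1 / 2) ^ (j + 1)) ^ k|} := by
      rintro ω ⟨j, hj, hm⟩
      rw [Set.mem_iUnion₂]
      exact ⟨j, Finset.mem_range.mpr hj, hm⟩
    calc P.real {ω | BadS e l n A (fun k => ξ k ω)} ≤ _ :=
          measureReal_mono hcov (measure_ne_top _ _)
      _ ≤ _ := measureReal_biUnion_finset_le _ _
      _ ≤ ∑ j ∈ range l, 8 * (rr j / rr l) ^ 2 / A ^ 2 :=
          Finset.sum_le_sum fun j _ => prob_S_one hstd hA j
      _ = 8 / A ^ 2 * ∑ j ∈ range l, (rr j / rr l) ^ 2 := by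
          rw [Finset.mul_sum]
          apply Finset.sum_congr rfl
          intro j _; ring
      _ ≤ 8 / A ^ 2 * (1 / 3) := mul_le_mul_of_nonneg_left (sum_rr_sq l) (by positivity)
      _ ≤ 3 / A ^ 2 := by
          rw [div_mul_eq_mul_div]
          apply div_le_div_of_nonneg_right _ (by positivity)
          norm_num

theorem BadF_congr {I : ℕ} (b b' : ℕ → ℝ) (hb : ∀ k ∈ Ico 0 n, b k = b' k)
    (hB : BadF l n I b) : BadF l n I b' := by
  unfold BadF at hB ⊢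
  have h1 : ∀ x, E0 (tw 1 (sgm (n + 2 ^ l)) b) (2 ^ l) (n + 2 ^ l) x =
      E0 (tw 1 (sgm (n + 2 ^ l)) b') (2 ^ l) (n + 2 ^ l) x := by
    apply E0_congr
    intro k hk
    rw [Finset.mem_Ico] at hk
    unfold tw sgm
    rw [if_pos (by omega), hb _ (Finset.mem_Ico.mpr (by omega))]
  have h2 : SCn (tw 1 (sgm (n + 2 ^ l)) b) (2 ^ l) (n + 2 ^ l) I =
      SCn (tw 1 (sgm (n + 2 ^ l)) b') (2 ^ l) (n + 2 ^ l) I := by
    unfold SCn
    simp only [h1]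
  rw [← h2]
  exact hB

theorem measurableSet_BadF {𝓩 : Type*} [MeasurableSpace 𝓩] (I : ℕ) {b : 𝓩 → ℕ → ℝ}
    (hb : ∀ k, Measurable (fun z => b z k)) : MeasurableSet {z | BadF l n I (b z)} := by
  unfold BadF
  exact measurableSet_lt (measurable_SCn _ _ _ (fun k => measurable_tw _ _ hb k)) measurable_const

theorem cond_F (h : Std ξ P) {I : ℕ} (hn : 2 ^ l ≤ n) (hI : 2 ≤ I) (hIl : 5 * I ≤ l) :
    P.real {ω | Q0 A1 l n (fun k => ξ k ω) ∧ BadF l n I (fun k => ξ k ω)} ≤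
      (1 - kap / 2) * P.real {ω | Q0 A1 l n (fun k => ξ k ω)} := by
  have hP := h.prob
  apply cond_bad h (Ico n (n + 2 ^ l)) (Ico 0 n) disj_ST (Q0 A1 l n)
    (fun _ y => BadF l n I y) Q0_meas
  · exact measurableSet_BadF I (fun k => (measurable_ex _ k).comp measurable_snd)
  · exact Q0_congr
  · intro _ _ b b' _ hb hB
    exact BadF_congr b b' hb hB
  · have := kap_le_one
    linarith
  · intro x _
    have hstd := h.tw (Or.inl rfl : (1 : ℝ) = 1 ∨ (1 : ℝ) = -1) (sgm_inj (n + 2 ^ l))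
    have h1 := prob_few hstd l (2 ^ l) n I hn hI hIl
    rw [add_comm (2 ^ l) n] at h1
    have h2 : {ω | BadF l n I (fun k => ξ k ω)} =
        {ω | kap / 2 * ((I : ℝ) - 1) ≤
          (SCn (fun k => tw 1 (sgm (n + 2 ^ l)) (fun i => ξ i ω) k) (2 ^ l) (n + 2 ^ l) I : ℝ)}ᶜ := by
      ext ω
      show (SCn (tw 1 (sgm (n + 2 ^ l)) (fun i => ξ i ω)) (2 ^ l) (n + 2 ^ l) I : ℝ) <
        kap / 2 * ((I : ℝ) - 1) ↔ ¬ (kap / 2 * ((I : ℝ) - 1) ≤
        (SCn (tw 1 (sgm (n + 2 ^ l)) (fun i => ξ i ω)) (2 ^ l) (n + 2 ^ l) I : ℝ))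
      exact not_le.symm
    have hm : MeasurableSet {ω | kap / 2 * ((I : ℝ) - 1) ≤
          (SCn (fun k => tw 1 (sgm (n + 2 ^ l)) (fun i => ξ i ω) k) (2 ^ l) (n + 2 ^ l) I : ℝ)} :=
      measurableSet_le measurable_const (measurable_SCn _ _ _ (fun k => hstd.meas k))
    rw [h2, probReal_compl_eq_one_sub hm]
    linarith

end

end Pool.Agent.H993R2.Kac
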