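import Mathlib

set_option autoImplicit false
set_option maxHeartbeats 1000000

/-!
Deterministic lemmas: Abel summation, near-double-root-free windows, stability of root counts.
-/

namespace Pool.Agent.H993R2.Kac

open Finset

/-! ### Abel summation -/

theorem abel_anti_aux (β w : ℕ → ℝ) (s : ℕ) (M : ℝ) (m : ℕ) (hm : s ≤ m)
    (hw : ∀ k, s ≤ k → k < m → w (k + 1) ≤ w k)
    (hM : ∀ m', s ≤ m' → m' ≤ m → |∑ k ∈ Ico s m', β k| ≤ M) :
    |∑ k ∈ Ico s m, β k * w k - (∑ k ∈ Ico s m, β k) * w m| ≤ M * (w s - w m) := by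
  induction m, hm using Nat.le_induction with
  | base => simp
  | succ m hm ih =>
    have ih' := ih (fun k h1 h2 => hw k h1 (by omega)) (fun m' h1 h2 => hM m' h1 (by omega))
    rw [Finset.sum_Ico_succ_top hm, Finset.sum_Ico_succ_top hm]
    have h1 : |(∑ k ∈ Ico s (m + 1), β k) * (w m - w (m + 1))| ≤ M * (w m - w (m + 1)) := by
      rw [abs_mul, abs_of_nonneg (sub_nonneg.mpr (hw m hm (by omega)))]
      exact mul_le_mul_of_nonneg_right (hM _ (by omega) le_rfl)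
        (sub_nonneg.mpr (hw m hm (by omega)))
    rw [Finset.sum_Ico_succ_top hm] at h1
    have h2 : ∑ k ∈ Ico s m, β k * w k + β m * w m - (∑ k ∈ Ico s m, β k + β m) * w (m + 1) =
        (∑ k ∈ Ico s m, β k * w k - (∑ k ∈ Ico s m, β k) * w m) +
          (∑ k ∈ Ico s m, β k + β m) * (w m - w (m + 1)) := by ring
    rw [h2]
    calc _ ≤ _ := abs_add_le _ _
      _ ≤ M * (w s - w m) + M * (w m - w (m + 1)) := add_le_add ih' h1
      _ = _ := by ring

/-- Abel summation, nonincreasing weights. -/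
theorem abel_anti (β w : ℕ → ℝ) (s : ℕ) (M : ℝ) (m : ℕ) (hm : s ≤ m)
    (hw0 : ∀ k, s ≤ k → k ≤ m → 0 ≤ w k)
    (hw : ∀ k, s ≤ k → k < m → w (k + 1) ≤ w k)
    (hM : ∀ m', s ≤ m' → m' ≤ m → |∑ k ∈ Ico s m', β k| ≤ M) :
    |∑ k ∈ Ico s m, β k * w k| ≤ M * w s := by
  have h1 := abel_anti_aux β w s M m hm hw hM
  have h2 : |(∑ k ∈ Ico s m, β k) * w m| ≤ M * w m := by
    rw [abs_mul, abs_of_nonneg (hw0 m hm le_rfl)]
    exact mul_le_mul_of_nonneg_right (hM m hm le_rfl) (hw0 m hm le_rfl)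
  have h3 : ∑ k ∈ Ico s m, β k * w k = (∑ k ∈ Ico s m, β k * w k - (∑ k ∈ Ico s m, β k) * w m)
      + (∑ k ∈ Ico s m, β k) * w m := by ring
  rw [h3]
  calc _ ≤ _ := abs_add_le _ _
    _ ≤ M * (w s - w m) + M * w m := add_le_add h1 h2
    _ = _ := by ring

theorem abel_mono_aux (β w : ℕ → ℝ) (s : ℕ) (M : ℝ) (m : ℕ) (hm : s ≤ m)
    (hw : ∀ k, s ≤ k → k < m → w k ≤ w (k + 1))
    (hM : ∀ m', s ≤ m' → m' ≤ m → |∑ k ∈ Ico s m', β k| ≤ M) :
    |∑ k ∈ Ico s m, β k * w k - (∑ k ∈ Ico s m, β k) * w m| ≤ M * (w m - w s) := by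
  induction m, hm using Nat.le_induction with
  | base => simp
  | succ m hm ih =>
    have ih' := ih (fun k h1 h2 => hw k h1 (by omega)) (fun m' h1 h2 => hM m' h1 (by omega))
    rw [Finset.sum_Ico_succ_top hm, Finset.sum_Ico_succ_top hm]
    have h1 : |(∑ k ∈ Ico s (m + 1), β k) * (w m - w (m + 1))| ≤ M * (w (m + 1) - w m) := by
      rw [abs_mul, abs_sub_comm, abs_of_nonneg (sub_nonneg.mpr (hw m hm (by omega)))]
      exact mul_le_mul_of_nonneg_right (hM _ (by omega) le_rfl)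
        (sub_nonneg.mpr (hw m hm (by omega)))
    rw [Finset.sum_Ico_succ_top hm] at h1
    have h2 : ∑ k ∈ Ico s m, β k * w k + β m * w m - (∑ k ∈ Ico s m, β k + β m) * w (m + 1) =
        (∑ k ∈ Ico s m, β k * w k - (∑ k ∈ Ico s m, β k) * w m) +
          (∑ k ∈ Ico s m, β k + β m) * (w m - w (m + 1)) := by ring
    rw [h2]
    calc _ ≤ _ := abs_add_le _ _
      _ ≤ M * (w m - w s) + M * (w (m + 1) - w m) := add_le_add ih' h1
      _ = _ := by ring

/-- Abel summation, nondecreasing weights. -/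
theorem abel_mono (β w : ℕ → ℝ) (s : ℕ) (M : ℝ) (m : ℕ) (hm : s ≤ m)
    (hw0 : 0 ≤ w s) (hM0 : 0 ≤ M)
    (hw : ∀ k, s ≤ k → k < m → w k ≤ w (k + 1))
    (hM : ∀ m', s ≤ m' → m' ≤ m → |∑ k ∈ Ico s m', β k| ≤ M) :
    |∑ k ∈ Ico s m, β k * w k| ≤ 2 * M * w m := by
  have h1 := abel_mono_aux β w s M m hm hw hM
  have hwm : w s ≤ w m := by
    clear h1 hM
    induction m, hm using Nat.le_induction with
    | base => exact le_rfl
    | succ m hm ih =>
      exact (ih (fun k h1 h2 => hw k h1 (by omega))).trans (hw m hm (by omega))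
  have hwm0 : 0 ≤ w m := hw0.trans hwm
  have h2 : |(∑ k ∈ Ico s m, β k) * w m| ≤ M * w m := by
    rw [abs_mul, abs_of_nonneg hwm0]
    exact mul_le_mul_of_nonneg_right (hM m hm le_rfl) hwm0
  have h3 : ∑ k ∈ Ico s m, β k * w k = (∑ k ∈ Ico s m, β k * w k - (∑ k ∈ Ico s m, β k) * w m)
      + (∑ k ∈ Ico s m, β k) * w m := by ring
  rw [h3]
  calc _ ≤ _ := abs_add_le _ _
    _ ≤ M * (w m - w s) + M * w m := add_le_add h1 h2
    _ = 2 * M * w m - M * w s := by ring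
    _ ≤ _ := by have := mul_nonneg hM0 hw0; linarith

/-! ### Polynomials as finite sums -/

/-- `∑ c_k x^k` -/
noncomputable def E0 (c : ℕ → ℝ) (s t : ℕ) (x : ℝ) : ℝ := ∑ k ∈ Ico s t, c k * x ^ k

/-- first derivative -/
noncomputable def E1 (c : ℕ → ℝ) (s t : ℕ) (x : ℝ) : ℝ :=
  ∑ k ∈ Ico s t, c k * ((k : ℝ) * x ^ (k - 1))

/-- second derivative -/
noncomputable def E2 (c : ℕ → ℝ) (s t : ℕ) (x : ℝ) : ℝ :=
  ∑ k ∈ Ico s t, c k * ((k : ℝ) * (((k - 1 : ℕ) : ℝ) * x ^ (k - 2)))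

theorem hasDerivAt_E0 (c : ℕ → ℝ) (s t : ℕ) (x : ℝ) :
    HasDerivAt (E0 c s t) (E1 c s t x) x := by
  unfold E0 E1
  apply HasDerivAt.fun_sum
  intro k _
  exact (hasDerivAt_pow k x).const_mul _

theorem hasDerivAt_E1 (c : ℕ → ℝ) (s t : ℕ) (x : ℝ) :
    HasDerivAt (E1 c s t) (E2 c s t x) x := by
  unfold E1 E2
  apply HasDerivAt.fun_sum
  intro k _
  have h := (hasDerivAt_pow (k - 1) x).const_mul (k : ℝ)
  exact h.const_mul _

theorem continuous_E0 (c : ℕ → ℝ) (s t : ℕ) : Continuous (E0 c s t) := by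
  unfold E0; fun_prop

theorem E0_split (c : ℕ → ℝ) (s m t : ℕ) (h1 : s ≤ m) (h2 : m ≤ t) (x : ℝ) :
    E0 c s t x = E0 c s m x + E0 c m t x := by
  unfold E0
  rw [Finset.sum_Ico_consecutive _ h1 h2]

theorem E1_split (c : ℕ → ℝ) (s m t : ℕ) (h1 : s ≤ m) (h2 : m ≤ t) (x : ℝ) :
    E1 c s t x = E1 c s m x + E1 c m t x := by
  unfold E1
  rw [Finset.sum_Ico_consecutive _ h1 h2]

theorem E2_split (c : ℕ → ℝ) (s m t : ℕ) (h1 : s ≤ m) (h2 : m ≤ t) (x : ℝ) :
    E2 c s t x = E2 c s m x + E2 c m t x := by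
  unfold E2
  rw [Finset.sum_Ico_consecutive _ h1 h2]

/-- sup bound of `E0` on `[0, z]` from partial sums at `z`. -/
theorem E0_le_of_partial (c : ℕ → ℝ) (s t : ℕ) (hst : s ≤ t) (z : ℝ) (hz : 0 < z) (M : ℝ)
    (hM : ∀ m, s ≤ m → m ≤ t → |∑ k ∈ Ico s m, c k * z ^ k| ≤ M) (x : ℝ) (hx0 : 0 ≤ x)
    (hxz : x ≤ z) : |E0 c s t x| ≤ M := by
  unfold E0
  have hM0 : 0 ≤ M := (abs_nonneg _).trans (hM s le_rfl hst)
  have hq0 : 0 ≤ x / z := div_nonneg hx0 hz.le
  have hq1 : x / z ≤ 1 := (div_le_one hz).mpr hxz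
  have h1 : ∑ k ∈ Ico s t, c k * x ^ k = ∑ k ∈ Ico s t, (c k * z ^ k) * (x / z) ^ k := by
    apply Finset.sum_congr rfl
    intro k _
    rw [div_pow, mul_assoc, mul_div_cancel₀ _ (pow_ne_zero k hz.ne')]
  rw [h1]
  have h2 := abel_anti (fun k => c k * z ^ k) (fun k => (x / z) ^ k) s M t hst
    (fun k _ _ => pow_nonneg hq0 k)
    (fun k _ _ => by
      have := pow_nonneg hq0 k
      rw [pow_succ]; nlinarith) hM
  refine h2.trans ?_
  have : (x / z) ^ s ≤ 1 := pow_le_one₀ hq0 hq1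
  nlinarith

/-- sup bound of `E2` on `[0, z]` from weighted partial sums at `z`. -/
theorem E2_le_of_partial (c : ℕ → ℝ) (s t : ℕ) (hst : s ≤ t) (z : ℝ) (hz : 0 < z) (M : ℝ)
    (hM : ∀ m, s ≤ m → m ≤ t →
      |∑ k ∈ Ico s m, c k * ((k : ℝ) * (((k - 1 : ℕ) : ℝ) * z ^ (k - 2)))| ≤ M)
    (x : ℝ) (hx0 : 0 ≤ x)
    (hxz : x ≤ z) : |E2 c s t x| ≤ M := by
  unfold E2
  have hM0 : 0 ≤ M := (abs_nonneg _).trans (hM s le_rfl hst)
  have hq0 : 0 ≤ x / z := div_nonneg hx0 hz.le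
  have hq1 : x / z ≤ 1 := (div_le_one hz).mpr hxz
  have h1 : ∑ k ∈ Ico s t, c k * ((k : ℝ) * (((k - 1 : ℕ) : ℝ) * x ^ (k - 2))) =
      ∑ k ∈ Ico s t, (c k * ((k : ℝ) * (((k - 1 : ℕ) : ℝ) * z ^ (k - 2)))) *
        (x / z) ^ (k - 2) := by
    apply Finset.sum_congr rfl
    intro k _
    have : x ^ (k - 2) = z ^ (k - 2) * (x / z) ^ (k - 2) := by
      rw [div_pow, mul_div_cancel₀ _ (pow_ne_zero _ hz.ne')]
    rw [this]; ring
  rw [h1]
  have h2 := abel_anti (fun k => c k * ((k : ℝ) * (((k - 1 : ℕ) : ℝ) * z ^ (k - 2))))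
    (fun k => (x / z) ^ (k - 2)) s M t hst
    (fun k _ _ => pow_nonneg hq0 _)
    (fun k _ _ => pow_le_pow_of_le_one hq0 hq1 (by omega)) hM
  refine h2.trans ?_
  have : (x / z) ^ (s - 2) ≤ 1 := pow_le_one₀ hq0 hq1
  nlinarith

/-! ### Windows -/

theorem mvt_bound {G G1 : ℝ → ℝ} (hG : ∀ x, HasDerivAt G (G1 x) x) {a b C : ℝ}
    (hab : a ≤ b) (hC : ∀ x, a ≤ x → x ≤ b → |G1 x| ≤ C) : |G b - G a| ≤ C * (b - a) := by
  have h := Convex.norm_image_sub_le_of_norm_hasDerivWithin_le (f := G) (f' := G1) (C := C)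
    (s := Set.Icc a b) (x := a) (y := b) (fun x _ => (hG x).hasDerivWithinAt)
    (fun x hx => hC x hx.1 hx.2) (convex_Icc a b) (Set.left_mem_Icc.mpr hab)
    (Set.right_mem_Icc.mpr hab)
  rw [Real.norm_eq_abs, Real.norm_eq_abs, abs_of_nonneg (sub_nonneg.mpr hab)] at h
  exact h

/-- No near-double roots in a window, from mesh information. -/
theorem window_free {G G1 G2 : ℝ → ℝ} (hG : ∀ x, HasDerivAt G (G1 x) x)
    (hG1 : ∀ x, HasDerivAt G1 (G2 x) x) {u v σ r A : ℝ} {M : ℕ} (huv : u < v) (hr : 0 < r)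
    (hσ : 0 < σ) (hA : 1 ≤ A) (hM : 2 * A ^ 3 ≤ M) (hlen : (v - u) * r ≤ 1)
    (h2 : ∀ x, u ≤ x → x ≤ v → |G2 x| ≤ 2 * A * σ * r ^ 2)
    (hm : ∀ i : ℕ, i ≤ M → ¬ (|G (u + (v - u) * i / M)| ≤ 2 * σ / A ^ 4 ∧
      |G1 (u + (v - u) * i / M)| ≤ 2 * σ * r / A ^ 2)) :
    ∀ x, u ≤ x → x ≤ v → |G x| ≤ σ / A ^ 4 → G1 x ≠ 0 := by
  intro x hx1 hx2 hGx hG1x
  have hA0 : 0 < A := by linarith
  have hA3 : 1 ≤ A ^ 3 := one_le_pow₀ hA
  have hMpos : (0 : ℝ) < M := by linarith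
  have hvu : 0 < v - u := by linarith
  -- the mesh point to the left of `x`
  set i : ℕ := ⌊(x - u) * M / (v - u)⌋₊ with hi
  have hnn : 0 ≤ (x - u) * M / (v - u) := by
    apply div_nonneg _ hvu.le
    exact mul_nonneg (by linarith) hMpos.le
  have hile : (i : ℝ) ≤ (x - u) * M / (v - u) := Nat.floor_le hnn
  have hilt : (x - u) * M / (v - u) < i + 1 := Nat.lt_floor_add_one _
  have hiM : i ≤ M := by
    have h3 : (x - u) * M / (v - u) ≤ M := by
      rw [div_le_iff₀ hvu]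
      have : x - u ≤ v - u := by linarith
      nlinarith
    exact_mod_cast hile.trans h3
  set y : ℝ := u + (v - u) * i / M with hy
  have hyx : y ≤ x := by
    have : (v - u) * i / M ≤ x - u := by
      rw [div_le_iff₀ hMpos]
      rw [le_div_iff₀ hvu] at hile
      linarith
    rw [hy]; linarith
  have hxy : x - y ≤ (v - u) / M := by
    have : x - u < (v - u) * i / M + (v - u) / M := by
      rw [← add_div, lt_div_iff₀ hMpos]
      rw [div_lt_iff₀ hvu] at hilt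
      nlinarith
    rw [hy]; linarith
  have huy : u ≤ y := by
    have : 0 ≤ (v - u) * i / M := by positivity
    rw [hy]; linarith
  have hxyr : (x - y) * r ≤ 1 / M := by
    have h4 : (x - y) * r ≤ (v - u) / M * r := mul_le_mul_of_nonneg_right hxy hr.le
    have h5 : (v - u) / M * r = (v - u) * r / M := by ring
    rw [h5] at h4
    exact h4.trans (div_le_div_of_nonneg_right hlen hMpos.le)
  have hxy0 : 0 ≤ x - y := by linarith
  have h1M : 1 / (M : ℝ) ≤ 1 / (2 * A ^ 3) := by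
    apply one_div_le_one_div_of_le _ hM
    positivity
  -- bound for `G1` on `[y, x]`
  have hb1 : ∀ z, y ≤ z → z ≤ x → |G1 z| ≤ σ * r / A ^ 2 := by
    intro z hz1 hz2
    have h3 := mvt_bound hG1 hz2 (C := 2 * A * σ * r ^ 2)
      (fun w hw1 hw2 => h2 w (by linarith) (by linarith))
    rw [hG1x, zero_sub, abs_neg] at h3
    refine h3.trans ?_
    have h4 : (x - z) * r ≤ 1 / (2 * A ^ 3) := by
      have : (x - z) * r ≤ (x - y) * r := mul_le_mul_of_nonneg_right (by linarith) hr.le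
      linarith
    calc 2 * A * σ * r ^ 2 * (x - z) = 2 * A * σ * r * ((x - z) * r) := by ring
      _ ≤ 2 * A * σ * r * (1 / (2 * A ^ 3)) := by
          apply mul_le_mul_of_nonneg_left h4; positivity
      _ = σ * r / A ^ 2 := by field_simp
  have hG1y : |G1 y| ≤ 2 * σ * r / A ^ 2 := by
    refine (hb1 y le_rfl hyx).trans ?_
    apply div_le_div_of_nonneg_right _ (by positivity)
    have : 0 ≤ σ * r := by positivity
    nlinarith
  have hGy : |G y| ≤ 2 * σ / A ^ 4 := by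
    have h3 := mvt_bound hG hyx (C := σ * r / A ^ 2) (fun w hw1 hw2 => hb1 w hw1 hw2)
    have h4 : σ * r / A ^ 2 * (x - y) ≤ σ / A ^ 4 := by
      calc σ * r / A ^ 2 * (x - y) = σ / A ^ 2 * ((x - y) * r) := by ring
        _ ≤ σ / A ^ 2 * (1 / (2 * A ^ 3)) := by
            apply mul_le_mul_of_nonneg_left (hxyr.trans h1M); positivity
        _ = σ / (2 * A ^ 5) := by field_simp
        _ ≤ σ / A ^ 4 := by
            apply div_le_div_of_nonneg_left hσ.le (by positivity)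
            have : A ^ 4 ≤ A ^ 5 := pow_le_pow_right₀ hA (by norm_num)
            have h6 : 0 < A ^ 5 := by positivity
            linarith
    have h5 : G y = G x - (G x - G y) := by ring
    rw [h5]
    calc |G x - (G x - G y)| ≤ |G x| + |G x - G y| := abs_sub _ _
      _ ≤ σ / A ^ 4 + σ / A ^ 4 := add_le_add hGx (h3.trans h4)
      _ = 2 * σ / A ^ 4 := by ring
  exact hm i hiM ⟨hGy, hG1y⟩

/-- Zeros are separated in a good window. -/
theorem window_sep {G G1 G2 : ℝ → ℝ} (hG : ∀ x, HasDerivAt G (G1 x) x)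
    (hG1 : ∀ x, HasDerivAt G1 (G2 x) x) {u v σ r A : ℝ} {M : ℕ} (hr : 0 < r)
    (hσ : 0 < σ) (hA : 1 ≤ A) (hM : 2 * A ^ 3 ≤ M)
    (h2 : ∀ x, u ≤ x → x ≤ v → |G2 x| ≤ 2 * A * σ * r ^ 2)
    (hfree : ∀ x, u ≤ x → x ≤ v → |G x| ≤ σ / A ^ 4 → G1 x ≠ 0)
    {z z' : ℝ} (hz : u ≤ z) (hzz' : z < z') (hz' : z' ≤ v) (hGz : G z = 0) (hGz' : G z' = 0) :
    1 < (z' - z) * r * M := by
  by_contra hcon
  push Not at hcon
  have hA0 : 0 < A := by linarith
  have hA3 : 1 ≤ A ^ 3 := one_le_pow₀ hA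
  have hMpos : (0 : ℝ) < M := by linarith
  obtain ⟨x, hx, hx0⟩ : ∃ x ∈ Set.Ioo z z', G1 x = 0 :=
    exists_hasDerivAt_eq_zero hzz' (fun x _ => (hG x).continuousAt.continuousWithinAt)
      (by rw [hGz, hGz']) (fun x _ => hG x)
  apply hfree x (by linarith [hx.1]) (by linarith [hx.2]) _ hx0
  have hlen : (z' - z) * r ≤ 1 / M := by
    rw [le_div_iff₀ hMpos]; exact hcon
  have h1M : 1 / (M : ℝ) ≤ 1 / (2 * A ^ 3) := by
    apply one_div_le_one_div_of_le _ hM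
    positivity
  have hb1 : ∀ w, z ≤ w → w ≤ x → |G1 w| ≤ σ * r / A ^ 2 := by
    intro w hw1 hw2
    have h3 := mvt_bound hG1 hw2 (C := 2 * A * σ * r ^ 2)
      (fun q hq1 hq2 => h2 q (by linarith) (by linarith [hx.2]))
    rw [hx0, zero_sub, abs_neg] at h3
    refine h3.trans ?_
    have h4 : (x - w) * r ≤ 1 / (2 * A ^ 3) := by
      have : (x - w) * r ≤ (z' - z) * r := mul_le_mul_of_nonneg_right (by linarith [hx.2]) hr.le
      linarith
    calc 2 * A * σ * r ^ 2 * (x - w) = 2 * A * σ * r * ((x - w) * r) := by ring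
      _ ≤ 2 * A * σ * r * (1 / (2 * A ^ 3)) := by
          apply mul_le_mul_of_nonneg_left h4; positivity
      _ = σ * r / A ^ 2 := by field_simp
  have h3 := mvt_bound hG hx.1.le (C := σ * r / A ^ 2) (fun w hw1 hw2 => hb1 w hw1 hw2)
  rw [hGz, sub_zero] at h3
  refine h3.trans ?_
  have hxz : (x - z) * r ≤ 1 / (2 * A ^ 3) := by
    have : (x - z) * r ≤ (z' - z) * r := mul_le_mul_of_nonneg_right (by linarith [hx.2]) hr.le
    linarith
  calc σ * r / A ^ 2 * (x - z) = σ / A ^ 2 * ((x - z) * r) := by ring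
    _ ≤ σ / A ^ 2 * (1 / (2 * A ^ 3)) := by
        apply mul_le_mul_of_nonneg_left hxz; positivity
    _ = σ / (2 * A ^ 5) := by field_simp
    _ ≤ σ / A ^ 4 := by
        apply div_le_div_of_nonneg_left hσ.le (by positivity)
        have : A ^ 4 ≤ A ^ 5 := pow_le_pow_right₀ hA (by norm_num)
        have h6 : 0 < A ^ 5 := by positivity
        linarith

/-- The zero set of `G` in an open interval. -/
def Zs (G : ℝ → ℝ) (u v : ℝ) : Set ℝ := {x | u < x ∧ x < v ∧ G x = 0}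

/-- At most `M + 1` zeros in a good window. -/
theorem window_count {G G1 G2 : ℝ → ℝ} (hG : ∀ x, HasDerivAt G (G1 x) x)
    (hG1 : ∀ x, HasDerivAt G1 (G2 x) x) {u v σ r A : ℝ} {M : ℕ} (hr : 0 < r)
    (hσ : 0 < σ) (hA : 1 ≤ A) (hM : 2 * A ^ 3 ≤ M) (hlen : (v - u) * r ≤ 1)
    (h2 : ∀ x, u ≤ x → x ≤ v → |G2 x| ≤ 2 * A * σ * r ^ 2)
    (hfree : ∀ x, u ≤ x → x ≤ v → |G x| ≤ σ / A ^ 4 → G1 x ≠ 0) :
    (Zs G u v).ncard ≤ M + 1 := by
  have hMpos : (0 : ℝ) < M := by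
    have : 1 ≤ A ^ 3 := one_le_pow₀ hA
    linarith
  have hinj : ∀ z z', z ∈ Zs G u v → z' ∈ Zs G u v → z < z' →
      ⌊(z - u) * r * M⌋₊ < ⌊(z' - u) * r * M⌋₊ := by
    intro z z' hz hz' hlt
    have h := window_sep hG hG1 hr hσ hA hM h2 hfree hz.1.le hlt hz'.2.1.le hz.2.2 hz'.2.2
    have h0 : 0 ≤ (z - u) * r * M := by
      have := hz.1
      have : 0 ≤ z - u := by linarith
      positivity
    have h3 : (z - u) * r * M + 1 ≤ (z' - u) * r * M := by nlinarith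
    have h4 : ⌊(z - u) * r * M⌋₊ + 1 = ⌊(z - u) * r * M + 1⌋₊ := by
      rw [Nat.floor_add_one h0]
    have h5 := Nat.floor_le_floor h3
    omega
  have hinj' : Set.InjOn (fun z => ⌊(z - u) * r * M⌋₊) (Zs G u v) := by
    intro z hz z' hz' heq
    rcases lt_trichotomy z z' with h | h | h
    · have := hinj z z' hz hz' h
      simp only at heq; omega
    · exact h
    · have := hinj z' z hz' hz h
      simp only at heq; omega
  have hmaps : Set.MapsTo (fun z => ⌊(z - u) * r * M⌋₊) (Zs G u v)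
      (↑(Finset.range (M + 1)) : Set ℕ) := by
    intro z hz
    simp only [Finset.coe_range, Set.mem_Iio]
    have h1 : (z - u) * r * M ≤ M := by
      have h2 : (z - u) * r ≤ 1 := by
        have : (z - u) * r ≤ (v - u) * r :=
          mul_le_mul_of_nonneg_right (by linarith [hz.2.1]) hr.le
        linarith
      nlinarith
    have h3 := Nat.floor_le_floor h1
    rw [Nat.floor_natCast] at h3
    omega
  calc (Zs G u v).ncard ≤ ((↑(Finset.range (M + 1)) : Set ℕ)).ncard :=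
        Set.ncard_le_ncard_of_injOn _ hmaps hinj' (Finset.finite_toSet _)
    _ = M + 1 := by rw [Set.ncard_coe_finset, Finset.card_range]

end Pool.Agent.H993R2.Kac
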