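import Pool.Agent.H993R2.Kac.SpecialProb2

set_option autoImplicit false
set_option maxHeartbeats 1000000
set_option linter.unusedSectionVars false

/-!
A typical polynomial has many zeros on all scales: sign changes at sparse points.
-/

namespace Pool.Agent.H993R2.Kac

open MeasureTheory ProbabilityTheory Finset

variable {Ω : Type*} [MeasurableSpace Ω] {P : Measure Ω}

/-- universal constant -/
noncomputable def kap : ℝ :=
  (gaussianReal 0 1).real (Set.Ioc 0 1) * (gaussianReal 0 1).real (Set.Iio (-1))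

theorem gauss_pos_of_vol {s : Set ℝ} (hs : (volume : Measure ℝ) s ≠ 0) :
    0 < (gaussianReal 0 1).real s := by
  have h1 : (gaussianReal 0 1) s ≠ 0 := by
    intro h0
    exact hs (gaussianReal_absolutelyContinuous' 0 one_ne_zero h0)
  rw [Measure.real, ENNReal.toReal_pos_iff]
  exact ⟨pos_iff_ne_zero.mpr h1, measure_lt_top _ _⟩

theorem kap_pos : 0 < kap := by
  unfold kap
  apply mul_pos
  · apply gauss_pos_of_vol
    rw [Real.volume_Ioc]; simp
  · apply gauss_pos_of_vol
    rw [Real.volume_Iio]; simp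

theorem kap_le_one : kap ≤ 1 := by
  unfold kap
  have h1 : (gaussianReal 0 1).real (Set.Ioc 0 1) ≤ 1 := measureReal_le_one
  have h2 : (gaussianReal 0 1).real (Set.Iio (-1)) ≤ 1 := measureReal_le_one
  have h3 : 0 ≤ (gaussianReal 0 1).real (Set.Ioc 0 1) := measureReal_nonneg
  have h4 : 0 ≤ (gaussianReal 0 1).real (Set.Iio (-1)) := measureReal_nonneg
  nlinarith

variable {η : ℕ → Ω → ℝ}

theorem prob_sign (h : Std η P) (α β : ℕ → ℝ) (S : Finset ℕ) (hα : 0 < ∑ k ∈ S, α k ^ 2)
    (hc0 : 0 ≤ ∑ k ∈ S, α k * β k)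
    (hc : (∑ k ∈ S, α k * β k) ^ 2 ≤ (1 / 2) * (∑ k ∈ S, α k ^ 2) * (∑ k ∈ S, β k ^ 2))
    (hβ : 0 < ∑ k ∈ S, β k ^ 2) :
    kap ≤ P.real {ω | lf η α S ω * lf η β S ω < 0} := by
  have hP := h.prob
  set vU := ∑ k ∈ S, α k ^ 2 with hvU
  set vV := ∑ k ∈ S, β k ^ 2 with hvV
  set c := ∑ k ∈ S, α k * β k with hcdef
  set vW := vV - c ^ 2 / vU with hvW
  have hcU : c ^ 2 / vU ≤ vV / 2 := by
    rw [div_le_iff₀ hα]; linarith
  have hWpos : 0 < vW := by linarith
  have hsU : 0 < Real.sqrt vU := Real.sqrt_pos.mpr hα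
  have hsW : 0 < Real.sqrt vW := Real.sqrt_pos.mpr hWpos
  set t := c / vU with ht
  set α' : ℕ → ℝ := fun k => α k / Real.sqrt vU with hα'
  set β' : ℕ → ℝ := fun k => (β k - t * α k) / Real.sqrt vW with hβ'
  have hα'1 : ∑ k ∈ S, α' k ^ 2 = 1 := by
    have : ∀ k ∈ S, α' k ^ 2 = α k ^ 2 / vU := by
      intro k _
      rw [hα']
      simp only
      rw [div_pow, Real.sq_sqrt hα.le]
    rw [Finset.sum_congr rfl this, ← Finset.sum_div, div_self hα.ne']
  have hβ'1 : ∑ k ∈ S, β' k ^ 2 = 1 := by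
    have : ∀ k ∈ S, β' k ^ 2 = (β k ^ 2 - 2 * t * (α k * β k) + t ^ 2 * α k ^ 2) / vW := by
      intro k _
      rw [hβ']
      simp only
      rw [div_pow, Real.sq_sqrt hWpos.le]
      ring
    rw [Finset.sum_congr rfl this, ← Finset.sum_div, Finset.sum_add_distrib,
      Finset.sum_sub_distrib, ← Finset.mul_sum, ← Finset.mul_sum, ← hvU, ← hvV, ← hcdef]
    rw [div_eq_one_iff_eq hWpos.ne', hvW, ht]
    field_simp
    ring
  have horth : ∑ k ∈ S, α' k * β' k = 0 := by
    have : ∀ k ∈ S, α' k * β' k = (α k * β k - t * α k ^ 2) / (Real.sqrt vU * Real.sqrt vW) := by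
      intro k _
      rw [hα', hβ']
      simp only
      field_simp
    rw [Finset.sum_congr rfl this, ← Finset.sum_div, Finset.sum_sub_distrib, ← Finset.mul_sum,
      ← hvU, ← hcdef, ht]
    have : c - c / vU * vU = 0 := by field_simp; ring
    rw [this, zero_div]
  have hind := h.indep_lf α' β' S horth
  have hlaw1 := h.law_lf α' S
  have hlaw2 := h.law_lf β' S
  rw [hα'1, Real.toNNReal_one] at hlaw1
  rw [hβ'1, Real.toNNReal_one] at hlaw2
  have hprod := hind.measure_inter_preimage_eq_mul _ _ (measurableSet_Ioc (a := (0 : ℝ)) (b := 1))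
    (measurableSet_Iio (a := (-1 : ℝ)))
  have e1 : P.real (lf η α' S ⁻¹' Set.Ioc 0 1 ∩ lf η β' S ⁻¹' Set.Iio (-1)) = kap := by
    rw [Measure.real, hprod, ENNReal.toReal_mul]
    unfold kap
    rw [Measure.real, Measure.real]
    congr 2
    · rw [← hlaw1, Measure.map_apply (h.measurable_lf α' S) measurableSet_Ioc]
    · rw [← hlaw2, Measure.map_apply (h.measurable_lf β' S) measurableSet_Iio]
  rw [← e1]
  apply measureReal_mono _ (measure_ne_top _ _)
  rintro ω ⟨h1, h2⟩
  have h1' : lf η α' S ω ∈ Set.Ioc (0 : ℝ) 1 := h1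
  have h2' : lf η β' S ω < -1 := h2
  have d1 : lf η α S ω = Real.sqrt vU * lf η α' S ω := by
    unfold lf
    rw [Finset.mul_sum]
    apply Finset.sum_congr rfl
    intro k _
    rw [hα']
    simp only
    field_simp
  have d2 : lf η β S ω = Real.sqrt vW * lf η β' S ω + t * (Real.sqrt vU * lf η α' S ω) := by
    rw [← d1]
    unfold lf
    rw [Finset.mul_sum, Finset.mul_sum, ← Finset.sum_add_distrib]
    apply Finset.sum_congr rfl
    intro k _
    rw [hβ']
    simp only
    field_simp
    ring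
  have d3 : t * Real.sqrt vU ≤ Real.sqrt vW := by
    have e2 : t * Real.sqrt vU = c / Real.sqrt vU := by
      rw [ht]
      have : vU = Real.sqrt vU * Real.sqrt vU := (Real.mul_self_sqrt hα.le).symm
      field_simp
      rw [Real.sq_sqrt hα.le]
    rw [e2]
    apply Real.le_sqrt_of_sq_le
    rw [div_pow, Real.sq_sqrt hα.le]
    linarith
  have ht0 : 0 ≤ t := div_nonneg hc0 hα.le
  show lf η α S ω * lf η β S ω < 0
  rw [d1, d2]
  apply mul_neg_of_pos_of_neg (mul_pos hsU h1'.1)
  have e3 : t * (Real.sqrt vU * lf η α' S ω) ≤ Real.sqrt vW := by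
    calc t * (Real.sqrt vU * lf η α' S ω) = (t * Real.sqrt vU) * lf η α' S ω := by ring
      _ ≤ (t * Real.sqrt vU) * 1 := mul_le_mul_of_nonneg_left h1'.2 (by positivity)
      _ ≤ Real.sqrt vW := by rw [mul_one]; exact d3
  have e4 : Real.sqrt vW * lf η β' S ω < Real.sqrt vW * (-1) := mul_lt_mul_of_pos_left h2' hsW
  linarith

/-- finite geometric sums -/
theorem geom_Ico (z : ℝ) (hz1 : z < 1) (s n : ℕ) :
    ∑ k ∈ Ico s (s + n), z ^ k = z ^ s * ((1 - z ^ n) / (1 - z)) := by
  rw [Finset.sum_Ico_eq_sum_range]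
  have : s + n - s = n := by omega
  rw [this]
  have h1 : ∀ k ∈ range n, z ^ (s + k) = z ^ s * z ^ k := fun k _ => pow_add _ _ _
  rw [Finset.sum_congr rfl h1, ← Finset.mul_sum, geom_sum_eq hz1.ne]
  congr 1
  rw [← neg_sub 1 z, ← neg_sub 1 (z ^ n), neg_div_neg_eq]

theorem prob_sign_pt (h : Std η P) (s n : ℕ) (y y' : ℝ) (hy0 : 0 < y) (hyy' : y ≤ y')
    (hy1 : y' < 1) (hr : 32 * (1 - y') ≤ 1 - y) (hn : (y' ^ 2) ^ n ≤ 1 / 2) :
    kap ≤ P.real {ω | E0 (fun k => η k ω) s (s + n) y * E0 (fun k => η k ω) s (s + n) y' < 0} := by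
  have hy'0 : 0 < y' := by linarith
  have hn' : (y ^ 2) ^ n ≤ 1 / 2 := by
    refine le_trans ?_ hn
    apply pow_le_pow_left₀ (by positivity)
    exact pow_le_pow_left₀ hy0.le hyy' 2
  have hvar : ∀ x : ℝ, 0 < x → x < 1 → (x ^ 2) ^ n ≤ 1 / 2 →
      (x ^ s) ^ 2 / (4 * (1 - x)) ≤ ∑ k ∈ Ico s (s + n), (x ^ k) ^ 2 := by
    intro x hx0 hx1 hx
    have e1 : ∑ k ∈ Ico s (s + n), (x ^ k) ^ 2 = ∑ k ∈ Ico s (s + n), (x ^ 2) ^ k := by
      apply Finset.sum_congr rfl
      intro k _
      rw [← pow_mul, ← pow_mul, mul_comm]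
    have hx2 : x ^ 2 < 1 := by nlinarith
    have e0 : (x ^ 2) ^ s = (x ^ s) ^ 2 := by rw [← pow_mul, ← pow_mul, mul_comm]
    rw [e1, geom_Ico _ hx2, e0, div_eq_mul_one_div]
    apply mul_le_mul_of_nonneg_left _ (by positivity)
    rw [div_le_div_iff₀ (by linarith) (by linarith)]
    have h1x : 0 < 1 - x := by linarith
    nlinarith
  have hU := hvar y hy0 (by linarith) hn'
  have hV := hvar y' hy'0 hy1 hn
  have hUpos : 0 < (y ^ s) ^ 2 / (4 * (1 - y)) := by
    have : 0 < 1 - y := by linarith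
    positivity
  have hVpos : 0 < (y' ^ s) ^ 2 / (4 * (1 - y')) := by
    have : 0 < 1 - y' := by linarith
    positivity
  have hcnn : 0 ≤ ∑ k ∈ Ico s (s + n), y ^ k * y' ^ k :=
    Finset.sum_nonneg fun k _ => by positivity
  have hcle : ∑ k ∈ Ico s (s + n), y ^ k * y' ^ k ≤ (y ^ s * y' ^ s) / (1 - y) := by
    have e1 : ∑ k ∈ Ico s (s + n), y ^ k * y' ^ k = ∑ k ∈ Ico s (s + n), (y * y') ^ k := by
      apply Finset.sum_congr rfl
      intro k _; rw [mul_pow]
    have hz1 : y * y' < 1 := by nlinarith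
    rw [e1, geom_Ico _ hz1, mul_pow, div_eq_mul_one_div (y ^ s * y' ^ s)]
    apply mul_le_mul_of_nonneg_left _ (by positivity)
    rw [div_le_div_iff₀ (by linarith) (by linarith)]
    have h1 : 0 ≤ (y * y') ^ n := by positivity
    have h2 : 0 < 1 - y := by linarith
    nlinarith
  have hkey := prob_sign h (fun k => y ^ k) (fun k => y' ^ k) (Ico s (s + n))
    (lt_of_lt_of_le hUpos hU) hcnn (by
      have h1y : 0 < 1 - y := by linarith
      have h1y' : 0 < 1 - y' := by linarith
      calc (∑ k ∈ Ico s (s + n), y ^ k * y' ^ k) ^ 2 ≤ ((y ^ s * y' ^ s) / (1 - y)) ^ 2 :=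
            pow_le_pow_left₀ hcnn hcle 2
        _ ≤ (1 / 2) * ((y ^ s) ^ 2 / (4 * (1 - y))) * ((y' ^ s) ^ 2 / (4 * (1 - y'))) := by
            have e2 : (1 / 2) * ((y ^ s) ^ 2 / (4 * (1 - y))) * ((y' ^ s) ^ 2 / (4 * (1 - y'))) =
                (y ^ s * y' ^ s) ^ 2 * (1 / (32 * (1 - y) * (1 - y'))) := by
              field_simp
              ring
            rw [e2, div_pow, div_eq_mul_one_div ((y ^ s * y' ^ s) ^ 2)]
            apply mul_le_mul_of_nonneg_left _ (by positivity)
            apply one_div_le_one_div_of_le (by positivity)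
            nlinarith
        _ ≤ (1 / 2) * (∑ k ∈ Ico s (s + n), (y ^ k) ^ 2) *
            (∑ k ∈ Ico s (s + n), (y' ^ k) ^ 2) := by
            gcongr)
    (lt_of_lt_of_le hVpos hV)
  refine hkey.trans (le_of_eq ?_)
  have e3 : ∀ ω x, lf η (fun k => x ^ k) (Ico s (s + n)) ω = E0 (fun k => η k ω) s (s + n) x := by
    intro ω x
    unfold lf E0
    exact Finset.sum_congr rfl fun k _ => mul_comm _ _
  simp only [e3]

/-- the sparse points -/
noncomputable def yy (i : ℕ) : ℝ := 1 - (1 / 2) ^ (5 * i)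

theorem yy_lt (i : ℕ) : yy i < yy (i + 1) := by
  unfold yy
  have : ((1 : ℝ) / 2) ^ (5 * (i + 1)) = (1 / 2) ^ (5 * i) / 32 := by
    rw [mul_add, pow_add]; norm_num; ring
  rw [this]
  have : (0 : ℝ) < (1 / 2) ^ (5 * i) := by positivity
  linarith

open Classical in
/-- number of sign changes -/
noncomputable def SCn (c : ℕ → ℝ) (s t I : ℕ) : ℕ :=
  ((Ico 1 I).filter (fun i => E0 c s t (yy i) * E0 c s t (yy (i + 1)) < 0)).card

theorem pow_half_le (l n : ℕ) (hn : 2 ^ l ≤ n) (y : ℝ) (hy0 : 0 ≤ y) (hy : y ≤ 1 - (1 / 2) ^ l) :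
    (y ^ 2) ^ n ≤ 1 / 2 := by
  have h1 : y ≤ Real.exp (-(1 / 2) ^ l) := by
    refine hy.trans ?_
    have := Real.add_one_le_exp (-(1 / 2 : ℝ) ^ l)
    linarith
  have hy1 : y ≤ 1 := by
    have : (0 : ℝ) < (1 / 2) ^ l := by positivity
    linarith
  have h2 : y ^ n ≤ Real.exp (-1) := by
    calc y ^ n ≤ y ^ (2 ^ l) := pow_le_pow_of_le_one hy0 hy1 hn
      _ ≤ Real.exp (-(1 / 2) ^ l) ^ (2 ^ l) := pow_le_pow_left₀ hy0 h1 _
      _ = Real.exp (-1) := by
          rw [← Real.exp_nat_mul]
          congr 1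
          push_cast
          rw [div_pow, one_pow]
          field_simp
  have h3 : Real.exp (-1) ≤ 1 / 2 := by
    rw [Real.exp_neg]
    have := Real.add_one_le_exp (1 : ℝ)
    rw [inv_le_comm₀ (by positivity) (by norm_num)]
    norm_num
    linarith
  calc (y ^ 2) ^ n = y ^ n * y ^ n := by rw [← pow_mul, mul_comm, pow_mul]; ring
    _ ≤ y ^ n * 1 := by
        apply mul_le_mul_of_nonneg_left (pow_le_one₀ hy0 hy1) (by positivity)
    _ ≤ 1 / 2 := by rw [mul_one]; exact h2.trans h3

theorem measurable_SCn {𝓩 : Type*} [MeasurableSpace 𝓩] (s t I : ℕ) {c : 𝓩 → ℕ → ℝ}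
    (hc : ∀ k, Measurable (fun z => c z k)) : Measurable (fun z => (SCn (c z) s t I : ℝ)) := by
  classical
  have hE0 : ∀ x, Measurable (fun z => E0 (c z) s t x) := by
    intro x
    unfold E0
    exact Finset.measurable_sum _ fun k _ => (hc k).mul_const _
  have : (fun z => (SCn (c z) s t I : ℝ)) = fun z => ∑ i ∈ Ico 1 I,
      if E0 (c z) s t (yy i) * E0 (c z) s t (yy (i + 1)) < 0 then (1 : ℝ) else 0 := by
    ext z
    unfold SCn
    rw [Finset.card_filter]
    push_cast
    apply Finset.sum_congr rfl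
    intro i _
    split_ifs <;> rfl
  rw [this]
  apply Finset.measurable_sum
  intro i _
  apply Measurable.ite _ measurable_const measurable_const
  exact measurableSet_lt ((hE0 _).mul (hE0 _)) measurable_const

/-- With probability at least `kap / 2` there are at least `(kap / 2) (I - 1)` sign changes. -/
theorem prob_few (h : Std η P) (l s n I : ℕ) (hn : 2 ^ l ≤ n) (hI : 2 ≤ I) (hIl : 5 * I ≤ l) :
    kap / 2 ≤ P.real {ω | kap / 2 * ((I : ℝ) - 1) ≤ (SCn (fun k => η k ω) s (s + n) I : ℝ)} := by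
  classical
  have hP := h.prob
  have hI1 : (0 : ℝ) < (I : ℝ) - 1 := by
    have : (2 : ℝ) ≤ I := by exact_mod_cast hI
    linarith
  set N : Ω → ℝ := fun ω => (SCn (fun k => η k ω) s (s + n) I : ℝ) with hN
  have hNm : Measurable N := measurable_SCn s (s + n) I (fun k => h.meas k)
  set A : ℕ → Set Ω := fun i => {ω | E0 (fun k => η k ω) s (s + n) (yy i) *
    E0 (fun k => η k ω) s (s + n) (yy (i + 1)) < 0} with hA
  have hE0 : ∀ x, Measurable (fun ω => E0 (fun k => η k ω) s (s + n) x) := by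
    intro x
    unfold E0
    exact Finset.measurable_sum _ fun k _ => (h.meas k).mul_const _
  have hAm : ∀ i, MeasurableSet (A i) := fun i =>
    measurableSet_lt ((hE0 _).mul (hE0 _)) measurable_const
  have hNsum : ∀ ω, N ω = ∑ i ∈ Ico 1 I, (A i).indicator (fun _ => (1 : ℝ)) ω := by
    intro ω
    rw [hN]
    simp only
    unfold SCn
    rw [Finset.card_filter]
    push_cast
    apply Finset.sum_congr rfl
    intro i _
    by_cases hi : E0 (fun k => η k ω) s (s + n) (yy i) *
      E0 (fun k => η k ω) s (s + n) (yy (i + 1)) < 0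
    · rw [if_pos hi, Set.indicator_of_mem]
      exact hi
    · rw [if_neg hi, Set.indicator_of_notMem]
      exact hi
  have hNint : Integrable N P := by
    have : N = fun ω => ∑ i ∈ Ico 1 I, (A i).indicator (fun _ => (1 : ℝ)) ω := by
      ext ω; exact hNsum ω
    rw [this]
    exact integrable_finsetSum _ fun i _ => (integrable_const _).indicator (hAm i)
  have hlow : kap * ((I : ℝ) - 1) ≤ ∫ ω, N ω ∂P := by
    have e1 : ∫ ω, N ω ∂P = ∑ i ∈ Ico 1 I, P.real (A i) := by
      simp only [hNsum]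
      rw [integral_finsetSum _ fun i _ => (integrable_const _).indicator (hAm i)]
      apply Finset.sum_congr rfl
      intro i _
      rw [integral_indicator (hAm i), setIntegral_const, smul_eq_mul, mul_one]
    rw [e1]
    calc kap * ((I : ℝ) - 1) = ∑ i ∈ Ico 1 I, kap := by
          rw [Finset.sum_const, Nat.card_Ico, nsmul_eq_mul, Nat.cast_sub (by omega)]
          push_cast; ring
      _ ≤ ∑ i ∈ Ico 1 I, P.real (A i) := by
          apply Finset.sum_le_sum
          intro i hi
          rw [Finset.mem_Ico] at hi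
          have hyi0 : 0 < yy i := by
            unfold yy
            have : ((1 : ℝ) / 2) ^ (5 * i) ≤ (1 / 2) ^ 1 :=
              pow_le_pow_of_le_one (by norm_num) (by norm_num) (by omega)
            norm_num at this ⊢
            linarith
          have hlt := yy_lt i
          have hy1 : yy (i + 1) < 1 := by
            unfold yy
            have : (0 : ℝ) < (1 / 2) ^ (5 * (i + 1)) := by positivity
            linarith
          apply prob_sign_pt h s n (yy i) (yy (i + 1)) hyi0 hlt.le hy1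
          · unfold yy
            have : ((1 : ℝ) / 2) ^ (5 * (i + 1)) = (1 / 2) ^ (5 * i) / 32 := by
              rw [mul_add, pow_add]; norm_num; ring
            rw [this]; linarith
          · apply pow_half_le l n hn _ (by linarith)
            unfold yy
            have : ((1 : ℝ) / 2) ^ l ≤ (1 / 2) ^ (5 * (i + 1)) :=
              pow_le_pow_of_le_one (by norm_num) (by norm_num) (by omega)
            linarith
  set G : Set Ω := {ω | kap / 2 * ((I : ℝ) - 1) ≤ N ω} with hG
  have hGm : MeasurableSet G := measurableSet_le measurable_const hNm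
  have hup : ∫ ω, N ω ∂P ≤ kap / 2 * ((I : ℝ) - 1) + ((I : ℝ) - 1) * P.real G := by
    have e2 : ∫ ω, (kap / 2 * ((I : ℝ) - 1) + G.indicator (fun _ => ((I : ℝ) - 1)) ω) ∂P =
        kap / 2 * ((I : ℝ) - 1) + ((I : ℝ) - 1) * P.real G := by
      rw [integral_add (integrable_const _) ((integrable_const _).indicator hGm), integral_const,
        integral_indicator hGm, setIntegral_const, probReal_univ, smul_eq_mul, smul_eq_mul, one_mul]
      ring
    rw [← e2]
    apply integral_mono hNint ((integrable_const _).add ((integrable_const _).indicator hGm))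
    intro ω
    by_cases hω : ω ∈ G
    · simp only [Pi.add_apply, Set.indicator_of_mem hω]
      have : N ω ≤ (I : ℝ) - 1 := by
        rw [hN]
        simp only
        have h1 : SCn (fun k => η k ω) s (s + n) I ≤ I - 1 := by
          unfold SCn
          refine (Finset.card_filter_le _ _).trans ?_
          rw [Nat.card_Ico]
        have h2 : ((SCn (fun k => η k ω) s (s + n) I : ℕ) : ℝ) ≤ ((I - 1 : ℕ) : ℝ) := by
          exact_mod_cast h1
        rw [Nat.cast_sub (by omega)] at h2
        push_cast at h2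
        exact h2
      have hk := kap_pos
      have : 0 ≤ kap / 2 * ((I : ℝ) - 1) := by positivity
      linarith
    · simp only [Pi.add_apply, Set.indicator_of_notMem hω]
      have : N ω < kap / 2 * ((I : ℝ) - 1) := not_le.mp hω
      linarith
  have h3 : kap * ((I : ℝ) - 1) ≤ kap / 2 * ((I : ℝ) - 1) + ((I : ℝ) - 1) * P.real G :=
    hlow.trans hup
  have h4 : kap / 2 * ((I : ℝ) - 1) ≤ P.real G * ((I : ℝ) - 1) := by linarith
  exact le_of_mul_le_mul_right h4 hI1

/-- Sign changes give zeros. -/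
theorem sc_le {F : ℝ → ℝ} (hF : Continuous F) (y : ℕ → ℝ) (hy : ∀ i, y i < y (i + 1)) (m n : ℕ)
    (hmn : m ≤ n) (hfin : ∀ a b, y m ≤ a → (Zs F a b).Finite) [DecidablePred fun i : ℕ => F (y i) * F (y (i + 1)) < 0] :
    y m ≤ y n ∧ ((Ico m n).filter (fun i => F (y i) * F (y (i + 1)) < 0)).card ≤
      (Zs F (y m) (y n)).ncard := by
  induction n, hmn using Nat.le_induction with
  | base => simp
  | succ n hmn ih =>
    obtain ⟨i1, i2⟩ := ih
    have h3 := hy n
    refine ⟨i1.trans h3.le, ?_⟩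
    have h5 := Zs_ncard_add_le (G := F) i1 h3.le (hfin _ _ le_rfl)
    have h6 : (Ico m (n + 1)).filter (fun i => F (y i) * F (y (i + 1)) < 0) =
        (Ico m n).filter (fun i => F (y i) * F (y (i + 1)) < 0) ∪
          ({n} : Finset ℕ).filter (fun i => F (y i) * F (y (i + 1)) < 0) := by
      rw [← Finset.filter_union]
      congr 1
      ext k
      rw [Finset.mem_union, Finset.mem_singleton, Finset.mem_Ico, Finset.mem_Ico]
      omega
    rw [h6]
    refine (Finset.card_union_le _ _).trans ?_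
    have h7 : (({n} : Finset ℕ).filter (fun i => F (y i) * F (y (i + 1)) < 0)).card ≤
        (Zs F (y n) (y (n + 1))).ncard := by
      by_cases hn : F (y n) * F (y (n + 1)) < 0
      · obtain ⟨x, hx1, hx2, hx⟩ := ivt hF h3 hn
        have hne : (Zs F (y n) (y (n + 1))).Nonempty := ⟨x, hx1, hx2, hx⟩
        have h8 := (Set.ncard_pos (hfin (y n) (y (n + 1)) i1)).mpr hne
        refine (Finset.card_filter_le _ _).trans ?_
        rw [Finset.card_singleton]; exact h8
      · rw [Finset.filter_singleton, if_neg hn]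
        simp
    omega

end Pool.Agent.H993R2.Kac
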