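import Pool.Agent.H993R2.Kac.Union
import Mathlib.Probability.Independence.InfinitePi

set_option autoImplicit false
set_option maxHeartbeats 1000000
set_option linter.unusedSectionVars false

/-!
The almost sure limit law fails.
-/

namespace Pool.Agent.H993R2.Kac

open MeasureTheory ProbabilityTheory Finset Filter Topology

variable {Ω : Type*} [MeasurableSpace Ω] {P : Measure Ω} {ξ : ℕ → Ω → ℝ}

theorem main_prob (h : Std ξ P) : ∃ (q C5 I0 : ℕ), 2 ≤ q ∧ ∀ I ≥ I0, ∃ M : Set Ω,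
    MeasurableSet M ∧ 3 * kap ^ 2 / 128 ≤ P.real M ∧
    ∀ ω ∈ M, ∃ n, 2 ^ (q * (5 * I)) ≤ n ∧ n + 2 ^ (5 * I) ≤ 3 * 2 ^ (q * (5 * I)) ∧
      ((pol (fun k => ξ k ω) (n + 2 ^ (5 * I))).roots.card : ℝ) + kap / 2 * ((I : ℝ) - 1) ≤
        ((pol (fun k => ξ k ω) n).roots.card : ℝ) + C5 := by
  obtain ⟨A1, A, Amid, K, q, I0, hA, hA1, hAmid, hq, hpar⟩ := params
  refine ⟨q, 2 * (K * (Ms Amid + 1)), max I0 1, hq, ?_⟩
  intro I hI
  have hI0 : I0 ≤ I := (le_max_left _ _).trans hI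
  have hI1 : 1 ≤ I := (le_max_right _ _).trans hI
  have hpos : 0 < q * (5 * I) := by positivity
  obtain ⟨J, hJ⟩ : ∃ J, J + 1 = q * (5 * I) := ⟨q * (5 * I) - 1, by omega⟩
  obtain ⟨h1, h2, h3, h4, h5, h6, h7, h8, h9⟩ := hpar I hI0 (5 * I) J rfl hJ
  have hAin : (1 : ℝ) ≤ (21 / 20) ^ (J - 5 * I) := one_le_pow₀ (by norm_num)
  obtain ⟨m, hm1, hm2⟩ := prob_union (A1 := A1) (K := K) h h2 (by omega) h1 le_rfl hA hAmid hAin
    h8 h9
  refine ⟨_, ?_, hm2, ?_⟩
  · exact Finset.measurableSet_biUnion _ fun i _ => measurableSet_Gd h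
  · intro ω hω
    rw [Set.mem_iUnion₂] at hω
    obtain ⟨i, hi, hG⟩ := hω
    rw [Finset.mem_range] at hi
    have h10 : (i + 1) * 2 ^ (5 * I) ≤ m * 2 ^ (5 * I) := Nat.mul_le_mul_right _ hi
    have h11 : (i + 1) * 2 ^ (5 * I) = i * 2 ^ (5 * I) + 2 ^ (5 * I) := by ring
    have hn1 : 2 ^ (J + 1) ≤ 2 ^ (J + 1) + i * 2 ^ (5 * I) := Nat.le_add_right _ _
    have hn2 : 2 ^ (J + 1) + i * 2 ^ (5 * I) + 2 ^ (5 * I) ≤ 3 * 2 ^ (J + 1) := by omega
    refine ⟨2 ^ (J + 1) + i * 2 ^ (5 * I), ?_, ?_, ?_⟩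
    · rw [← hJ]; exact hn1
    · rw [← hJ]; exact hn2
    · have := Gd_det hA.le hA1 hAmid hAin hn1 hn2 h3 hI1 le_rfl h4 h5 h6 h7 hG
      push_cast
      exact this

theorem not_as (h : Std ξ P) : ¬ ∀ᵐ ω ∂P, Tendsto
    (fun n : ℕ => ((pol (fun k => ξ k ω) (n + 1)).roots.card : ℝ) / Real.log n) atTop
      (𝓝 (2 / Real.pi)) := by
  intro has
  have hP := h.prob
  have hk0 := kap_pos
  have hk1 := kap_le_one
  obtain ⟨q, C5, I0, hq, hmain⟩ := main_prob h
  have hq0 : (0 : ℝ) < q := by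
    have : (2 : ℝ) ≤ q := by exact_mod_cast hq
    linarith
  set δ : ℝ := kap / (100 * q) with hδ
  have hδ0 : 0 < δ := by positivity
  set R : ℕ → Ω → ℝ := fun n ω => ((pol (fun k => ξ k ω) (n + 1)).roots.card : ℝ) with hR
  set AN : ℕ → Set Ω := fun N => {ω | ∀ n ≥ N, |R n ω / Real.log n - 2 / Real.pi| ≤ δ} with hAN
  have hmono : Monotone AN := by
    intro N N' hNN ω hω n hn
    exact hω n (hNN.trans hn)
  have hone : P (⋃ N, AN N) = 1 := by
    have h1 : (⋃ N, AN N) ∈ ae P := by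
      filter_upwards [has] with ω hω
      rw [Metric.tendsto_atTop] at hω
      obtain ⟨N, hN⟩ := hω δ hδ0
      rw [Set.mem_iUnion]
      refine ⟨N, fun n hn => ?_⟩
      have := hN n hn
      rw [Real.dist_eq] at this
      exact this.le
    have h2 : P (⋃ N, AN N) = P Set.univ := measure_congr (eventuallyEq_univ.mpr h1)
    rw [h2, measure_univ]
  have hlim := tendsto_measure_iUnion_atTop (μ := P) hmono
  rw [hone] at hlim
  set c : ENNReal := ENNReal.ofReal (3 * kap ^ 2 / 128) with hc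
  have hc0 : c ≠ 0 := by
    rw [hc, Ne, ENNReal.ofReal_eq_zero, not_le]; positivity
  have hlt : 1 - c < 1 := ENNReal.sub_lt_self ENNReal.one_ne_top one_ne_zero hc0
  have hev := hlim.eventually (lt_mem_nhds hlt)
  obtain ⟨N, hN⟩ := hev.exists
  -- choose I
  obtain ⟨I1, hI1⟩ := exists_nat_gt (5 * ((C5 : ℝ) + 2) / kap)
  set I := max (max I0 N) (max I1 2) with hI
  have hII0 : I0 ≤ I := (le_max_left _ _).trans (le_max_left _ _)
  have hIN : N ≤ I := (le_max_right _ _).trans (le_max_left _ _)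
  have hII1 : I1 ≤ I := (le_max_left _ _).trans (le_max_right _ _)
  have hI2 : 2 ≤ I := (le_max_right _ _).trans (le_max_right _ _)
  obtain ⟨M, hMm, hMc, hMd⟩ := hmain I hII0
  have hne : (M ∩ AN N).Nonempty := by
    by_contra hcon
    rw [Set.not_nonempty_iff_eq_empty] at hcon
    have h1 : AN N ⊆ Mᶜ := by
      intro ω hω hωM
      have : ω ∈ M ∩ AN N := ⟨hωM, hω⟩
      rw [hcon] at this
      exact this
    have h2 : P (AN N) ≤ 1 - P M := by
      rw [← prob_compl_eq_one_sub hMm]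
      exact measure_mono h1
    have h3 : c ≤ P M := by
      rw [hc, ENNReal.ofReal_le_iff_le_toReal (measure_ne_top _ _)]
      exact hMc
    have h4 : P (AN N) ≤ 1 - c := h2.trans (tsub_le_tsub_left h3 1)
    exact absurd hN (not_lt.mpr h4)
  obtain ⟨ω, hωM, hωA⟩ := hne
  obtain ⟨n, hn1, hn2, hroots⟩ := hMd ω hωM
  -- the two indices
  have hbig : q * (5 * I) < 2 ^ (q * (5 * I)) := Nat.lt_two_pow_self
  have hqI : 2 * (5 * I) ≤ q * (5 * I) := Nat.mul_le_mul_right _ hq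
  have hnI : I + 3 ≤ n := by omega
  have hL0 : 0 < 2 ^ (5 * I) := by positivity
  obtain ⟨n1, rfl⟩ : ∃ n1, n = n1 + 1 := ⟨n - 1, by omega⟩
  obtain ⟨n2, hn2'⟩ : ∃ n2, n1 + 1 + 2 ^ (5 * I) = n2 + 1 := ⟨n1 + 2 ^ (5 * I), by omega⟩
  rw [hn2'] at hn2 hroots
  have hA1 := hωA n1 (by omega)
  have hA2 := hωA n2 (by omega)
  have hn12 : n1 ≤ n2 := by omega
  have hn1pos : (1 : ℝ) < n1 := by
    have : 1 < n1 := by omega
    exact_mod_cast this
  have hlog1 : 0 < Real.log n1 := Real.log_pos hn1pos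
  have hlog12 : Real.log n1 ≤ Real.log n2 :=
    Real.log_le_log (by linarith) (by exact_mod_cast hn12)
  have hlog2 : 0 < Real.log n2 := lt_of_lt_of_le hlog1 hlog12
  have hup : R n1 ω ≤ (2 / Real.pi + δ) * Real.log n1 := by
    have h1 : R n1 ω / Real.log n1 ≤ 2 / Real.pi + δ := by
      have := (abs_le.mp hA1).2
      linarith
    rwa [div_le_iff₀ hlog1] at h1
  have hlow : (2 / Real.pi - δ) * Real.log n2 ≤ R n2 ω := by
    have h1 : 2 / Real.pi - δ ≤ R n2 ω / Real.log n2 := by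
      have := (abs_le.mp hA2).1
      linarith
    rwa [le_div_iff₀ hlog2] at h1
  have hpi : 0 < 2 / Real.pi := by have := Real.pi_pos; positivity
  have hdiff : R n1 ω - R n2 ω ≤ 2 * δ * Real.log n2 := by
    have h1 : (2 / Real.pi + δ) * Real.log n1 ≤ (2 / Real.pi + δ) * Real.log n2 :=
      mul_le_mul_of_nonneg_left hlog12 (by positivity)
    linarith
  have hlogub : Real.log n2 ≤ 5 * q * I + 2 := by
    have h1 : (n2 : ℝ) ≤ 2 ^ (q * (5 * I) + 2) := by
      have h2 : n2 ≤ 2 ^ (q * (5 * I) + 2) := by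
        rw [pow_add]
        omega
      exact_mod_cast h2
    have h3 : Real.log n2 ≤ Real.log (2 ^ (q * (5 * I) + 2)) :=
      Real.log_le_log (by linarith [show (n1 : ℝ) ≤ n2 by exact_mod_cast hn12]) h1
    rw [Real.log_pow] at h3
    have h4 : Real.log 2 ≤ 1 := by
      have := Real.log_le_sub_one_of_pos (show (0 : ℝ) < 2 by norm_num)
      linarith
    have h5 : ((q * (5 * I) + 2 : ℕ) : ℝ) * Real.log 2 ≤ ((q * (5 * I) + 2 : ℕ) : ℝ) * 1 :=
      mul_le_mul_of_nonneg_left h4 (by positivity)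
    push_cast at h3 h5
    linarith
  have hfin : kap / 2 * ((I : ℝ) - 1) ≤ R n1 ω - R n2 ω + C5 := by
    have : (R n2 ω : ℝ) + kap / 2 * ((I : ℝ) - 1) ≤ R n1 ω + C5 := hroots
    linarith
  have hcomb : kap / 2 * ((I : ℝ) - 1) ≤ 2 * δ * (5 * q * I + 2) + C5 := by
    have h1 : 2 * δ * Real.log n2 ≤ 2 * δ * (5 * q * I + 2) :=
      mul_le_mul_of_nonneg_left hlogub (by positivity)
    linarith
  have hδq : 2 * δ * (5 * q * I + 2) ≤ kap * I / 10 + 1 := by
    have h1 : δ * q = kap / 100 := by rw [hδ]; field_simp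
    have h2 : δ ≤ 1 / 4 := by
      rw [hδ, div_le_iff₀ (by positivity)]
      have : (2 : ℝ) ≤ q := by exact_mod_cast hq
      linarith
    calc 2 * δ * (5 * q * I + 2) = 10 * (δ * q) * I + 4 * δ := by ring
      _ = kap * I / 10 + 4 * δ := by rw [h1]; ring
      _ ≤ kap * I / 10 + 1 := by linarith
  have hIgt : 5 * ((C5 : ℝ) + 2) < kap * I := by
    have h1 : 5 * ((C5 : ℝ) + 2) / kap < I := by
      refine lt_of_lt_of_le hI1 ?_
      exact_mod_cast hII1
    rw [div_lt_iff₀ hk0] at h1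
    linarith
  have hC5 : (0 : ℝ) ≤ C5 := by positivity
  nlinarith

/-- a standard Gaussian sequence exists on `ℕ → ℝ` -/
theorem std_infinitePi : Std (fun (i : ℕ) (ω : ℕ → ℝ) => ω i)
    (Measure.infinitePi (fun _ : ℕ => gaussianReal 0 1)) where
  meas i := measurable_pi_apply i
  indep := iIndepFun_infinitePi (X := fun _ (x : ℝ) => x) (fun _ => measurable_id)
  law i := Measure.infinitePi_map_eval _ i

end Pool.Agent.H993R2.Kac
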