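import Mathlib

set_option autoImplicit false
set_option maxHeartbeats 1000000
set_option linter.unusedSectionVars false

/-!
Linear forms in i.i.d. standard Gaussian variables: small ball estimates.
-/

namespace Pool.Agent.H993R2.Kac

open MeasureTheory ProbabilityTheory Finset

variable {Ω : Type*} [MeasurableSpace Ω] {P : Measure Ω}

/-- i.i.d. standard Gaussian family. -/
structure Std (η : ℕ → Ω → ℝ) (P : Measure Ω) : Prop where
  meas : ∀ i, Measurable (η i)
  indep : iIndepFun η P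
  law : ∀ i, P.map (η i) = gaussianReal 0 1

/-- A linear form. -/
def lf (η : ℕ → Ω → ℝ) (α : ℕ → ℝ) (S : Finset ℕ) (ω : Ω) : ℝ := ∑ k ∈ S, α k * η k ω

namespace Std

variable {η : ℕ → Ω → ℝ}

theorem prob (h : Std η P) : IsProbabilityMeasure P := h.indep.isProbabilityMeasure

theorem reindex (h : Std η P) (σ : ℕ → ℕ) (hσ : Function.Injective σ) (ε : ℕ → ℝ)
    (hε : ∀ i, ε i = 1 ∨ ε i = -1) : Std (fun m ω => ε m * η (σ m) ω) P where
  meas i := (h.meas _).const_mul _
  indep := (h.indep.precomp hσ).comp (fun m x => ε m * x) (fun m => measurable_const_mul (ε m))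
  law i := by
    have h1 : P.map (fun ω => ε i * η (σ i) ω) = (P.map (η (σ i))).map (fun x => ε i * x) := by
      rw [Measure.map_map (measurable_const_mul _) (h.meas _)]; rfl
    rw [h1, h.law, gaussianReal_map_const_mul]
    rcases hε i with h2 | h2
    · rw [h2]; congr 1
      · simp
      · ext; simp
    · rw [h2]; congr 1
      · simp
      · ext; simp

theorem gauss1 (h : Std η P) (i : ℕ) : HasGaussianLaw (η i) P := by
  constructor
  rw [h.law i]; infer_instance

theorem joint (h : Std η P) (S : Finset ℕ) : HasGaussianLaw (fun ω (i : S) => η i ω) P := by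
  have h1 : iIndepFun (fun (i : S) => η i) P := h.indep.precomp Subtype.val_injective
  exact h1.hasGaussianLaw (fun i => h.gauss1 i)

theorem measurable_lf (h : Std η P) (α : ℕ → ℝ) (S : Finset ℕ) : Measurable (lf η α S) := by
  unfold lf
  apply Finset.measurable_sum
  intro k _
  exact (h.meas k).const_mul _

/-- the linear map -/
noncomputable def L (α : ℕ → ℝ) (S : Finset ℕ) : (S → ℝ) →L[ℝ] ℝ :=
  ∑ i : S, α i • ContinuousLinearMap.proj (R := ℝ) (φ := fun _ : S => ℝ) i

theorem L_apply (α : ℕ → ℝ) (S : Finset ℕ) (ω : Ω) :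
    L α S (fun i : S => η i ω) = lf η α S ω := by
  unfold L lf
  rw [_root_.sum_apply, ← Finset.sum_coe_sort S]
  apply Finset.sum_congr rfl
  intro i _
  simp

theorem gauss_pair (h : Std η P) (α β : ℕ → ℝ) (S : Finset ℕ) :
    HasGaussianLaw (fun ω => (lf η α S ω, lf η β S ω)) P := by
  have h1 := (h.joint S).map_fun ((L α S).prod (L β S))
  simp only [ContinuousLinearMap.prod_apply, L_apply] at h1
  exact h1

theorem gauss_lf (h : Std η P) (α : ℕ → ℝ) (S : Finset ℕ) : HasGaussianLaw (lf η α S) P :=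
  (h.gauss_pair α α S).fst

theorem memLp (h : Std η P) (i : ℕ) : MemLp (η i) 2 P := (h.gauss1 i).memLp_two

theorem integral_eta (h : Std η P) (i : ℕ) : ∫ ω, η i ω ∂P = 0 := by
  have h1 : ∫ ω, η i ω ∂P = ∫ x, x ∂(P.map (η i)) :=
    (integral_map (h.meas i).aemeasurable aestronglyMeasurable_id).symm
  rw [h1, h.law, integral_id_gaussianReal]

theorem var_eta (h : Std η P) (i : ℕ) : Var[η i; P] = 1 := by
  have h2 : Var[fun x => x; P.map (η i)] = Var[η i; P] := by
    rw [variance_map (by fun_prop) (h.meas i).aemeasurable]; rfl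
  rw [← h2, h.law, variance_fun_id_gaussianReal]
  simp

theorem cov_eta (h : Std η P) (i j : ℕ) : cov[η i, η j; P] = if i = j then 1 else 0 := by
  have := h.prob
  split_ifs with hij
  · subst hij
    rw [covariance_self (h.meas i).aemeasurable, h.var_eta]
  · exact (h.indep.indepFun hij).covariance_eq_zero (h.memLp i) (h.memLp j)

theorem cov_lf (h : Std η P) (α β : ℕ → ℝ) (S : Finset ℕ) :
    cov[lf η α S, lf η β S; P] = ∑ k ∈ S, α k * β k := by
  have := h.prob
  unfold lf
  rw [covariance_fun_sum_fun_sum' (fun i _ => (h.memLp i).const_mul _)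
    (fun i _ => (h.memLp i).const_mul _)]
  apply Finset.sum_congr rfl
  intro i hi
  have h1 : ∀ j ∈ S, cov[fun ω => α i * η i ω, fun ω => β j * η j ω; P] =
      if i = j then α i * β j else 0 := by
    intro j _
    rw [covariance_const_mul_left, covariance_const_mul_right, h.cov_eta]
    split_ifs <;> ring
  rw [Finset.sum_congr rfl h1, Finset.sum_ite_eq]
  simp [hi]

theorem integral_lf (h : Std η P) (α : ℕ → ℝ) (S : Finset ℕ) : ∫ ω, lf η α S ω ∂P = 0 := by
  have := h.prob
  unfold lf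
  rw [integral_finsetSum _ (fun i _ => ((h.memLp i).integrable (by norm_num)).const_mul _)]
  apply Finset.sum_eq_zero
  intro i _
  rw [integral_const_mul, h.integral_eta, mul_zero]

theorem law_lf (h : Std η P) (α : ℕ → ℝ) (S : Finset ℕ) :
    P.map (lf η α S) = gaussianReal 0 (∑ k ∈ S, α k ^ 2).toNNReal := by
  have := h.prob
  rw [(h.gauss_lf α S).map_eq_gaussianReal, h.integral_lf,
    ← covariance_self (h.measurable_lf α S).aemeasurable, h.cov_lf]
  congr 2
  apply Finset.sum_congr rfl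
  intro i _
  ring

theorem indep_lf (h : Std η P) (α β : ℕ → ℝ) (S : Finset ℕ) (hab : ∑ k ∈ S, α k * β k = 0) :
    IndepFun (lf η α S) (lf η β S) P :=
  (h.gauss_pair α β S).indepFun_of_covariance_eq_zero (by rw [h.cov_lf, hab])

end Std

/-! ### Small balls -/

theorem gaussian_small_ball {v : NNReal} (hv : v ≠ 0) (u a : ℝ) (ha : 0 ≤ a) :
    (gaussianReal 0 v).real {x | |x - u| ≤ a} ≤ a / Real.sqrt v := by
  have hset : {x : ℝ | |x - u| ≤ a} = Set.Icc (u - a) (u + a) := by
    ext x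
    rw [Set.mem_Icc]
    show |x - u| ≤ a ↔ _
    rw [abs_le]
    constructor
    · rintro ⟨h1, h2⟩; constructor <;> linarith
    · rintro ⟨h1, h2⟩; constructor <;> linarith
  have hv' : (0 : ℝ) < v := by positivity
  have hsv : 0 < Real.sqrt v := Real.sqrt_pos.mpr hv'
  have hpi : 2 ≤ Real.sqrt (2 * Real.pi) := by
    rw [show (2 : ℝ) = Real.sqrt 4 by
      rw [show (4 : ℝ) = 2 ^ 2 by norm_num, Real.sqrt_sq (by norm_num)]]
    apply Real.sqrt_le_sqrt
    rw [show Real.sqrt 4 = 2 by
      rw [show (4 : ℝ) = 2 ^ 2 by norm_num, Real.sqrt_sq (by norm_num)]]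
    have := Real.pi_gt_three
    linarith
  rw [Measure.real, gaussianReal_apply_eq_integral _ hv]
  rw [hset]
  have hbound : ∀ x, gaussianPDFReal 0 v x ≤ 1 / (2 * Real.sqrt v) := by
    intro x
    unfold gaussianPDFReal
    have h1 : Real.exp (-(x - 0) ^ 2 / (2 * v)) ≤ 1 := by
      rw [Real.exp_le_one_iff]
      apply div_nonpos_of_nonpos_of_nonneg
      · have := sq_nonneg (x - 0); linarith
      · positivity
    have h2 : (Real.sqrt (2 * Real.pi * v))⁻¹ ≤ 1 / (2 * Real.sqrt v) := by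
      rw [Real.sqrt_mul (by positivity), ← one_div]
      apply one_div_le_one_div_of_le (by positivity)
      nlinarith
    calc _ ≤ (Real.sqrt (2 * Real.pi * v))⁻¹ * 1 := by
          apply mul_le_mul_of_nonneg_left h1; positivity
      _ ≤ _ := by rw [mul_one]; exact h2
  rw [ENNReal.toReal_ofReal (setIntegral_nonneg measurableSet_Icc
    (fun x _ => gaussianPDFReal_nonneg _ _ _))]
  calc ∫ x in Set.Icc (u - a) (u + a), gaussianPDFReal 0 v x
      ≤ ∫ x in Set.Icc (u - a) (u + a), 1 / (2 * Real.sqrt v) := by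
        apply setIntegral_mono (integrable_gaussianPDFReal _ _).integrableOn
        · exact continuousOn_const.integrableOn_Icc
        · exact hbound
    _ = a / Real.sqrt v := by
        rw [setIntegral_const, Measure.real, Real.volume_Icc, smul_eq_mul,
          ENNReal.toReal_ofReal (by linarith)]
        field_simp
        ring

/-- Fubini bound. -/
theorem fubini_bound [IsProbabilityMeasure P] {𝓧 𝓨 : Type*} [MeasurableSpace 𝓧]
    [MeasurableSpace 𝓨] {X : Ω → 𝓧} {Y : Ω → 𝓨} (hX : Measurable X) (hY : Measurable Y)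
    (h : IndepFun X Y P) {E : Set 𝓧} (hE : MeasurableSet E) {C : Set (𝓧 × 𝓨)}
    (hC : MeasurableSet C) {c : ℝ} (hc0 : 0 ≤ c)
    (hc : ∀ x ∈ E, P.real {ω | (x, Y ω) ∈ C} ≤ c) :
    P.real {ω | X ω ∈ E ∧ (X ω, Y ω) ∈ C} ≤ c * P.real {ω | X ω ∈ E} := by
  have hmap : P.map (fun ω => (X ω, Y ω)) = (P.map X).prod (P.map Y) :=
    (indepFun_iff_map_prod_eq_prod_map_map hX.aemeasurable hY.aemeasurable).mp h
  have hD : MeasurableSet ((Prod.fst ⁻¹' E) ∩ C) := (measurable_fst hE).inter hC
  have h1 : P {ω | X ω ∈ E ∧ (X ω, Y ω) ∈ C} = ((P.map X).prod (P.map Y)) ((Prod.fst ⁻¹' E) ∩ C) := by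
    rw [← hmap, Measure.map_apply (hX.prodMk hY) hD]
    rfl
  have h2 : P {ω | X ω ∈ E} = P.map X E := by
    rw [Measure.map_apply hX hE]; rfl
  have hpX : IsProbabilityMeasure (P.map X) := Measure.isProbabilityMeasure_map hX.aemeasurable
  have hpY : IsProbabilityMeasure (P.map Y) := Measure.isProbabilityMeasure_map hY.aemeasurable
  have h3 : P {ω | X ω ∈ E ∧ (X ω, Y ω) ∈ C} ≤ ENNReal.ofReal c * P {ω | X ω ∈ E} := by
    rw [h1, h2, Measure.prod_apply hD]
    calc ∫⁻ x, (P.map Y) (Prod.mk x ⁻¹' ((Prod.fst ⁻¹' E) ∩ C)) ∂(P.map X)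
        ≤ ∫⁻ x, E.indicator (fun _ => ENNReal.ofReal c) x ∂(P.map X) := by
          apply lintegral_mono
          intro x
          by_cases hx : x ∈ E
          · rw [Set.indicator_of_mem hx]
            have h4 : Prod.mk x ⁻¹' ((Prod.fst ⁻¹' E) ∩ C) = Prod.mk x ⁻¹' C := by
              ext y
              simp [hx]
            show (P.map Y) (Prod.mk x ⁻¹' ((Prod.fst ⁻¹' E) ∩ C)) ≤ _
            rw [h4, Measure.map_apply hY (measurable_prodMk_left hC)]
            have h5 := hc x hx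
            rw [Measure.real] at h5
            exact ENNReal.le_ofReal_iff_toReal_le (measure_ne_top _ _) hc0 |>.mpr h5
          · rw [Set.indicator_of_notMem hx]
            have h4 : Prod.mk x ⁻¹' ((Prod.fst ⁻¹' E) ∩ C) = ∅ := by
              ext y
              simp [hx]
            show (P.map Y) (Prod.mk x ⁻¹' ((Prod.fst ⁻¹' E) ∩ C)) ≤ _
            rw [h4]; simp
      _ = ENNReal.ofReal c * P.map X E := by
          rw [lintegral_indicator hE, setLIntegral_const]
  rw [Measure.real, Measure.real]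
  calc _ ≤ (ENNReal.ofReal c * P {ω | X ω ∈ E}).toReal :=
        ENNReal.toReal_mono (ENNReal.mul_ne_top ENNReal.ofReal_ne_top (measure_ne_top _ _)) h3
    _ = _ := by rw [ENNReal.toReal_mul, ENNReal.toReal_ofReal hc0]

namespace Std

variable {η : ℕ → Ω → ℝ}

theorem small_ball (h : Std η P) (α : ℕ → ℝ) (S : Finset ℕ) {v : ℝ} (hv0 : 0 < v)
    (hv : v ≤ ∑ k ∈ S, α k ^ 2) (u a : ℝ) (ha : 0 ≤ a) :
    P.real {ω | |lf η α S ω - u| ≤ a} ≤ a / Real.sqrt v := by
  have hset : MeasurableSet {x : ℝ | |x - u| ≤ a} :=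
    measurableSet_le (by fun_prop) (by fun_prop)
  have h1 : P.real {ω | |lf η α S ω - u| ≤ a} = (P.map (lf η α S)).real {x | |x - u| ≤ a} := by
    rw [Measure.real, Measure.real, Measure.map_apply (h.measurable_lf α S) hset]
    rfl
  have hpos : 0 < ∑ k ∈ S, α k ^ 2 := lt_of_lt_of_le hv0 hv
  rw [h1, h.law_lf]
  refine (gaussian_small_ball (by simpa using hpos) u a ha).trans ?_
  rw [Real.coe_toNNReal _ hpos.le]
  exact div_le_div_of_nonneg_left ha (Real.sqrt_pos.mpr hv0) (Real.sqrt_le_sqrt hv)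

/-- Two-dimensional small ball estimate. -/
theorem small_ball2 (h : Std η P) (α β : ℕ → ℝ) (S : Finset ℕ) {v w : ℝ} (hv0 : 0 < v)
    (hw0 : 0 < w) (hv : v ≤ ∑ k ∈ S, α k ^ 2)
    (hw : ∀ t : ℝ, w ≤ ∑ k ∈ S, (β k - t * α k) ^ 2) (u u' a b : ℝ) (ha : 0 ≤ a) (hb : 0 ≤ b) :
    P.real {ω | |lf η α S ω - u| ≤ a ∧ |lf η β S ω - u'| ≤ b} ≤
      (a / Real.sqrt v) * (b / Real.sqrt w) := by
  have := h.prob
  have hpos : 0 < ∑ k ∈ S, α k ^ 2 := lt_of_lt_of_le hv0 hv
  set t : ℝ := (∑ k ∈ S, α k * β k) / ∑ k ∈ S, α k ^ 2 with ht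
  set γ : ℕ → ℝ := fun k => β k - t * α k with hγ
  have horth : ∑ k ∈ S, α k * γ k = 0 := by
    have : ∀ k ∈ S, α k * γ k = α k * β k - t * α k ^ 2 := by
      intro k _; rw [hγ]; ring
    rw [Finset.sum_congr rfl this, Finset.sum_sub_distrib, ← Finset.mul_sum, ht]
    field_simp
    ring
  have hind := h.indep_lf α γ S horth
  have hdec : ∀ ω, lf η β S ω = lf η γ S ω + t * lf η α S ω := by
    intro ω
    unfold lf
    rw [Finset.mul_sum, ← Finset.sum_add_distrib]
    apply Finset.sum_congr rfl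
    intro k _
    rw [hγ]; ring
  have hE : MeasurableSet {x : ℝ | |x - u| ≤ a} :=
    measurableSet_le (by fun_prop) (by fun_prop)
  have hC : MeasurableSet {p : ℝ × ℝ | |p.2 + t * p.1 - u'| ≤ b} :=
    measurableSet_le (by fun_prop) (by fun_prop)
  have hfub := fubini_bound (h.measurable_lf α S) (h.measurable_lf γ S) hind hE hC
    (c := b / Real.sqrt w) (by positivity) (by
      intro x _
      have h2 := h.small_ball γ S hw0 (hw t) (u' - t * x) b hb
      refine le_trans (le_of_eq ?_) h2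
      congr 1
      ext ω
      show |lf η γ S ω + t * x - u'| ≤ b ↔ |lf η γ S ω - (u' - t * x)| ≤ b
      rw [show lf η γ S ω + t * x - u' = lf η γ S ω - (u' - t * x) by ring])
  have h3 := h.small_ball α S hv0 hv u a ha
  have h4 : {ω | |lf η α S ω - u| ≤ a ∧ |lf η β S ω - u'| ≤ b} =
      {ω | lf η α S ω ∈ {x : ℝ | |x - u| ≤ a} ∧
        (lf η α S ω, lf η γ S ω) ∈ {p : ℝ × ℝ | |p.2 + t * p.1 - u'| ≤ b}} := by
    ext ω
    show (_ ∧ |lf η β S ω - u'| ≤ b) ↔ (_ ∧ |lf η γ S ω + t * lf η α S ω - u'| ≤ b)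
    rw [hdec ω]
    rfl
  rw [h4]
  refine hfub.trans ?_
  rw [mul_comm]
  exact mul_le_mul_of_nonneg_right h3 (by positivity)

end Std

end Pool.Agent.H993R2.Kac
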