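import Pool.Agent.H993R2.Kac.Gauss

set_option autoImplicit false
set_option maxHeartbeats 1000000
set_option linter.unusedSectionVars false

/-!
Kolmogorov's maximal inequality for weighted sums of i.i.d. Gaussians.
-/

namespace Pool.Agent.H993R2.Kac

open MeasureTheory ProbabilityTheory Finset

variable {Ω : Type*} [MeasurableSpace Ω] {P : Measure Ω}

/-- Extension by zero. -/
def ex (S : Finset ℕ) (x : S → ℝ) (k : ℕ) : ℝ := if h : k ∈ S then x ⟨k, h⟩ else 0

theorem measurable_ex (S : Finset ℕ) (k : ℕ) : Measurable (fun x : S → ℝ => ex S x k) := by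
  unfold ex
  split_ifs with h
  · exact measurable_pi_apply _
  · exact measurable_const

theorem ex_of_mem {S : Finset ℕ} {x : S → ℝ} {k : ℕ} (h : k ∈ S) : ex S x k = x ⟨k, h⟩ := by
  unfold ex; rw [dif_pos h]

theorem ex_of_notMem {S : Finset ℕ} {x : S → ℝ} {k : ℕ} (h : k ∉ S) : ex S x k = 0 := by
  unfold ex; rw [dif_neg h]

namespace Std

variable {η : ℕ → Ω → ℝ}

theorem integrable_mul_lf (h : Std η P) (α β : ℕ → ℝ) (S T : Finset ℕ) :
    Integrable (fun ω => lf η α S ω * lf η β T ω) P :=
  (h.gauss_lf α S).memLp_two.integrable_mul (h.gauss_lf β T).memLp_two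

theorem integral_sq_lf (h : Std η P) (α : ℕ → ℝ) (S : Finset ℕ) :
    ∫ ω, lf η α S ω ^ 2 ∂P = ∑ k ∈ S, α k ^ 2 := by
  have := h.prob
  have h1 := h.cov_lf α α S
  unfold covariance at h1
  rw [h.integral_lf] at h1
  simp only [sub_zero] at h1
  have h2 : ∫ ω, lf η α S ω ^ 2 ∂P = ∫ ω, lf η α S ω * lf η α S ω ∂P := by
    congr 1; ext ω; ring
  rw [h2, h1]
  apply Finset.sum_congr rfl
  intro k _; ring

/-- Kolmogorov's maximal inequality. -/
theorem kolm (h : Std η P) (c : ℕ → ℝ) (s T : ℕ) {lam : ℝ} (hl : 0 < lam) :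
    P.real {ω | ∃ m, s ≤ m ∧ m ≤ T ∧ lam ≤ |lf η c (Ico s m) ω|} ≤
      (∑ k ∈ Ico s T, c k ^ 2) / lam ^ 2 := by
  classical
  have hP := h.prob
  set A : ℕ → Set Ω := fun m => {ω | lam ≤ |lf η c (Ico s m) ω|} ∩
    ⋂ j ∈ Ico s m, {ω | |lf η c (Ico s j) ω| < lam} with hA
  have hAm : ∀ m, MeasurableSet (A m) := by
    intro m
    apply MeasurableSet.inter
    · exact measurableSet_le measurable_const (h.measurable_lf c _).abs
    · apply Finset.measurableSet_biInter
      intro j _
      exact measurableSet_lt (h.measurable_lf c _).abs measurable_const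
  have hAdisj : ∀ m m' ω, m < m' → s ≤ m → ω ∈ A m → ω ∈ A m' → False := by
    intro m m' ω hlt hs h1 h2
    have h3 : ω ∈ ⋂ j ∈ Ico s m', {ω | |lf η c (Ico s j) ω| < lam} := h2.2
    rw [Set.mem_iInter₂] at h3
    have h4 : |lf η c (Ico s m) ω| < lam := h3 m (Finset.mem_Ico.mpr ⟨hs, hlt⟩)
    have h5 : lam ≤ |lf η c (Ico s m) ω| := h1.1
    linarith
  have hcover : {ω | ∃ m, s ≤ m ∧ m ≤ T ∧ lam ≤ |lf η c (Ico s m) ω|} ⊆
      ⋃ m ∈ Icc s T, A m := by
    rintro ω ⟨m, hm1, hm2, hm3⟩
    have hex : ∃ m, s ≤ m ∧ m ≤ T ∧ lam ≤ |lf η c (Ico s m) ω| := ⟨m, hm1, hm2, hm3⟩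
    rw [Set.mem_iUnion₂]
    refine ⟨Nat.find hex, ?_, ?_⟩
    · have := Nat.find_spec hex
      exact Finset.mem_Icc.mpr ⟨this.1, this.2.1⟩
    · have hs := Nat.find_spec hex
      refine ⟨hs.2.2, ?_⟩
      rw [Set.mem_iInter₂]
      intro j hj
      rw [Finset.mem_Ico] at hj
      have hmin := Nat.find_min hex hj.2
      by_contra hcon
      have hcon' : lam ≤ |lf η c (Ico s j) ω| := not_lt.mp hcon
      exact hmin ⟨hj.1, by omega, hcon'⟩
  -- the key inequality for each `m`
  have hkey : ∀ m ∈ Icc s T, lam ^ 2 * P.real (A m) ≤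
      ∫ ω, (A m).indicator (fun ω => lf η c (Ico s T) ω ^ 2) ω ∂P := by
    intro m hm
    rw [Finset.mem_Icc] at hm
    set Sm : Ω → ℝ := lf η c (Ico s m) with hSm
    set R : Ω → ℝ := lf η c (Ico m T) with hR
    have hST : ∀ ω, lf η c (Ico s T) ω = Sm ω + R ω := by
      intro ω
      rw [hSm, hR]
      unfold lf
      rw [Finset.sum_Ico_consecutive _ hm.1 hm.2]
    -- independence
    have hind := h.indep.indepFun_finset (Ico s m) (Ico m T)
      (Finset.Ico_disjoint_Ico_consecutive s m T) h.meas
    set φ : (Ico s m → ℝ) → ℝ := fun x =>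
      if (lam ≤ |∑ k ∈ Ico s m, c k * ex (Ico s m) x k| ∧
        ∀ j ∈ Ico s m, |∑ k ∈ Ico s j, c k * ex (Ico s m) x k| < lam) then
        ∑ k ∈ Ico s m, c k * ex (Ico s m) x k else 0 with hφ
    set ψ : (Ico m T → ℝ) → ℝ := fun x => ∑ k ∈ Ico m T, c k * ex (Ico m T) x k with hψ
    have hmeasS : ∀ j, Measurable (fun x : Ico s m → ℝ => ∑ k ∈ Ico s j, c k * ex (Ico s m) x k) := by
      intro j
      apply Finset.measurable_sum
      intro k _
      exact (measurable_ex _ _).const_mul _
    have hφm : Measurable φ := by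
      have hset : {x : Ico s m → ℝ | lam ≤ |∑ k ∈ Ico s m, c k * ex (Ico s m) x k| ∧
          ∀ j ∈ Ico s m, |∑ k ∈ Ico s j, c k * ex (Ico s m) x k| < lam} =
          {x | lam ≤ |∑ k ∈ Ico s m, c k * ex (Ico s m) x k|} ∩
            ⋂ j ∈ Ico s m, {x | |∑ k ∈ Ico s j, c k * ex (Ico s m) x k| < lam} := by
        ext x
        rw [Set.mem_inter_iff, Set.mem_iInter₂]
        rfl
      have hset' : MeasurableSet {x : Ico s m → ℝ | lam ≤ |∑ k ∈ Ico s m, c k * ex (Ico s m) x k| ∧
          ∀ j ∈ Ico s m, |∑ k ∈ Ico s j, c k * ex (Ico s m) x k| < lam} := by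
        rw [hset]
        apply MeasurableSet.inter
        · exact measurableSet_le measurable_const (hmeasS m).abs
        · apply Finset.measurableSet_biInter
          intro j _
          exact measurableSet_lt (hmeasS j).abs measurable_const
      apply Measurable.ite
      · exact hset'
      · exact hmeasS m
      · exact measurable_const
    have hψm : Measurable ψ := by
      apply Finset.measurable_sum
      intro k _
      exact (measurable_ex _ _).const_mul _
    have hX : Measurable (fun ω (i : Ico s m) => η i ω) :=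
      measurable_pi_lambda _ fun i => h.meas i
    have hY : Measurable (fun ω (i : Ico m T) => η i ω) :=
      measurable_pi_lambda _ fun i => h.meas i
    have hφeq : ∀ ω, φ (fun i : Ico s m => η i ω) = (A m).indicator Sm ω := by
      intro ω
      have e1 : ∀ j, j ≤ m → ∑ k ∈ Ico s j, c k * ex (Ico s m) (fun i : Ico s m => η i ω) k =
          lf η c (Ico s j) ω := by
        intro j hj
        unfold lf
        apply Finset.sum_congr rfl
        intro k hk
        rw [Finset.mem_Ico] at hk
        rw [ex_of_mem (Finset.mem_Ico.mpr ⟨hk.1, by omega⟩)]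
      rw [hφ]
      simp only
      rw [e1 m le_rfl]
      by_cases hω : ω ∈ A m
      · rw [Set.indicator_of_mem hω, if_pos]
        refine ⟨hω.1, fun j hj => ?_⟩
        have h3 : ω ∈ ⋂ j ∈ Ico s m, {ω | |lf η c (Ico s j) ω| < lam} := hω.2
        rw [Set.mem_iInter₂] at h3
        rw [e1 j (by rw [Finset.mem_Ico] at hj; omega)]
        exact h3 j hj
      · rw [Set.indicator_of_notMem hω, if_neg]
        rintro ⟨h1, h2⟩
        apply hω
        refine ⟨h1, ?_⟩
        rw [Set.mem_iInter₂]
        intro j hj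
        have := h2 j hj
        rw [e1 j (by rw [Finset.mem_Ico] at hj; omega)] at this
        exact this
    have hψeq : ∀ ω, ψ (fun i : Ico m T => η i ω) = R ω := by
      intro ω
      rw [hψ, hR]
      unfold lf
      simp only
      apply Finset.sum_congr rfl
      intro k hk
      rw [ex_of_mem hk]
    have hcross : ∫ ω, (A m).indicator Sm ω * R ω ∂P = 0 := by
      have h1 := hind.integral_fun_comp_mul_comp (f := φ) (g := ψ) hX.aemeasurable hY.aemeasurable
        hφm.aestronglyMeasurable hψm.aestronglyMeasurable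
      simp only [hφeq, hψeq] at h1
      rw [h1]
      have : ∫ ω, R ω ∂P = 0 := h.integral_lf c _
      rw [this, mul_zero]
    have hi1 : Integrable (fun ω => (A m).indicator (fun ω => Sm ω ^ 2) ω) P := by
      apply Integrable.indicator _ (hAm m)
      have := h.integrable_mul_lf c c (Ico s m) (Ico s m)
      refine this.congr (Filter.Eventually.of_forall fun ω => ?_)
      show Sm ω * Sm ω = Sm ω ^ 2
      ring
    have hi2 : Integrable (fun ω => (A m).indicator Sm ω * R ω) P := by
      have h1 := (h.integrable_mul_lf c c (Ico s m) (Ico m T)).indicator (hAm m)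
      refine h1.congr (Filter.Eventually.of_forall fun ω => ?_)
      by_cases hω : ω ∈ A m
      · simp only [Set.indicator_of_mem hω]; rfl
      · simp only [Set.indicator_of_notMem hω, zero_mul]
    have hi3 : Integrable (fun ω => (A m).indicator (fun ω => lf η c (Ico s T) ω ^ 2) ω) P := by
      apply Integrable.indicator _ (hAm m)
      have := h.integrable_mul_lf c c (Ico s T) (Ico s T)
      refine this.congr (Filter.Eventually.of_forall fun ω => ?_)
      show lf η c (Ico s T) ω * lf η c (Ico s T) ω = lf η c (Ico s T) ω ^ 2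
      ring
    calc lam ^ 2 * P.real (A m) = ∫ ω, (A m).indicator (fun _ => lam ^ 2) ω ∂P := by
          rw [integral_indicator (hAm m), setIntegral_const, smul_eq_mul, mul_comm]
      _ ≤ ∫ ω, (A m).indicator (fun ω => Sm ω ^ 2) ω ∂P := by
          apply integral_mono _ hi1
          · intro ω
            by_cases hω : ω ∈ A m
            · rw [Set.indicator_of_mem hω]
              show lam ^ 2 ≤ (A m).indicator (fun ω => Sm ω ^ 2) ω
              rw [Set.indicator_of_mem hω]
              have h1 : lam ≤ |Sm ω| := hω.1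
              rw [← sq_abs (Sm ω)]
              exact pow_le_pow_left₀ hl.le h1 2
            · rw [Set.indicator_of_notMem hω]
              show 0 ≤ (A m).indicator (fun ω => Sm ω ^ 2) ω
              rw [Set.indicator_of_notMem hω]
          · exact (integrable_const _).indicator (hAm m)
      _ = ∫ ω, ((A m).indicator (fun ω => Sm ω ^ 2) ω + 2 * ((A m).indicator Sm ω * R ω)) ∂P := by
          rw [integral_add hi1 (hi2.const_mul 2), integral_const_mul, hcross]
          ring
      _ ≤ ∫ ω, (A m).indicator (fun ω => lf η c (Ico s T) ω ^ 2) ω ∂P := by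
          apply integral_mono (hi1.add (hi2.const_mul 2)) hi3
          intro ω
          by_cases hω : ω ∈ A m
          · simp only [Pi.add_apply, Set.indicator_of_mem hω]
            rw [hST]
            have := sq_nonneg (R ω)
            nlinarith
          · simp only [Pi.add_apply, Set.indicator_of_notMem hω]
            simp
  have hi3 : ∀ m ∈ Icc s T,
      Integrable (fun ω => (A m).indicator (fun ω => lf η c (Ico s T) ω ^ 2) ω) P := by
    intro m _
    apply Integrable.indicator _ (hAm m)
    have := h.integrable_mul_lf c c (Ico s T) (Ico s T)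
    refine this.congr (Filter.Eventually.of_forall fun ω => ?_)
    show lf η c (Ico s T) ω * lf η c (Ico s T) ω = lf η c (Ico s T) ω ^ 2
    ring
  have hsum : ∑ m ∈ Icc s T, ∫ ω, (A m).indicator (fun ω => lf η c (Ico s T) ω ^ 2) ω ∂P ≤
      ∑ k ∈ Ico s T, c k ^ 2 := by
    rw [← integral_finsetSum _ hi3, ← h.integral_sq_lf c (Ico s T)]
    apply integral_mono (integrable_finsetSum _ hi3)
    · have := h.integrable_mul_lf c c (Ico s T) (Ico s T)
      refine this.congr (Filter.Eventually.of_forall fun ω => ?_)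
      show lf η c (Ico s T) ω * lf η c (Ico s T) ω = lf η c (Ico s T) ω ^ 2
      ring
    · intro ω
      show ∑ m ∈ Icc s T, (A m).indicator (fun ω => lf η c (Ico s T) ω ^ 2) ω ≤
        lf η c (Ico s T) ω ^ 2
      by_cases hex : ∃ m ∈ Icc s T, ω ∈ A m
      · obtain ⟨m, hm, hω⟩ := hex
        rw [Finset.sum_eq_single_of_mem m hm]
        · rw [Set.indicator_of_mem hω]
        · intro m' hm' hne
          apply Set.indicator_of_notMem
          intro hω'
          rw [Finset.mem_Icc] at hm hm'
          rcases lt_or_gt_of_ne hne with hlt | hlt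
          · exact hAdisj m' m ω hlt hm'.1 hω' hω
          · exact hAdisj m m' ω hlt hm.1 hω hω'
      · push Not at hex
        rw [Finset.sum_eq_zero]
        · positivity
        · intro m hm
          exact Set.indicator_of_notMem (hex m hm) _
  rw [le_div_iff₀ (by positivity)]
  calc P.real {ω | ∃ m, s ≤ m ∧ m ≤ T ∧ lam ≤ |lf η c (Ico s m) ω|} * lam ^ 2
      ≤ P.real (⋃ m ∈ Icc s T, A m) * lam ^ 2 := by
        apply mul_le_mul_of_nonneg_right (measureReal_mono hcover (measure_ne_top _ _)) (by positivity)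
    _ ≤ (∑ m ∈ Icc s T, P.real (A m)) * lam ^ 2 := by
        apply mul_le_mul_of_nonneg_right (measureReal_biUnion_finset_le _ _) (by positivity)
    _ = ∑ m ∈ Icc s T, lam ^ 2 * P.real (A m) := by
        rw [Finset.sum_mul]
        apply Finset.sum_congr rfl
        intro m _; ring
    _ ≤ ∑ m ∈ Icc s T, ∫ ω, (A m).indicator (fun ω => lf η c (Ico s T) ω ^ 2) ω ∂P :=
        Finset.sum_le_sum hkey
    _ ≤ _ := hsum

end Std

end Pool.Agent.H993R2.Kac
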