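import Pool.Agent.H993R2.Kac.Roots

set_option autoImplicit false
set_option maxHeartbeats 1000000

/-!
The deterministic comparison of the numbers of roots.
-/

namespace Pool.Agent.H993R2.Kac

open Finset

/-- window endpoints -/
noncomputable def pt (J i : ℕ) : ℝ := if i ≤ J then 1 - (1 / 2) ^ i else 1

theorem pt_zero (J : ℕ) : pt J 0 = 0 := by simp [pt]

theorem pt_last (J : ℕ) : pt J (J + 1) = 1 := by simp [pt]

theorem pt_of_le {J i : ℕ} (hi : i ≤ J) : pt J i = 1 - (1 / 2) ^ i := if_pos hi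

theorem pt_nonneg (J i : ℕ) : 0 ≤ pt J i := by
  unfold pt
  split_ifs
  · have : ((1 : ℝ) / 2) ^ i ≤ 1 := pow_le_one₀ (by norm_num) (by norm_num)
    linarith
  · norm_num

theorem pt_le_one (J i : ℕ) : pt J i ≤ 1 := by
  unfold pt
  split_ifs
  · have : (0 : ℝ) < (1 / 2) ^ i := by positivity
    linarith
  · norm_num

theorem pt_ge (J i : ℕ) : 1 - (1 / 2) ^ i ≤ pt J i := by
  unfold pt
  split_ifs
  · exact le_rfl
  · have : (0 : ℝ) < (1 / 2) ^ i := by positivity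
    linarith

theorem pt_lt {J i : ℕ} (hi : i ≤ J) : pt J i < pt J (i + 1) := by
  rw [pt_of_le hi]
  unfold pt
  have : (0 : ℝ) < (1 / 2) ^ i := by positivity
  split_ifs
  · rw [pow_succ]; linarith
  · linarith

theorem pt_len {J i : ℕ} (hi : i ≤ J) : (pt J (i + 1) - pt J i) * rr i ≤ 1 := by
  have h1 := pt_le_one J (i + 1)
  rw [pt_of_le hi]
  have h2 : ((1 : ℝ) / 2) ^ i * rr i = 1 := by
    unfold rr
    rw [← mul_pow]; norm_num
  have h3 : (pt J (i + 1) - (1 - (1 / 2) ^ i)) ≤ (1 / 2) ^ i := by linarith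
  calc _ ≤ ((1 : ℝ) / 2) ^ i * rr i := mul_le_mul_of_nonneg_right h3 (rr_pos i).le
    _ = 1 := h2

theorem pt_cover (J m n : ℕ) (x : ℝ) (hmn : m ≤ n) (h1 : pt J m ≤ x) (h2 : x < pt J n) :
    ∃ j, m ≤ j ∧ j < n ∧ pt J j ≤ x ∧ x ≤ pt J (j + 1) := by
  induction n, hmn using Nat.le_induction with
  | base => linarith
  | succ n hmn ih =>
    by_cases h : x < pt J n
    · obtain ⟨j, h3, h4, h5, h6⟩ := ih h
      exact ⟨j, h3, by omega, h5, h6⟩
    · push Not at h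
      exact ⟨n, hmn, Nat.lt_succ_self n, h, h2.le⟩

theorem sg_mono {i j : ℕ} (h : i ≤ j) : sg i ≤ sg j := by
  unfold sg
  exact pow_le_pow_right₀ (by have := sqrt2_lo; linarith) h

theorem rr_mono {i j : ℕ} (h : i ≤ j) : rr i ≤ rr j := by
  unfold rr
  exact pow_le_pow_right₀ (by norm_num) h

/-- everything about a good window -/
theorem win_all {j : ℕ} {u v A : ℝ} {s t : ℕ} {D0 D1 D2 : ℝ → ℝ} {c : ℕ → ℝ} {G G1 G2 : ℝ → ℝ}
    (hGe : ∀ x, G x = D0 x + E0 c s t x) (hG1e : ∀ x, G1 x = D1 x + E1 c s t x)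
    (hG2e : ∀ x, G2 x = D2 x + E2 c s t x)
    (hG : ∀ x, HasDerivAt G (G1 x) x) (hG1 : ∀ x, HasDerivAt G1 (G2 x) x)
    (hD0 : ∀ x, HasDerivAt D0 (D1 x) x) (hD1 : ∀ x, HasDerivAt D1 (D2 x) x)
    (hst : s ≤ t) (hu : 0 ≤ u) (huv : u < v) (hlen : (v - u) * rr j ≤ 1) (hA : 1 ≤ A)
    (hD2 : ∀ x, u ≤ x → x ≤ v → |D2 x| ≤ A * sg j * rr j ^ 2)
    (hgood : ¬ BadW j u v A s t D0 D1 c) :
    (∀ x, u ≤ x → x ≤ v → G x = 0 → G1 x ≠ 0) ∧ G u ≠ 0 ∧ G v ≠ 0 ∧
    (Zs G u v).ncard ≤ Ms A + 1 ∧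
    ((∀ x, u ≤ x → x ≤ v → |D0 x| ≤ sg j / A ^ 4) → E0 c s t v ≠ 0 ∧
      ((Zs G u v).Finite → (Zs (E0 c s t) u v).Finite →
        (Zs G u v).ncard ≤ (Zs (E0 c s t) u v).ncard)) := by
  have hA0 : 0 < A := by linarith
  have hτ : 0 < sg j / A ^ 4 := div_pos (sg_pos j) (by positivity)
  obtain ⟨g1, g2, g3, g4⟩ := good_window hD0 hD1 hst hu huv hlen hA hD2 hgood
  have g2' : ∀ x, u ≤ x → x ≤ v → |G x| ≤ sg j / A ^ 4 → G1 x ≠ 0 := by
    intro x h1 h2 h3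
    rw [hGe] at h3
    rw [hG1e]
    exact g2 x h1 h2 h3
  rw [← hGe] at g3 g4
  have g1' : ∀ x, u ≤ x → x ≤ v → |G2 x| ≤ 2 * A * sg j * rr j ^ 2 := by
    intro x h1 h2
    rw [hG2e]
    exact g1 x h1 h2
  refine ⟨?_, ?_, ?_, ?_, ?_⟩
  · intro x h1 h2 h3
    apply g2' x h1 h2
    rw [h3, abs_zero]; exact hτ.le
  · intro h; rw [h, abs_zero] at g3; linarith
  · intro h; rw [h, abs_zero] at g4; linarith
  · exact window_count hG hG1 (rr_pos j) (sg_pos j) hA (M := Ms A) (Nat.le_ceil _) hlen g1' g2'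
  · intro hD
    have hFG : ∀ x, u ≤ x → x ≤ v → |E0 c s t x - G x| ≤ sg j / A ^ 4 := by
      intro x h1 h2
      have : E0 c s t x - G x = -D0 x := by rw [hGe]; ring
      rw [this, abs_neg]
      exact hD x h1 h2
    constructor
    · intro h
      have h1 := hFG v huv.le le_rfl
      rw [h, zero_sub, abs_neg] at h1
      linarith
    · intro hf1 hf2
      exact stab hG (continuous_E0 c s t) hτ _ u v huv g2' g3 g4 hFG hf1 hf2 rfl

/-! ### inner coordinate -/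

theorem pow_tail {J j n : ℕ} (hj : j ≤ J) (hn : 2 ^ (J + 1) ≤ n) :
    pt J (j + 1) ^ (n - 2) ≤ 24 * (rr j / rr J) ^ 3 := by
  rcases Nat.lt_or_ge j J with h | h
  · have hz : pt J (j + 1) = 1 - (1 / 2) ^ (j + 1) := pt_of_le h
    have hz1 := pt_le_one J (j + 1)
    have hhalf : ((1 : ℝ) / 2) ^ (j + 1) ≤ 1 / 2 := by
      calc ((1 : ℝ) / 2) ^ (j + 1) ≤ (1 / 2) ^ 1 :=
            pow_le_pow_of_le_one (by norm_num) (by norm_num) (by omega)
        _ = 1 / 2 := by norm_num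
    have hz2 : 1 / 2 ≤ pt J (j + 1) := by rw [hz]; linarith
    have hn2 : 2 ≤ n := by
      have : 2 ^ 1 ≤ 2 ^ (J + 1) := Nat.pow_le_pow_right (by norm_num) (by omega)
      omega
    set z := pt J (j + 1) with hzdef
    have e1 : z ^ n = z ^ (n - 2) * z ^ 2 := by rw [← pow_add]; congr 1; omega
    have h1 : z ^ (n - 2) ≤ 4 * z ^ n := by
      rw [e1]
      have h2 : (1 : ℝ) / 4 ≤ z ^ 2 := by nlinarith
      have h3 : 0 ≤ z ^ (n - 2) := by positivity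
      nlinarith
    have h2 : z ^ n ≤ z ^ (2 ^ (J + 1)) := pow_le_pow_of_le_one (by linarith) hz1 hn
    have h3 : z ≤ Real.exp (-(1 / 2) ^ (j + 1)) := by
      have := Real.add_one_le_exp (-(1 / 2 : ℝ) ^ (j + 1))
      rw [hz]; linarith
    have h4 : z ^ (2 ^ (J + 1)) ≤ Real.exp (-(rr J / rr j)) := by
      calc z ^ (2 ^ (J + 1)) ≤ Real.exp (-(1 / 2) ^ (j + 1)) ^ (2 ^ (J + 1)) :=
            pow_le_pow_left₀ (by linarith) h3 _
        _ = Real.exp (-(rr J / rr j)) := by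
            rw [← Real.exp_nat_mul]
            congr 1
            unfold rr
            push_cast
            rw [pow_succ, pow_succ, div_pow, one_pow]
            field_simp
    have hx : 0 < rr J / rr j := div_pos (rr_pos J) (rr_pos j)
    have h5 : Real.exp (-(rr J / rr j)) ≤ 6 * (rr j / rr J) ^ 3 := by
      have h6 := Real.pow_div_factorial_le_exp (rr J / rr j) hx.le 3
      have h7 : ((Nat.factorial 3 : ℕ) : ℝ) = 6 := by norm_num [Nat.factorial]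
      rw [h7] at h6
      rw [Real.exp_neg]
      have h8 : (rr j / rr J) ^ 3 = ((rr J / rr j) ^ 3)⁻¹ := by
        rw [← inv_pow, inv_div]
      have h9 : 6 * (rr j / rr J) ^ 3 = ((rr J / rr j) ^ 3 / 6)⁻¹ := by
        rw [h8, inv_div]; ring
      rw [h9]
      exact inv_anti₀ (by positivity) h6
    calc z ^ (n - 2) ≤ 4 * z ^ n := h1
      _ ≤ 4 * (6 * (rr j / rr J) ^ 3) := by
          apply mul_le_mul_of_nonneg_left _ (by norm_num)
          exact h2.trans (h4.trans h5)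
      _ = _ := by ring
  · have hjJ : j = J := le_antisymm hj h
    subst hjJ
    rw [pt_last, one_pow, div_self (rr_pos j).ne', one_pow]
    norm_num

theorem inner_det {ε A1 Ain : ℝ} {l J n : ℕ} {a : ℕ → ℝ} (hε : ε = 1 ∨ ε = -1)
    (hE : Ev A1 7 l (tw 1 (sgm (n + 2 ^ l)) a)) (hA1 : 0 ≤ A1) (hAin : 1 ≤ Ain)
    (hn1 : 2 ^ (J + 1) ≤ n) (hn2 : n + 2 ^ l ≤ 3 * 2 ^ (J + 1))
    (hnum1 : 13824 * (A1 + 7) * sg l ≤ sg J)
    (hnum2 : 192 * (A1 + 7) * sg l * Ain ^ 4 ≤ sg J)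
    (hin : ∀ j, j ≤ J → ¬ BadW j (pt J j) (pt J (j + 1)) Ain 0 n
      (E0 (tw ε id a) n (n + 2 ^ l)) (E1 (tw ε id a) n (n + 2 ^ l)) (tw ε id a)) :
    E0 (tw ε id a) 0 (n + 2 ^ l) 0 ≠ 0 ∧ E0 (tw ε id a) 0 (n + 2 ^ l) 1 ≠ 0 ∧
    (∀ x, 0 < x → x < 1 → E0 (tw ε id a) 0 (n + 2 ^ l) x = 0 →
      E1 (tw ε id a) 0 (n + 2 ^ l) x ≠ 0) ∧ E0 (tw ε id a) 0 n 1 ≠ 0 ∧
    (Zs (E0 (tw ε id a) 0 (n + 2 ^ l)) 0 1).ncard ≤ (Zs (E0 (tw ε id a) 0 n) 0 1).ncard := by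
  set c := tw ε id a with hc
  set G := E0 c 0 (n + 2 ^ l) with hG
  set G1 := E1 c 0 (n + 2 ^ l) with hG1
  set D0 := E0 c n (n + 2 ^ l) with hD0
  set D1 := E1 c n (n + 2 ^ l) with hD1
  have hsgl := sg_pos l
  have hsgJ := sg_pos J
  have hD0bd : ∀ j ≤ J, ∀ x, pt J j ≤ x → x ≤ pt J (j + 1) → |D0 x| ≤ sg j / Ain ^ 4 := by
    intro j hj x hx1 hx2
    have hz0 : 0 < pt J (j + 1) := (pt_nonneg J j).trans_lt (pt_lt hj)
    have h1 := inner_E0 hE hA1 hε (pt J (j + 1)) hz0 (pt_le_one _ _) x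
      ((pt_nonneg J j).trans hx1) hx2
    have h2 : pt J (j + 1) ^ n ≤ 24 * (rr j / rr J) ^ 3 :=
      (pow_le_pow_of_le_one hz0.le (pt_le_one _ _) (Nat.sub_le n 2)).trans (pow_tail hj hn1)
    have hq : rr j / rr J ≤ 1 := (div_le_one (rr_pos J)).mpr (rr_mono hj)
    have hq0 : 0 ≤ rr j / rr J := div_nonneg (rr_pos j).le (rr_pos J).le
    have hq3 : (rr j / rr J) ^ 3 ≤ rr j / rr J := by
      calc (rr j / rr J) ^ 3 ≤ (rr j / rr J) ^ 1 := pow_le_pow_of_le_one hq0 hq (by norm_num)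
        _ = _ := pow_one _
    have hqs : sg J * (rr j / rr J) ≤ sg j := by
      rw [← sg_sq J, ← sg_sq j, ← mul_div_assoc, div_le_iff₀ (by positivity)]
      have h3 := sg_mono hj
      have h4 := sg_pos j
      have : sg j * sg j ≤ sg j * sg J := mul_le_mul_of_nonneg_left h3 h4.le
      nlinarith
    rw [le_div_iff₀ (by positivity)]
    calc |D0 x| * Ain ^ 4 ≤ (8 * (A1 + 7) * sg l * pt J (j + 1) ^ n) * Ain ^ 4 :=
          mul_le_mul_of_nonneg_right h1 (by positivity)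
      _ ≤ (8 * (A1 + 7) * sg l * (24 * (rr j / rr J) ^ 3)) * Ain ^ 4 := by
          apply mul_le_mul_of_nonneg_right _ (by positivity)
          exact mul_le_mul_of_nonneg_left h2 (by positivity)
      _ = (192 * (A1 + 7) * sg l * Ain ^ 4) * (rr j / rr J) ^ 3 := by ring
      _ ≤ sg J * (rr j / rr J) ^ 3 := mul_le_mul_of_nonneg_right hnum2 (by positivity)
      _ ≤ sg J * (rr j / rr J) := mul_le_mul_of_nonneg_left hq3 hsgJ.le
      _ ≤ sg j := hqs
  have hD2bd : ∀ j ≤ J, ∀ x, pt J j ≤ x → x ≤ pt J (j + 1) →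
      |E2 c n (n + 2 ^ l) x| ≤ Ain * sg j * rr j ^ 2 := by
    intro j hj x hx1 hx2
    have hz0 : 0 < pt J (j + 1) := (pt_nonneg J j).trans_lt (pt_lt hj)
    have h1 := inner_E2 hE hA1 hε (pt J (j + 1)) hz0 (pt_le_one _ _) x
      ((pt_nonneg J j).trans hx1) hx2
    have h2 := pow_tail hj hn1
    have hN : ((n + 2 ^ l : ℕ) : ℝ) ≤ 6 * rr J := by
      have : ((n + 2 ^ l : ℕ) : ℝ) ≤ ((3 * 2 ^ (J + 1) : ℕ) : ℝ) := by exact_mod_cast hn2
      refine this.trans (le_of_eq ?_)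
      unfold rr
      push_cast
      rw [pow_succ]; ring
    have hqs : sg J * (rr j / rr J) ≤ sg j := by
      rw [← sg_sq J, ← sg_sq j, ← mul_div_assoc, div_le_iff₀ (by positivity)]
      have h3 := sg_mono hj
      have h4 := sg_pos j
      have : sg j * sg j ≤ sg j * sg J := mul_le_mul_of_nonneg_left h3 h4.le
      nlinarith
    have hrJ := rr_pos J
    have hrj := rr_pos j
    calc |E2 c n (n + 2 ^ l) x| ≤
          16 * (A1 + 7) * sg l * ((n + 2 ^ l : ℕ) : ℝ) ^ 2 * pt J (j + 1) ^ (n - 2) := h1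
      _ ≤ 16 * (A1 + 7) * sg l * (6 * rr J) ^ 2 * (24 * (rr j / rr J) ^ 3) := by
          apply mul_le_mul _ h2 (by positivity) (by positivity)
          apply mul_le_mul_of_nonneg_left _ (by positivity)
          exact pow_le_pow_left₀ (by positivity) hN 2
      _ = (13824 * (A1 + 7) * sg l) * (rr j / rr J) * rr j ^ 2 := by
          field_simp
          ring
      _ ≤ sg J * (rr j / rr J) * rr j ^ 2 := by
          apply mul_le_mul_of_nonneg_right _ (by positivity)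
          exact mul_le_mul_of_nonneg_right hnum1 (by positivity)
      _ ≤ sg j * rr j ^ 2 := mul_le_mul_of_nonneg_right hqs (by positivity)
      _ ≤ Ain * sg j * rr j ^ 2 := by
          apply mul_le_mul_of_nonneg_right _ (by positivity)
          have := sg_pos j
          nlinarith
  have hwin := fun j (hj : j ≤ J) => win_all (j := j) (u := pt J j) (v := pt J (j + 1)) (A := Ain)
    (s := 0) (t := n) (D0 := D0) (D1 := D1) (D2 := E2 c n (n + 2 ^ l)) (c := c) (G := G) (G1 := G1)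
    (G2 := E2 c 0 (n + 2 ^ l))
    (fun x => by rw [hG, E0_split c 0 n (n + 2 ^ l) (Nat.zero_le _) (Nat.le_add_right _ _)]; ring)
    (fun x => by rw [hG1, E1_split c 0 n (n + 2 ^ l) (Nat.zero_le _) (Nat.le_add_right _ _)]; ring)
    (fun x => by rw [E2_split c 0 n (n + 2 ^ l) (Nat.zero_le _) (Nat.le_add_right _ _)]; ring)
    (fun x => hasDerivAt_E0 c 0 (n + 2 ^ l) x) (fun x => hasDerivAt_E1 c 0 (n + 2 ^ l) x)
    (fun x => hasDerivAt_E0 c n (n + 2 ^ l) x) (fun x => hasDerivAt_E1 c n (n + 2 ^ l) x)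
    (Nat.zero_le n) (pt_nonneg J j) (pt_lt hj) (pt_len hj) hAin (hD2bd j hj) (hin j hj)
  have hG0 : G 0 ≠ 0 := by
    have := (hwin 0 (Nat.zero_le J)).2.1
    rw [pt_zero] at this
    exact this
  have hG1' : G 1 ≠ 0 := by
    have := (hwin J le_rfl).2.2.1
    rw [pt_last] at this
    exact this
  have hF1 : E0 c 0 n 1 ≠ 0 := by
    have := ((hwin J le_rfl).2.2.2.2 (hD0bd J le_rfl)).1
    rw [pt_last] at this
    exact this
  have hfG : ∀ u v, (Zs G u v).Finite := fun u v => fin_Zs c 0 (n + 2 ^ l) 1 hG1' u v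
  have hfF : ∀ u v, (Zs (E0 c 0 n) u v).Finite := fun u v => fin_Zs c 0 n 1 hF1 u v
  refine ⟨hG0, hG1', ?_, hF1, ?_⟩
  · intro x hx0 hx1 hx
    obtain ⟨j, _, hj, h1, h2⟩ := pt_cover J 0 (J + 1) x (Nat.zero_le _)
      (by rw [pt_zero]; exact hx0.le) (by rw [pt_last]; exact hx1)
    exact (hwin j (by omega)).1 x h1 h2 hx
  · have hcc := concat (G := G) (F := E0 c 0 n) (pt J) (fun _ => 0) 0 (J + 1) (Nat.succ_pos J)
      (fun i _ hi => pt_lt (by omega)) (fun i _ hi => (hwin i (by omega)).2.1)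
      (fun i _ hi => by
        rw [add_zero]
        exact ((hwin i (by omega)).2.2.2.2 (hD0bd i (by omega))).2 (hfG _ _) (hfF _ _))
      (fun u v _ => hfG u v) (fun u v _ => hfF u v)
    rw [pt_zero, pt_last] at hcc
    have h2 := hcc.2
    simp only [Finset.sum_const_zero, add_zero] at h2
    exact h2

/-! ### outer coordinate -/

/-- window parameter for the outer windows -/
noncomputable def AO (Amid : ℝ) (l K j : ℕ) : ℝ := if j < l + K then Amid else (21 / 20) ^ (j - l)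

theorem outer_det {ε A1 A Amid : ℝ} {l J n K I : ℕ} {a : ℕ → ℝ} (hε : ε = 1 ∨ ε = -1)
    (hE : Ev A1 7 l (tw 1 (sgm (n + 2 ^ l)) a)) (hA : 0 ≤ A) (hA1 : 16 * (A + 11 * 7) < A1)
    (hAmid : 1 ≤ Amid)
    (hlJ : l + K ≤ J) (hI1 : 1 ≤ I) (hI : 5 * I ≤ l)
    (hnum1 : ∀ j, l ≤ j → j ≤ J → 8 * (A1 + 7) * sg l ≤ AO Amid l K j * sg j)
    (hnum2 : ∀ j, l + K ≤ j → j ≤ J → 4 * (A1 + 7) * sg l ≤ sg j / (AO Amid l K j) ^ 4)
    (hS : ∀ j, j < l → ∀ m, 2 ^ l ≤ m → m ≤ n + 2 ^ l →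
      |∑ k ∈ Ico (2 ^ l) m, tw ε (sgm (n + 2 ^ l)) a k * (1 - (1 / 2) ^ (j + 1)) ^ k| < A * sg j)
    (hout : ∀ j, l ≤ j → j ≤ J → ¬ BadW j (pt J j) (pt J (j + 1)) (AO Amid l K j)
      (2 ^ l) (n + 2 ^ l) (E0 (tw ε (sgm (n + 2 ^ l)) a) 0 (2 ^ l))
      (E1 (tw ε (sgm (n + 2 ^ l)) a) 0 (2 ^ l)) (tw ε (sgm (n + 2 ^ l)) a)) :
    (∀ x, 0 < x → x < 1 → E0 (tw ε (sgm (n + 2 ^ l)) a) 0 (n + 2 ^ l) x = 0 →
      E1 (tw ε (sgm (n + 2 ^ l)) a) 0 (n + 2 ^ l) x ≠ 0) ∧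
    (Zs (E0 (tw ε (sgm (n + 2 ^ l)) a) 0 (n + 2 ^ l)) 0 1).Finite ∧
    (Zs (E0 (tw ε (sgm (n + 2 ^ l)) a) 0 (n + 2 ^ l)) 0 1).ncard +
      SCn (tw ε (sgm (n + 2 ^ l)) a) (2 ^ l) (n + 2 ^ l) I ≤
      (Zs (E0 (tw ε (sgm (n + 2 ^ l)) a) (2 ^ l) (n + 2 ^ l)) 0 1).ncard + K * (Ms Amid + 1) := by
  set c := tw ε (sgm (n + 2 ^ l)) a with hc
  set L := 2 ^ l with hL
  set N := n + L with hN
  have hA1' : 0 ≤ A1 := by linarith
  set G := E0 c 0 N with hG
  set G1 := E1 c 0 N with hG1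
  set D0 := E0 c 0 L with hD0
  set D1 := E1 c 0 L with hD1
  have hLN : L ≤ N := Nat.le_add_left _ _
  have hsgl := sg_pos l
  have hAO : ∀ j, 1 ≤ AO Amid l K j := by
    intro j
    unfold AO
    split_ifs
    · exact hAmid
    · exact one_le_pow₀ (by norm_num)
  have hD0bd : ∀ j, l + K ≤ j → j ≤ J → ∀ x, pt J j ≤ x → x ≤ pt J (j + 1) →
      |D0 x| ≤ sg j / (AO Amid l K j) ^ 4 := by
    intro j hj1 hj2 x hx1 hx2
    exact (outer_E0 hE hA1' hε x ((pt_nonneg J j).trans hx1) (hx2.trans (pt_le_one _ _))).trans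
      (hnum2 j hj1 hj2)
  have hD2bd : ∀ j, l ≤ j → j ≤ J → ∀ x, pt J j ≤ x → x ≤ pt J (j + 1) →
      |E2 c 0 L x| ≤ AO Amid l K j * sg j * rr j ^ 2 := by
    intro j hj1 hj2 x hx1 hx2
    refine (outer_E2 hE hA1' hε x ((pt_nonneg J j).trans hx1) (hx2.trans (pt_le_one _ _))).trans ?_
    have h1 := hnum1 j hj1 hj2
    have h2 : rr l ^ 2 ≤ rr j ^ 2 := pow_le_pow_left₀ (rr_pos l).le (rr_mono hj1) 2
    exact mul_le_mul h1 h2 (by have := rr_pos l; positivity)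
      (by have := sg_pos j; have := hAO j; positivity)
  have hwin := fun j (hj1 : l ≤ j) (hj : j ≤ J) => win_all (j := j) (u := pt J j)
    (v := pt J (j + 1)) (A := AO Amid l K j)
    (s := L) (t := N) (D0 := D0) (D1 := D1) (D2 := E2 c 0 L) (c := c) (G := G) (G1 := G1)
    (G2 := E2 c 0 N)
    (fun x => by rw [hG, E0_split c 0 L N (Nat.zero_le _) hLN])
    (fun x => by rw [hG1, E1_split c 0 L N (Nat.zero_le _) hLN])
    (fun x => by rw [E2_split c 0 L N (Nat.zero_le _) hLN])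
    (fun x => hasDerivAt_E0 c 0 N x) (fun x => hasDerivAt_E1 c 0 N x)
    (fun x => hasDerivAt_E0 c 0 L x) (fun x => hasDerivAt_E1 c 0 L x)
    hLN (pt_nonneg J j) (pt_lt hj) (pt_len hj) (hAO j) (hD2bd j hj1 hj) (hout j hj1 hj)
  have hG1' : G 1 ≠ 0 := by
    have := (hwin J (by omega) le_rfl).2.2.1
    rw [pt_last] at this
    exact this
  have hF1 : E0 c L N 1 ≠ 0 := by
    have := ((hwin J (by omega) le_rfl).2.2.2.2 (hD0bd J hlJ le_rfl)).1
    rw [pt_last] at this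
    exact this
  have hfG : ∀ u v, (Zs G u v).Finite := fun u v => fin_Zs c 0 N 1 hG1' u v
  have hfF : ∀ u v, (Zs (E0 c L N) u v).Finite := fun u v => fin_Zs c L N 1 hF1 u v
  -- positivity in the block windows
  have hptl : ∀ j, j ≤ l → pt J j = 1 - (1 / 2) ^ j := fun j hj => pt_of_le (by omega)
  have hposw : ∀ j, j < l → ∀ x, pt J j ≤ x → x ≤ pt J (j + 1) → 0 < G x := by
    intro j hj x hx1 hx2
    rw [hptl j hj.le] at hx1
    rw [hptl (j + 1) hj] at hx2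
    have h1 := outer_large (n := N) hE hA hA1 hε hj x hx1 hx2
    have hz0 : (0 : ℝ) < 1 - (1 / 2) ^ (j + 1) := by
      have : ((1 : ℝ) / 2) ^ (j + 1) < 1 := pow_lt_one₀ (by norm_num) (by norm_num) (by omega)
      linarith
    have hx0 : 0 ≤ x := by
      have : ((1 : ℝ) / 2) ^ j ≤ 1 := pow_le_one₀ (by norm_num) (by norm_num)
      linarith
    have h2 := E0_le_of_partial c L N hLN (1 - (1 / 2) ^ (j + 1)) hz0 (A * sg j)
      (fun m hm1 hm2 => (hS j hj m hm1 hm2).le) x hx0 hx2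
    rw [hG, E0_split c 0 L N (Nat.zero_le _) hLN]
    have h3 := (abs_le.mp h2).1
    have h4 : A * sg j < E0 c 0 L x := h1
    linarith
  have hpos : ∀ x, 0 ≤ x → x ≤ pt J l → 0 < G x := by
    intro x hx0 hx1
    rcases lt_or_eq_of_le hx1 with h | h
    · obtain ⟨j, _, hj, h1, h2⟩ := pt_cover J 0 l x (Nat.zero_le _)
        (by rw [pt_zero]; exact hx0) h
      exact hposw j hj x h1 h2
    · have hl1 : 1 ≤ l := by omega
      have e : l - 1 + 1 = l := by omega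
      apply hposw (l - 1) (by omega) x
      · rw [h]
        have := (pt_lt (J := J) (i := l - 1) (by omega)).le
        rw [e] at this
        exact this
      · rw [e]; exact hx1
  refine ⟨?_, hfG 0 1, ?_⟩
  · intro x hx0 hx1 hx
    rcases le_or_gt x (pt J l) with h | h
    · have := hpos x hx0.le h
      linarith
    · obtain ⟨j, hj1, hj, h1, h2⟩ := pt_cover J l (J + 1) x (by omega) h.le
        (by rw [pt_last]; exact hx1)
      exact (hwin j hj1 (by omega)).1 x h1 h2 hx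
  · have hcc := concat (G := G) (F := E0 c L N) (pt J)
      (fun i => if i < l + K then Ms Amid + 1 else 0) l (J + 1) (by omega)
      (fun i _ hi => pt_lt (by omega)) (fun i hi1 hi => (hwin i (by omega) (by omega)).2.1)
      (fun i hi1 hi => by
        by_cases hiK : i < l + K
        · rw [if_pos hiK]
          have h1 := (hwin i hi1 (by omega)).2.2.2.1
          have h2 : AO Amid l K i = Amid := if_pos hiK
          rw [h2] at h1
          omega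
        · rw [if_neg hiK, add_zero]
          exact ((hwin i hi1 (by omega)).2.2.2.2 (hD0bd i (by omega) (by omega))).2
            (hfG _ _) (hfF _ _))
      (fun u v _ => hfG u v) (fun u v _ => hfF u v)
    rw [pt_last] at hcc
    have h2 := hcc.2
    have hsum : ∑ i ∈ Ico l (J + 1), (if i < l + K then Ms Amid + 1 else 0) ≤
        K * (Ms Amid + 1) := by
      rw [← Finset.sum_filter]
      rw [Finset.sum_const, smul_eq_mul]
      apply Nat.mul_le_mul_right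
      have : (Ico l (J + 1)).filter (fun i => i < l + K) ⊆ Ico l (l + K) := by
        intro i hi
        rw [Finset.mem_filter, Finset.mem_Ico] at hi
        rw [Finset.mem_Ico]
        exact ⟨hi.1.1, hi.2⟩
      refine (Finset.card_le_card this).trans ?_
      rw [Nat.card_Ico]; omega
    have hsubG : Zs G 0 1 ⊆ Zs G (pt J l) 1 := by
      intro x hx
      refine ⟨?_, hx.2.1, hx.2.2⟩
      by_contra hcon
      push Not at hcon
      have := hpos x hx.1.le hcon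
      rw [hx.2.2] at this
      exact lt_irrefl _ this
    have h3 : (Zs G 0 1).ncard ≤ (Zs G (pt J l) 1).ncard := Set.ncard_le_ncard hsubG (hfG _ _)
    have h4 : SCn c L N I ≤ (Zs (E0 c L N) (yy 1) (yy I)).ncard := by
      classical
      have h5 := (sc_le (F := E0 c L N) (continuous_E0 c L N) yy yy_lt 1 I hI1
        (fun u v _ => hfF u v)).2
      unfold SCn
      convert h5
    have hyI : yy I ≤ pt J l := by
      rw [hptl l le_rfl]
      unfold yy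
      have : ((1 : ℝ) / 2) ^ l ≤ (1 / 2) ^ (5 * I) :=
        pow_le_pow_of_le_one (by norm_num) (by norm_num) hI
      linarith
    have hy1 : 0 ≤ yy 1 := by unfold yy; norm_num
    have h6 : (Zs (E0 c L N) (yy 1) (yy I)).ncard ≤ (Zs (E0 c L N) 0 (pt J l)).ncard :=
      Set.ncard_le_ncard (Zs_mono hy1 hyI) (hfF _ _)
    have h7 := Zs_ncard_add_le (G := E0 c L N) (pt_nonneg J l) (pt_le_one J l) (hfF 0 1)
    omega

/-- The main deterministic comparison. -/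
theorem main_det {A1 A Amid Ain : ℝ} {l J n K I : ℕ} {a : ℕ → ℝ}
    (hE : Ev A1 7 l (tw 1 (sgm (n + 2 ^ l)) a)) (hA : 0 ≤ A) (hA1 : 16 * (A + 11 * 7) < A1)
    (hAmid : 1 ≤ Amid) (hAin : 1 ≤ Ain)
    (hn1 : 2 ^ (J + 1) ≤ n) (hn2 : n + 2 ^ l ≤ 3 * 2 ^ (J + 1))
    (hlJ : l + K ≤ J) (hI1 : 1 ≤ I) (hI : 5 * I ≤ l)
    (hnum1 : 13824 * (A1 + 7) * sg l ≤ sg J)
    (hnum2 : 192 * (A1 + 7) * sg l * Ain ^ 4 ≤ sg J)
    (hnum3 : ∀ j, l ≤ j → j ≤ J → 8 * (A1 + 7) * sg l ≤ AO Amid l K j * sg j)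
    (hnum4 : ∀ j, l + K ≤ j → j ≤ J → 4 * (A1 + 7) * sg l ≤ sg j / (AO Amid l K j) ^ 4)
    (hin : ∀ ε : ℝ, ε = 1 ∨ ε = -1 → ∀ j, j ≤ J → ¬ BadW j (pt J j) (pt J (j + 1)) Ain 0 n
      (E0 (tw ε id a) n (n + 2 ^ l)) (E1 (tw ε id a) n (n + 2 ^ l)) (tw ε id a))
    (hS : ∀ ε : ℝ, ε = 1 ∨ ε = -1 → ∀ j, j < l → ∀ m, 2 ^ l ≤ m → m ≤ n + 2 ^ l →
      |∑ k ∈ Ico (2 ^ l) m, tw ε (sgm (n + 2 ^ l)) a k * (1 - (1 / 2) ^ (j + 1)) ^ k| < A * sg j)
    (hout : ∀ ε : ℝ, ε = 1 ∨ ε = -1 → ∀ j, l ≤ j → j ≤ J →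
      ¬ BadW j (pt J j) (pt J (j + 1)) (AO Amid l K j)
      (2 ^ l) (n + 2 ^ l) (E0 (tw ε (sgm (n + 2 ^ l)) a) 0 (2 ^ l))
      (E1 (tw ε (sgm (n + 2 ^ l)) a) 0 (2 ^ l)) (tw ε (sgm (n + 2 ^ l)) a)) :
    (pol a (n + 2 ^ l)).roots.card + SCn (tw 1 (sgm (n + 2 ^ l)) a) (2 ^ l) (n + 2 ^ l) I ≤
      (pol a n).roots.card + 2 * (K * (Ms Amid + 1)) := by
  have hA1' : 0 ≤ A1 := by linarith
  have I1 := fun ε (hε : ε = 1 ∨ ε = -1) =>
    inner_det hε hE hA1' hAin hn1 hn2 hnum1 hnum2 (hin ε hε)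
  have O1 := fun ε (hε : ε = 1 ∨ ε = -1) =>
    outer_det hε hE hA hA1 hAmid hlJ hI1 hI hnum3 hnum4 (hS ε hε) (hout ε hε)
  have hle := roots_le (a := a) (n := n + 2 ^ l) (I1 1 (Or.inl rfl)).1
    (fun ε hε => (I1 ε hε).2.1) (fun ε hε => (I1 ε hε).2.2.1) (fun ε hε => (O1 ε hε).1)
    (fun ε hε => (O1 ε hε).2.1)
  have hge := roots_ge (a := a) (n := n) (L := 2 ^ l) (1 * 1) (by
    have := (I1 1 (Or.inl rfl)).2.2.2.1
    rw [E0_tw_id] at this
    exact this)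
  have i1 := (I1 1 (Or.inl rfl)).2.2.2.2
  have i2 := (I1 (-1) (Or.inr rfl)).2.2.2.2
  have o1 := (O1 1 (Or.inl rfl)).2.2
  have o2 := (O1 (-1) (Or.inr rfl)).2.2
  omega

end Pool.Agent.H993R2.Kac
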