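import Pool.Agent.H993R2.Kac.Blocks

set_option autoImplicit false
set_option maxHeartbeats 1000000

/-!
Roots of the polynomial and zeros in the four coordinates.
-/

namespace Pool.Agent.H993R2.Kac

open Finset

/-- the polynomial with `n` coefficients -/
noncomputable def pol (a : ℕ → ℝ) (n : ℕ) : Polynomial ℝ :=
  ∑ i ∈ range n, Polynomial.C (a i) * Polynomial.X ^ i

theorem eval_pol (a : ℕ → ℝ) (n : ℕ) (x : ℝ) : (pol a n).eval x = E0 a 0 n x := by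
  unfold pol E0
  rw [Polynomial.eval_finsetSum, Finset.range_eq_Ico]
  apply Finset.sum_congr rfl
  intro k _
  simp

theorem eval_deriv_pol (a : ℕ → ℝ) (n : ℕ) (x : ℝ) :
    (Polynomial.derivative (pol a n)).eval x = E1 a 0 n x := by
  unfold pol E1
  rw [Polynomial.derivative_sum, Polynomial.eval_finsetSum, Finset.range_eq_Ico]
  apply Finset.sum_congr rfl
  intro k _
  rw [Polynomial.derivative_C_mul, Polynomial.derivative_X_pow]
  simp

theorem fin_zeros (c : ℕ → ℝ) (s t : ℕ) (x0 : ℝ) (h : E0 c s t x0 ≠ 0) :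
    {x | E0 c s t x = 0}.Finite := by
  set p : Polynomial ℝ := ∑ k ∈ Ico s t, Polynomial.C (c k) * Polynomial.X ^ k with hp
  have he : ∀ x, p.eval x = E0 c s t x := by
    intro x
    rw [hp, Polynomial.eval_finsetSum]
    unfold E0
    apply Finset.sum_congr rfl
    intro k _
    simp
  have hp0 : p ≠ 0 := by
    intro h0
    apply h
    rw [← he, h0, Polynomial.eval_zero]
  have : {x | E0 c s t x = 0} = {x | p.IsRoot x} := by
    ext x
    show E0 c s t x = 0 ↔ p.eval x = 0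
    rw [he]
  rw [this]
  exact Polynomial.finite_setOfPred_isRoot hp0

theorem fin_Zs (c : ℕ → ℝ) (s t : ℕ) (x0 : ℝ) (h : E0 c s t x0 ≠ 0) (u v : ℝ) :
    (Zs (E0 c s t) u v).Finite :=
  (fin_zeros c s t x0 h).subset fun _ hx => hx.2.2

theorem E0_tw_id (ε : ℝ) (a : ℕ → ℝ) (n : ℕ) (t : ℝ) :
    E0 (tw ε id a) 0 n t = E0 a 0 n (ε * t) := by
  unfold E0 tw
  apply Finset.sum_congr rfl
  intro k _
  rw [mul_pow]; simp only [id]; ring

theorem E1_tw_id (ε : ℝ) (a : ℕ → ℝ) (n : ℕ) (t : ℝ) :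
    E1 (tw ε id a) 0 n t = ε * E1 a 0 n (ε * t) := by
  unfold E1 tw
  rw [Finset.mul_sum]
  apply Finset.sum_congr rfl
  intro k _
  rcases Nat.eq_zero_or_pos k with h | h
  · subst h; simp
  · obtain ⟨i, rfl⟩ : ∃ i, k = i + 1 := ⟨k - 1, by omega⟩
    rw [Nat.add_sub_cancel, mul_pow, pow_succ]; simp only [id]; ring

theorem E0_tw_sgm {ε : ℝ} (hε : ε = 1 ∨ ε = -1) (a : ℕ → ℝ) (s n : ℕ) (hs : s ≤ n) (y : ℝ)
    (hy : y ≠ 0) : E0 (tw ε (sgm n) a) s n y =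
      ε ^ (n - 1) * y ^ (n - 1) * E0 a 0 (n - s) (ε * y⁻¹) := by
  rcases Nat.eq_zero_or_pos n with h0 | h0
  · subst h0
    have : s = 0 := by omega
    subst this
    simp [E0]
  rcases Nat.lt_or_ge s n with hsn | hsn
  · have href := Finset.sum_Ico_reflect (fun k => tw ε (sgm n) a k * y ^ k) 0 (m := n - s)
      (n := n - 1) (by omega)
    have e1 : n - 1 + 1 - (n - s) = s := by omega
    have e2 : n - 1 + 1 - 0 = n := by omega
    rw [e1, e2] at href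
    unfold E0
    rw [← href, Finset.mul_sum]
    apply Finset.sum_congr rfl
    intro k hk
    rw [Finset.mem_Ico] at hk
    unfold tw sgm
    rw [if_pos (by omega), eps_reflect hε (n - 1) k (by omega)]
    have e3 : n - 1 - (n - 1 - k) = k := by omega
    have e4 : y ^ (n - 1) = y ^ (n - 1 - k) * y ^ k := by rw [← pow_add]; congr 1; omega
    have e5 : y ^ k * (y⁻¹) ^ k = 1 := by rw [← mul_pow, mul_inv_cancel₀ hy, one_pow]
    rw [e3, e4, mul_pow]
    linear_combination (-(ε ^ (n - 1) * ε ^ k * a k * y ^ (n - 1 - k))) * e5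
  · have : s = n := by omega
    subst this
    simp [E0]

theorem E1_tw_sgm_zero {ε : ℝ} (hε : ε = 1 ∨ ε = -1) (a : ℕ → ℝ) (n : ℕ) (y : ℝ)
    (hy : y ≠ 0) (h0 : E0 a 0 n (ε * y⁻¹) = 0) (h1 : E1 a 0 n (ε * y⁻¹) = 0) :
    E1 (tw ε (sgm n) a) 0 n y = 0 := by
  have hd1 := hasDerivAt_E0 (tw ε (sgm n) a) 0 n y
  have hinv : HasDerivAt (fun y : ℝ => ε * y⁻¹) (ε * (-(y ^ 2)⁻¹)) y :=
    (hasDerivAt_inv hy).const_mul ε
  have hcomp : HasDerivAt (fun y : ℝ => E0 a 0 n (ε * y⁻¹))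
      (E1 a 0 n (ε * y⁻¹) * (ε * (-(y ^ 2)⁻¹))) y :=
    HasDerivAt.comp (h₂ := E0 a 0 n) (h := fun y : ℝ => ε * y⁻¹) y
      (hasDerivAt_E0 a 0 n (ε * y⁻¹)) hinv
  have hpow : HasDerivAt (fun y : ℝ => ε ^ (n - 1) * y ^ (n - 1))
      (ε ^ (n - 1) * (((n - 1 : ℕ) : ℝ) * y ^ (n - 1 - 1))) y :=
    (hasDerivAt_pow (n - 1) y).const_mul _
  have hd2 := hpow.mul hcomp
  rw [h0, h1, mul_zero, zero_mul, mul_zero, add_zero] at hd2
  have hev : (fun y : ℝ => ε ^ (n - 1) * y ^ (n - 1)) * (fun y : ℝ => E0 a 0 n (ε * y⁻¹)) =ᶠ[nhds y]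
      E0 (tw ε (sgm n) a) 0 n := by
    filter_upwards [isOpen_ne.mem_nhds hy] with z hz
    have := E0_tw_sgm hε a 0 n (Nat.zero_le _) z hz
    rw [Nat.sub_zero] at this
    rw [this]
    rfl
  have hd3 := hd2.congr_of_eventuallyEq hev.symm
  exact hd1.unique hd3

/-- the upper bound for the number of roots -/
theorem roots_le {a : ℕ → ℝ} {n : ℕ}
    (h0 : E0 (tw 1 id a) 0 n 0 ≠ 0)
    (h1 : ∀ ε : ℝ, ε = 1 ∨ ε = -1 → E0 (tw ε id a) 0 n 1 ≠ 0)
    (hs1 : ∀ ε : ℝ, ε = 1 ∨ ε = -1 → ∀ x, 0 < x → x < 1 → E0 (tw ε id a) 0 n x = 0 →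
      E1 (tw ε id a) 0 n x ≠ 0)
    (hs2 : ∀ ε : ℝ, ε = 1 ∨ ε = -1 → ∀ x, 0 < x → x < 1 → E0 (tw ε (sgm n) a) 0 n x = 0 →
      E1 (tw ε (sgm n) a) 0 n x ≠ 0)
    (hf : ∀ ε : ℝ, ε = 1 ∨ ε = -1 → (Zs (E0 (tw ε (sgm n) a) 0 n) 0 1).Finite) :
    (pol a n).roots.card ≤
      ((Zs (E0 (tw 1 id a) 0 n) 0 1).ncard + (Zs (E0 (tw 1 (sgm n) a) 0 n) 0 1).ncard) +
      ((Zs (E0 (tw (-1) id a) 0 n) 0 1).ncard + (Zs (E0 (tw (-1) (sgm n) a) 0 n) 0 1).ncard) := by
  classical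
  have hx0 : E0 a 0 n 0 ≠ 0 := by
    rw [E0_tw_id, mul_zero] at h0; exact h0
  have hx1 : ∀ ε : ℝ, ε = 1 ∨ ε = -1 → E0 a 0 n ε ≠ 0 := by
    intro ε hε
    have := h1 ε hε
    rw [E0_tw_id, mul_one] at this
    exact this
  have hp0 : pol a n ≠ 0 := by
    intro h
    apply hx0
    rw [← eval_pol, h, Polynomial.eval_zero]
  have hinn : ∀ ε : ℝ, ε = 1 ∨ ε = -1 → ∀ x, E0 a 0 n x = 0 → 0 < ε * x → ε * x < 1 →
      ε * x ∈ Zs (E0 (tw ε id a) 0 n) 0 1 := by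
    intro ε hε x hx h2 h3
    refine ⟨h2, h3, ?_⟩
    rw [E0_tw_id, ← mul_assoc, eps_sq hε, one_mul, hx]
  have hout : ∀ ε : ℝ, ε = 1 ∨ ε = -1 → ∀ x, E0 a 0 n x = 0 → 1 < ε * x →
      ε * x⁻¹ ∈ Zs (E0 (tw ε (sgm n) a) 0 n) 0 1 := by
    intro ε hε x hx h2
    have hxne : x ≠ 0 := by
      intro h; rw [h, mul_zero] at h2; linarith
    have e1 : ε * x⁻¹ = (ε * x)⁻¹ := by
      rcases hε with h | h
      · rw [h, one_mul, one_mul]
      · rw [h, neg_one_mul, neg_one_mul, inv_neg]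
    have hne : ε * x⁻¹ ≠ 0 := by
      rw [e1]; exact inv_ne_zero (by linarith)
    refine ⟨?_, ?_, ?_⟩
    · rw [e1]; exact inv_pos.mpr (by linarith)
    · rw [e1]; exact inv_lt_one_of_one_lt₀ h2
    · rw [E0_tw_sgm hε a 0 n (Nat.zero_le _) _ hne, Nat.sub_zero, e1, inv_inv, ← mul_assoc,
        eps_sq hε, one_mul, hx, mul_zero]
  -- trichotomy
  have hcase : ∀ x, E0 a 0 n x = 0 → ∃ ε : ℝ, (ε = 1 ∨ ε = -1) ∧ ((0 < ε * x ∧ ε * x < 1) ∨
      1 < ε * x) := by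
    intro x hx
    have hne0 : x ≠ 0 := by intro h; rw [h] at hx; exact hx0 hx
    have hne1 : x ≠ 1 := by intro h; rw [h] at hx; exact hx1 1 (Or.inl rfl) hx
    have hne2 : x ≠ -1 := by intro h; rw [h] at hx; exact hx1 (-1) (Or.inr rfl) hx
    rcases lt_or_gt_of_ne hne0 with h | h
    · refine ⟨-1, Or.inr rfl, ?_⟩
      rcases lt_or_gt_of_ne hne2 with h' | h'
      · right; linarith
      · left; constructor <;> linarith
    · refine ⟨1, Or.inl rfl, ?_⟩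
      rcases lt_or_gt_of_ne hne1 with h' | h'
      · left; constructor <;> linarith
      · right; linarith
  have hnodup : (pol a n).roots.Nodup := by
    rw [Multiset.nodup_iff_count_le_one]
    intro x
    rw [Polynomial.count_roots]
    by_contra hcon
    push Not at hcon
    rw [Polynomial.one_lt_rootMultiplicity_iff_isRoot hp0] at hcon
    have hr0 : E0 a 0 n x = 0 := by rw [← eval_pol]; exact hcon.1
    have hr1 : E1 a 0 n x = 0 := by rw [← eval_deriv_pol]; exact hcon.2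
    obtain ⟨ε, hε, hc⟩ := hcase x hr0
    rcases hc with ⟨h2, h3⟩ | h2
    · have hm := hinn ε hε x hr0 h2 h3
      apply hs1 ε hε _ hm.1 hm.2.1 hm.2.2
      rw [E1_tw_id, ← mul_assoc, eps_sq hε, one_mul, hr1, mul_zero]
    · have hm := hout ε hε x hr0 h2
      apply hs2 ε hε _ hm.1 hm.2.1 hm.2.2
      have e1 : ε * (ε * x⁻¹)⁻¹ = x := by
        rw [mul_inv, inv_inv, ← mul_assoc, mul_inv_cancel₀ (by rcases hε with h | h <;> rw [h] <;> norm_num),
          one_mul]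
      apply E1_tw_sgm_zero hε a n _ (by have := hm.1; exact this.ne')
      · rw [e1]; exact hr0
      · rw [e1]; exact hr1
  rw [← Multiset.toFinset_card_of_nodup hnodup]
  have hfin1 : ∀ ε : ℝ, ε = 1 ∨ ε = -1 → (Zs (E0 (tw ε id a) 0 n) 0 1).Finite := by
    intro ε hε
    exact fin_Zs _ _ _ 1 (h1 ε hε) _ _
  have hsub : ((pol a n).roots.toFinset : Set ℝ) ⊆
      (((fun t : ℝ => 1 * t) '' (Zs (E0 (tw 1 id a) 0 n) 0 1)) ∪
        ((fun t : ℝ => 1 * t⁻¹) '' (Zs (E0 (tw 1 (sgm n) a) 0 n) 0 1))) ∪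
      (((fun t : ℝ => (-1) * t) '' (Zs (E0 (tw (-1) id a) 0 n) 0 1)) ∪
        ((fun t : ℝ => (-1) * t⁻¹) '' (Zs (E0 (tw (-1) (sgm n) a) 0 n) 0 1))) := by
    intro x hx
    rw [Finset.mem_coe, Multiset.mem_toFinset, Polynomial.mem_roots hp0] at hx
    have hr0 : E0 a 0 n x = 0 := by rw [← eval_pol]; exact hx
    obtain ⟨ε, hε, hc⟩ := hcase x hr0
    have key1 : 0 < ε * x ∧ ε * x < 1 →
        x ∈ ((fun t : ℝ => ε * t) '' (Zs (E0 (tw ε id a) 0 n) 0 1)) := by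
      rintro ⟨h2, h3⟩
      refine ⟨ε * x, hinn ε hε x hr0 h2 h3, ?_⟩
      show ε * (ε * x) = x
      rw [← mul_assoc, eps_sq hε, one_mul]
    have key2 : 1 < ε * x →
        x ∈ ((fun t : ℝ => ε * t⁻¹) '' (Zs (E0 (tw ε (sgm n) a) 0 n) 0 1)) := by
      intro h2
      refine ⟨ε * x⁻¹, hout ε hε x hr0 h2, ?_⟩
      show ε * (ε * x⁻¹)⁻¹ = x
      rw [mul_inv, inv_inv, ← mul_assoc, mul_inv_cancel₀ (by rcases hε with h | h <;> rw [h] <;> norm_num),
          one_mul]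
    rcases hε with h | h
    · left
      rw [h] at key1 key2 hc
      rcases hc with hc | hc
      · left; exact key1 hc
      · right; exact key2 hc
    · right
      rw [h] at key1 key2 hc
      rcases hc with hc | hc
      · left; exact key1 hc
      · right; exact key2 hc
  have hf1 := (hfin1 1 (Or.inl rfl)).image (fun t : ℝ => 1 * t)
  have hf2 := (hf 1 (Or.inl rfl)).image (fun t : ℝ => 1 * t⁻¹)
  have hf3 := (hfin1 (-1) (Or.inr rfl)).image (fun t : ℝ => (-1) * t)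
  have hf4 := (hf (-1) (Or.inr rfl)).image (fun t : ℝ => (-1) * t⁻¹)
  calc (pol a n).roots.toFinset.card = ((pol a n).roots.toFinset : Set ℝ).ncard :=
        (Set.ncard_coe_finset _).symm
    _ ≤ _ := Set.ncard_le_ncard hsub ((hf1.union hf2).union (hf3.union hf4))
    _ ≤ _ := Set.ncard_union_le _ _
    _ ≤ _ := by
        apply Nat.add_le_add
        · refine (Set.ncard_union_le _ _).trans ?_
          exact Nat.add_le_add (Set.ncard_image_le (hfin1 1 (Or.inl rfl)))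
            (Set.ncard_image_le (hf 1 (Or.inl rfl)))
        · refine (Set.ncard_union_le _ _).trans ?_
          exact Nat.add_le_add (Set.ncard_image_le (hfin1 (-1) (Or.inr rfl)))
            (Set.ncard_image_le (hf (-1) (Or.inr rfl)))

/-- the lower bound for the number of roots -/
theorem roots_ge {a : ℕ → ℝ} {n L : ℕ} (x0 : ℝ) (hx0 : E0 a 0 n x0 ≠ 0) :
      ((Zs (E0 (tw 1 id a) 0 n) 0 1).ncard +
        (Zs (E0 (tw 1 (sgm (n + L)) a) L (n + L)) 0 1).ncard) +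
      ((Zs (E0 (tw (-1) id a) 0 n) 0 1).ncard +
        (Zs (E0 (tw (-1) (sgm (n + L)) a) L (n + L)) 0 1).ncard) ≤ (pol a n).roots.card := by
  classical
  have hp0 : pol a n ≠ 0 := by
    intro h
    apply hx0
    rw [← eval_pol, h, Polynomial.eval_zero]
  refine le_trans ?_ (Multiset.toFinset_card_le (pol a n).roots)
  rw [← Set.ncard_coe_finset]
  set T : Set ℝ := ((pol a n).roots.toFinset : Set ℝ) with hT
  have hmemT : ∀ x, E0 a 0 n x = 0 → x ∈ T := by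
    intro x hx
    rw [hT, Finset.mem_coe, Multiset.mem_toFinset, Polynomial.mem_roots hp0]
    show (pol a n).eval x = 0
    rw [eval_pol, hx]
  have hTfin : T.Finite := Finset.finite_toSet _
  set I1 : ℝ → Set ℝ := fun ε => (fun t : ℝ => ε * t) '' (Zs (E0 (tw ε id a) 0 n) 0 1) with hI1
  set I2 : ℝ → Set ℝ := fun ε => (fun t : ℝ => ε * t⁻¹) ''
    (Zs (E0 (tw ε (sgm (n + L)) a) L (n + L)) 0 1) with hI2
  have hne : ∀ ε : ℝ, ε = 1 ∨ ε = -1 → ε ≠ 0 := by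
    rintro ε (h | h) <;> rw [h] <;> norm_num
  have hc1 : ∀ ε : ℝ, ε = 1 ∨ ε = -1 → (I1 ε).ncard = (Zs (E0 (tw ε id a) 0 n) 0 1).ncard := by
    intro ε hε
    exact Set.ncard_image_of_injective _ (mul_right_injective₀ (hne ε hε))
  have hc2 : ∀ ε : ℝ, ε = 1 ∨ ε = -1 → (I2 ε).ncard =
      (Zs (E0 (tw ε (sgm (n + L)) a) L (n + L)) 0 1).ncard := by
    intro ε hε
    exact Set.ncard_image_of_injective _ ((mul_right_injective₀ (hne ε hε)).comp inv_injective)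
  have hs1 : ∀ ε : ℝ, ε = 1 ∨ ε = -1 → I1 ε ⊆ T := by
    rintro ε hε x ⟨t, ht, rfl⟩
    apply hmemT
    rw [← E0_tw_id]
    exact ht.2.2
  have hs2 : ∀ ε : ℝ, ε = 1 ∨ ε = -1 → I2 ε ⊆ T := by
    rintro ε hε x ⟨t, ht, rfl⟩
    apply hmemT
    have h2 := ht.2.2
    rw [E0_tw_sgm hε a L (n + L) (Nat.le_add_left _ _) t ht.1.ne', Nat.add_sub_cancel] at h2
    have h3 : ε ^ (n + L - 1) * t ^ (n + L - 1) ≠ 0 :=
      mul_ne_zero (pow_ne_zero _ (hne ε hε)) (pow_ne_zero _ ht.1.ne')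
    exact (mul_eq_zero.mp h2).resolve_left h3
  have hr1 : ∀ x ∈ I1 1, 0 < x ∧ x < 1 := by
    rintro x ⟨t, ht, rfl⟩
    have := ht.1
    have := ht.2.1
    simp only [one_mul]
    constructor <;> assumption
  have hr2 : ∀ x ∈ I2 1, 1 < x := by
    rintro x ⟨t, ht, rfl⟩
    simp only [one_mul]
    exact (one_lt_inv₀ ht.1).mpr ht.2.1
  have hr3 : ∀ x ∈ I1 (-1), -1 < x ∧ x < 0 := by
    rintro x ⟨t, ht, rfl⟩
    have := ht.1
    have := ht.2.1
    simp only [neg_one_mul]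
    constructor <;> linarith
  have hr4 : ∀ x ∈ I2 (-1), x < -1 := by
    rintro x ⟨t, ht, rfl⟩
    have := (one_lt_inv₀ ht.1).mpr ht.2.1
    simp only [neg_one_mul]
    linarith
  have ho : (1 : ℝ) = 1 ∨ (1 : ℝ) = -1 := Or.inl rfl
  have ho' : (-1 : ℝ) = 1 ∨ (-1 : ℝ) = -1 := Or.inr rfl
  have hfin : ∀ s : Set ℝ, s ⊆ T → s.Finite := fun s hs => hTfin.subset hs
  have hd1 : Disjoint (I1 1) (I2 1) := by
    rw [Set.disjoint_left]
    intro x h1 h2
    have := hr1 x h1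
    have := hr2 x h2
    linarith
  have hd2 : Disjoint (I1 (-1)) (I2 (-1)) := by
    rw [Set.disjoint_left]
    intro x h1 h2
    have := hr3 x h1
    have := hr4 x h2
    linarith
  have hd3 : Disjoint (I1 1 ∪ I2 1) (I1 (-1) ∪ I2 (-1)) := by
    rw [Set.disjoint_left]
    intro x h1 h2
    have h3 : 0 < x := by
      rcases h1 with h1 | h1
      · exact (hr1 x h1).1
      · have := hr2 x h1; linarith
    have h4 : x < 0 := by
      rcases h2 with h2 | h2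
      · exact (hr3 x h2).2
      · have := hr4 x h2; linarith
    linarith
  rw [← hc1 1 ho, ← hc2 1 ho, ← hc1 (-1) ho', ← hc2 (-1) ho',
    ← Set.ncard_union_eq hd1 (hfin _ (hs1 1 ho)) (hfin _ (hs2 1 ho)),
    ← Set.ncard_union_eq hd2 (hfin _ (hs1 (-1) ho')) (hfin _ (hs2 (-1) ho')),
    ← Set.ncard_union_eq hd3
      (hfin _ (Set.union_subset (hs1 1 ho) (hs2 1 ho)))
      (hfin _ (Set.union_subset (hs1 (-1) ho') (hs2 (-1) ho')))]
  exact Set.ncard_le_ncard (Set.union_subset (Set.union_subset (hs1 1 ho) (hs2 1 ho))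
    (Set.union_subset (hs1 (-1) ho') (hs2 (-1) ho'))) hTfin

end Pool.Agent.H993R2.Kac
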