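import Pool.Agent.H993R2.Kac.Window2

set_option autoImplicit false
set_option maxHeartbeats 1000000
set_option linter.unusedSectionVars false

/-!
The special block event: deterministic consequences.
-/

namespace Pool.Agent.H993R2.Kac

open MeasureTheory ProbabilityTheory Finset

/-- the shift on the dyadic block `[2^i, 2^{i+1})` -/
noncomputable def hb (A1 : ℝ) (i k : ℕ) : ℝ := if Even k then A1 / sg i else 0

/-- block event -/
def EvB (A1 K : ℝ) (i : ℕ) (b : ℕ → ℝ) : Prop :=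
  ∀ m, m ∈ Icc (2 ^ i) (2 ^ (i + 1)) →
    |∑ k ∈ Ico (2 ^ i) m, (b k - hb A1 i k)| ≤ K * sg i ∧
    |∑ k ∈ Ico (2 ^ i) m, (-1) ^ k * (b k - hb A1 i k)| ≤ K * sg i

/-- special block -/
def Ev (A1 K : ℝ) (l : ℕ) (b : ℕ → ℝ) : Prop :=
  |b 0 - A1| ≤ K ∧ ∀ i ∈ range l, EvB A1 K i b

/-- the global shift -/
noncomputable def hg (A1 : ℝ) (k : ℕ) : ℝ := if k = 0 then A1 else hb A1 (Nat.log 2 k) k

theorem hg_eq (A1 : ℝ) (i k : ℕ) (hk : k ∈ Ico (2 ^ i) (2 ^ (i + 1))) : hg A1 k = hb A1 i k := by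
  rw [Finset.mem_Ico] at hk
  have hpos : 0 < 2 ^ i := by positivity
  unfold hg
  rw [if_neg (by omega)]
  have : Nat.log 2 k = i := Nat.log_eq_of_pow_le_of_lt_pow hk.1 hk.2
  rw [this]

theorem hg_nonneg {A1 : ℝ} (hA1 : 0 ≤ A1) (k : ℕ) : 0 ≤ hg A1 k := by
  unfold hg hb
  split_ifs
  · exact hA1
  · exact div_nonneg hA1 (sg_pos _).le
  · exact le_rfl

theorem hg_odd {A1 : ℝ} {k : ℕ} (hk : ¬ Even k) : hg A1 k = 0 := by
  unfold hg hb
  have : k ≠ 0 := by rintro rfl; exact hk Even.zero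
  rw [if_neg this, if_neg hk]

theorem sum_dyadic (f : ℕ → ℝ) (l : ℕ) :
    ∑ k ∈ Ico 0 (2 ^ l), f k = f 0 + ∑ i ∈ range l, ∑ k ∈ Ico (2 ^ i) (2 ^ (i + 1)), f k := by
  induction l with
  | zero => simp
  | succ l ih =>
    rw [Finset.sum_range_succ, ← add_assoc, ← ih, Finset.sum_Ico_consecutive]
    · exact Nat.zero_le _
    · exact Nat.pow_le_pow_right (by norm_num) (by omega)

theorem sqrt2_lo : (1.4 : ℝ) ≤ Real.sqrt 2 := by
  rw [show (1.4 : ℝ) = Real.sqrt (1.4 ^ 2) by rw [Real.sqrt_sq (by norm_num)]]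
  exact Real.sqrt_le_sqrt (by norm_num)

theorem sqrt2_hi : Real.sqrt 2 ≤ 1.5 := by
  rw [show (1.5 : ℝ) = Real.sqrt (1.5 ^ 2) by rw [Real.sqrt_sq (by norm_num)]]
  exact Real.sqrt_le_sqrt (by norm_num)

theorem sg_succ (j : ℕ) : sg (j + 1) = sg j * Real.sqrt 2 := by unfold sg; rw [pow_succ]

theorem one_le_sg (j : ℕ) : 1 ≤ sg j := by
  unfold sg
  exact one_le_pow₀ (by have := sqrt2_lo; linarith)

theorem sum_sg_le (n : ℕ) : ∑ i ∈ range n, sg i ≤ 3 * sg n := by
  induction n with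
  | zero => simp [(sg_pos 0).le]
  | succ n ih =>
    rw [Finset.sum_range_succ, sg_succ]
    have := sg_pos n
    have := sqrt2_lo
    nlinarith

theorem sum_inv_sg_le (m n : ℕ) (hmn : m ≤ n) :
    ∑ i ∈ Ico m n, 1 / sg i ≤ 4 * (1 / sg m - 1 / sg n) := by
  induction n, hmn using Nat.le_induction with
  | base => simp
  | succ n hmn ih =>
    rw [Finset.sum_Ico_succ_top hmn]
    have h1 : 1 / sg (n + 1) ≤ 0.72 * (1 / sg n) := by
      rw [sg_succ]
      have h2 := sg_pos n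
      have h3 := sqrt2_lo
      rw [mul_one_div, div_le_div_iff₀ (by positivity) h2]
      nlinarith
    have : 0 < 1 / sg n := by have := sg_pos n; positivity
    linarith

/-- `y^{2^i}` is small when `y ≤ 1 - 2^{-(j+1)}` and `i > j`. -/
theorem pow_small (y : ℝ) (hy0 : 0 ≤ y) (j i : ℕ) (hy : y ≤ 1 - (1 / 2) ^ (j + 1)) :
    y ^ (2 ^ i) ≤ rr (j + 1) / rr i := by
  have h1 : y ≤ Real.exp (-(1 / 2) ^ (j + 1)) := by
    refine hy.trans ?_
    have := Real.add_one_le_exp (-(1 / 2 : ℝ) ^ (j + 1))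
    linarith
  have h2 : y ^ (2 ^ i) ≤ Real.exp (-(rr i / rr (j + 1))) := by
    calc y ^ (2 ^ i) ≤ Real.exp (-(1 / 2) ^ (j + 1)) ^ (2 ^ i) := pow_le_pow_left₀ hy0 h1 _
      _ = Real.exp (-(rr i / rr (j + 1))) := by
          rw [← Real.exp_nat_mul]
          congr 1
          unfold rr
          push_cast
          rw [div_pow, one_pow]
          ring
  refine h2.trans ?_
  have h3 : 0 < rr i / rr (j + 1) := div_pos (rr_pos _) (rr_pos _)
  have h4 : rr i / rr (j + 1) ≤ Real.exp (rr i / rr (j + 1)) := by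
    have := Real.add_one_le_exp (rr i / rr (j + 1))
    linarith
  rw [Real.exp_neg]
  calc (Real.exp (rr i / rr (j + 1)))⁻¹ ≤ (rr i / rr (j + 1))⁻¹ := inv_anti₀ h3 h4
    _ = rr (j + 1) / rr i := by rw [inv_div]

theorem sum_weight (l j : ℕ) (hj : j < l) (y : ℝ) (hy0 : 0 ≤ y) (hy : y ≤ 1 - (1 / 2) ^ (j + 1)) :
    ∑ i ∈ range l, sg i * y ^ (2 ^ i) ≤ 10 * sg j := by
  have hy1 : y ≤ 1 := by
    have : (0 : ℝ) < (1 / 2) ^ (j + 1) := by positivity
    linarith
  have hsplit : ∑ i ∈ range l, sg i * y ^ (2 ^ i) = ∑ i ∈ range (j + 1), sg i * y ^ (2 ^ i) +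
      ∑ i ∈ Ico (j + 1) l, sg i * y ^ (2 ^ i) := by
    rw [Finset.sum_range_add_sum_Ico _ (by omega)]
  rw [hsplit]
  have h1 : ∑ i ∈ range (j + 1), sg i * y ^ (2 ^ i) ≤ 3 * sg (j + 1) := by
    refine le_trans (Finset.sum_le_sum fun i _ => ?_) (sum_sg_le (j + 1))
    have : y ^ (2 ^ i) ≤ 1 := pow_le_one₀ hy0 hy1
    have := sg_pos i
    nlinarith
  have h2 : ∑ i ∈ Ico (j + 1) l, sg i * y ^ (2 ^ i) ≤ rr (j + 1) * (4 * (1 / sg (j + 1))) := by
    calc ∑ i ∈ Ico (j + 1) l, sg i * y ^ (2 ^ i) ≤ ∑ i ∈ Ico (j + 1) l, rr (j + 1) * (1 / sg i) := by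
          apply Finset.sum_le_sum
          intro i _
          have h3 := pow_small y hy0 j i hy
          have h4 := sg_pos i
          calc sg i * y ^ (2 ^ i) ≤ sg i * (rr (j + 1) / rr i) :=
                mul_le_mul_of_nonneg_left h3 h4.le
            _ = rr (j + 1) * (1 / sg i) := by
                rw [← sg_sq i]; field_simp
      _ = rr (j + 1) * ∑ i ∈ Ico (j + 1) l, 1 / sg i := by rw [Finset.mul_sum]
      _ ≤ rr (j + 1) * (4 * (1 / sg (j + 1))) := by
          apply mul_le_mul_of_nonneg_left _ (rr_pos _).le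
          refine (sum_inv_sg_le (j + 1) l (by omega)).trans ?_
          have : 0 < 1 / sg l := by have := sg_pos l; positivity
          linarith
  have h3 : rr (j + 1) * (4 * (1 / sg (j + 1))) = 4 * sg (j + 1) := by
    have := sg_pos (j + 1)
    rw [← sg_sq]; field_simp
  rw [h3] at h2
  have h4 : sg (j + 1) ≤ 1.42 * sg j := by
    rw [sg_succ]
    have h5 : Real.sqrt 2 ≤ 1.42 := by
      rw [show (1.42 : ℝ) = Real.sqrt (1.42 ^ 2) by rw [Real.sqrt_sq (by norm_num)]]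
      exact Real.sqrt_le_sqrt (by norm_num)
    have := sg_pos j
    nlinarith
  have := sg_pos j
  linarith

section

variable {A1 K : ℝ} {l : ℕ} {b : ℕ → ℝ}

theorem eps_pow_even {ε : ℝ} (hε : ε = 1 ∨ ε = -1) {k : ℕ} (hk : Even k) : ε ^ k = 1 := by
  rcases hε with h | h
  · rw [h, one_pow]
  · rw [h, hk.neg_one_pow]

theorem abs_eps_pow {ε : ℝ} (hε : ε = 1 ∨ ε = -1) (k : ℕ) : |ε ^ k| = 1 := by
  rw [abs_pow]
  rcases hε with h | h
  · rw [h, abs_one, one_pow]
  · rw [h, abs_neg, abs_one, one_pow]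

/-- partial sums of the noise on a block -/
theorem Ev.block (h : Ev A1 K l b) {ε : ℝ} (hε : ε = 1 ∨ ε = -1) {i : ℕ} (hi : i < l) {m : ℕ}
    (hm1 : 2 ^ i ≤ m) (hm2 : m ≤ 2 ^ (i + 1)) :
    |∑ k ∈ Ico (2 ^ i) m, ε ^ k * (b k - hg A1 k)| ≤ K * sg i := by
  have h1 := h.2 i (Finset.mem_range.mpr hi) m (Finset.mem_Icc.mpr ⟨hm1, hm2⟩)
  have h2 : ∑ k ∈ Ico (2 ^ i) m, ε ^ k * (b k - hg A1 k) =
      ∑ k ∈ Ico (2 ^ i) m, ε ^ k * (b k - hb A1 i k) := by
    apply Finset.sum_congr rfl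
    intro k hk
    rw [Finset.mem_Ico] at hk
    rw [hg_eq A1 i k (Finset.mem_Ico.mpr ⟨hk.1, by omega⟩)]
  rw [h2]
  rcases hε with h3 | h3
  · rw [h3]
    simp only [one_pow, one_mul]
    exact h1.1
  · rw [h3]
    exact h1.2

/-- the noise part is small -/
theorem Ev.noise (h : Ev A1 K l b) (hK : 0 ≤ K) {ε : ℝ} (hε : ε = 1 ∨ ε = -1) {j : ℕ} (hj : j < l)
    (y : ℝ) (hy0 : 0 ≤ y) (hy : y ≤ 1 - (1 / 2) ^ (j + 1)) :
    |∑ k ∈ Ico 0 (2 ^ l), ε ^ k * (b k - hg A1 k) * y ^ k| ≤ 11 * K * sg j := by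
  have hy1 : y ≤ 1 := by
    have : (0 : ℝ) < (1 / 2) ^ (j + 1) := by positivity
    linarith
  rw [sum_dyadic]
  have h0 : |ε ^ 0 * (b 0 - hg A1 0) * y ^ 0| ≤ K := by
    simp only [pow_zero, one_mul, mul_one]
    have : hg A1 0 = A1 := by unfold hg; rw [if_pos rfl]
    rw [this]; exact h.1
  have h1 : ∀ i ∈ range l, |∑ k ∈ Ico (2 ^ i) (2 ^ (i + 1)), ε ^ k * (b k - hg A1 k) * y ^ k| ≤
      K * (sg i * y ^ (2 ^ i)) := by
    intro i hi
    rw [Finset.mem_range] at hi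
    have h2 := abel_anti (fun k => ε ^ k * (b k - hg A1 k)) (fun k => y ^ k) (2 ^ i) (K * sg i)
      (2 ^ (i + 1)) (Nat.pow_le_pow_right (by norm_num) (by omega))
      (fun k _ _ => pow_nonneg hy0 k)
      (fun k _ _ => by
        have := pow_nonneg hy0 k
        rw [pow_succ]; nlinarith)
      (fun m hm1 hm2 => h.block hε hi hm1 hm2)
    rw [mul_assoc] at h2
    exact h2
  calc _ ≤ |ε ^ 0 * (b 0 - hg A1 0) * y ^ 0| +
        |∑ i ∈ range l, ∑ k ∈ Ico (2 ^ i) (2 ^ (i + 1)), ε ^ k * (b k - hg A1 k) * y ^ k| :=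
        abs_add_le _ _
    _ ≤ K + ∑ i ∈ range l, K * (sg i * y ^ (2 ^ i)) := by
        apply add_le_add h0
        exact (Finset.abs_sum_le_sum_abs _ _).trans (Finset.sum_le_sum h1)
    _ = K + K * ∑ i ∈ range l, sg i * y ^ (2 ^ i) := by rw [Finset.mul_sum]
    _ ≤ K * sg j + K * (10 * sg j) := by
        apply add_le_add
        · have := one_le_sg j; nlinarith
        · exact mul_le_mul_of_nonneg_left (sum_weight l j hj y hy0 hy) hK
    _ = 11 * K * sg j := by ring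

/-- the shift part is large -/
theorem shift_large (hA1 : 0 ≤ A1) {ε : ℝ} (hε : ε = 1 ∨ ε = -1) {j : ℕ} (hj : j < l)
    (y : ℝ) (hy : 1 - (1 / 2) ^ j ≤ y) (hy1 : y ≤ 1) :
    A1 * sg j / 16 ≤ ∑ k ∈ Ico 0 (2 ^ l), ε ^ k * hg A1 k * y ^ k := by
  have hy0 : 0 ≤ y := by
    have : ((1 : ℝ) / 2) ^ j ≤ 1 := pow_le_one₀ (by norm_num) (by norm_num)
    linarith
  have hnn : ∀ k, 0 ≤ ε ^ k * hg A1 k * y ^ k := by
    intro k
    by_cases hk : Even k
    · rw [eps_pow_even hε hk, one_mul]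
      exact mul_nonneg (hg_nonneg hA1 k) (pow_nonneg hy0 k)
    · rw [hg_odd hk, mul_zero, zero_mul]
  rcases Nat.lt_or_ge j 2 with hj2 | hj2
  · have h1 : ε ^ 0 * hg A1 0 * y ^ 0 ≤ ∑ k ∈ Ico 0 (2 ^ l), ε ^ k * hg A1 k * y ^ k :=
      Finset.single_le_sum (f := fun k => ε ^ k * hg A1 k * y ^ k) (fun k _ => hnn k)
        (Finset.mem_Ico.mpr ⟨le_rfl, by positivity⟩)
    refine le_trans ?_ h1
    have h2 : hg A1 0 = A1 := by unfold hg; rw [if_pos rfl]
    rw [h2]
    simp only [pow_zero, one_mul, mul_one]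
    have h3 : sg j ≤ 2 := by
      have h4 := sqrt2_hi
      interval_cases j
      · unfold sg; norm_num
      · unfold sg; rw [pow_one]; linarith
    nlinarith
  · obtain ⟨i, rfl⟩ : ∃ i, j = i + 2 := ⟨j - 2, by omega⟩
    have hinj : Function.Injective (fun k : ℕ => 2 * k) := fun a b hab => by
      simp only at hab; omega
    have hsub : (Ico (2 ^ i) (2 ^ (i + 1))).image (fun k => 2 * k) ⊆ Ico 0 (2 ^ l) := by
      intro k hk
      rw [Finset.mem_image] at hk
      obtain ⟨k', hk', rfl⟩ := hk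
      rw [Finset.mem_Ico] at hk' ⊢
      refine ⟨Nat.zero_le _, ?_⟩
      have h1 : 2 ^ (i + 2) ≤ 2 ^ l := Nat.pow_le_pow_right (by norm_num) (by omega)
      have h2 : 2 ^ (i + 2) = 2 * 2 ^ (i + 1) := by rw [pow_succ]; ring
      omega
    have h1 : ∑ k ∈ (Ico (2 ^ i) (2 ^ (i + 1))).image (fun k => 2 * k), ε ^ k * hg A1 k * y ^ k ≤
        ∑ k ∈ Ico 0 (2 ^ l), ε ^ k * hg A1 k * y ^ k :=
      Finset.sum_le_sum_of_subset_of_nonneg hsub fun k _ _ => hnn k
    refine le_trans ?_ h1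
    rw [Finset.sum_image (fun a _ b _ hab => hinj hab)]
    have hterm : ∀ k ∈ Ico (2 ^ i) (2 ^ (i + 1)), A1 / sg (i + 1) * (1 / 4) ≤
        ε ^ (2 * k) * hg A1 (2 * k) * y ^ (2 * k) := by
      intro k hk
      rw [Finset.mem_Ico] at hk
      have he : Even (2 * k) := even_two_mul k
      have h2k : 2 * k ∈ Ico (2 ^ (i + 1)) (2 ^ (i + 1 + 1)) := by
        rw [Finset.mem_Ico]
        have e1 : 2 ^ (i + 1) = 2 * 2 ^ i := by rw [pow_succ]; ring
        have e2 : 2 ^ (i + 1 + 1) = 2 * 2 ^ (i + 1) := by rw [pow_succ]; ring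
        omega
      rw [eps_pow_even hε he, one_mul, hg_eq A1 (i + 1) (2 * k) h2k]
      unfold hb
      rw [if_pos he]
      apply mul_le_mul_of_nonneg_left _ (div_nonneg hA1 (sg_pos _).le)
      rw [Finset.mem_Ico] at h2k
      calc (1 : ℝ) / 4 ≤ (1 - (1 / 2) ^ (i + 2)) ^ (2 ^ (i + 2)) := pow_two_pow_ge (i + 2) (by omega)
        _ ≤ y ^ (2 ^ (i + 2)) := by
            apply pow_le_pow_left₀ _ hy
            have : ((1 : ℝ) / 2) ^ (i + 2) ≤ 1 := pow_le_one₀ (by norm_num) (by norm_num)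
            linarith
        _ ≤ y ^ (2 * k) := pow_le_pow_of_le_one hy0 hy1 h2k.2.le
    refine le_trans ?_ (Finset.sum_le_sum hterm)
    rw [Finset.sum_const, Nat.card_Ico, nsmul_eq_mul]
    have e3 : 2 ^ (i + 1) - 2 ^ i = 2 ^ i := by
      have : 2 ^ (i + 1) = 2 * 2 ^ i := by rw [pow_succ]; ring
      omega
    rw [e3]
    push_cast
    have e4 : (2 : ℝ) ^ i = sg i * sg i := by rw [sg_mul_self]; rfl
    have e5 : sg (i + 2) = sg i * 2 := by
      rw [sg_succ, sg_succ, mul_assoc, Real.mul_self_sqrt (by norm_num)]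
    rw [e4, e5, sg_succ]
    have hs := sg_pos i
    have hq : Real.sqrt 2 ≤ 1.5 := sqrt2_hi
    have hq0 : 0 < Real.sqrt 2 := by positivity
    have e6 : sg i * sg i * (A1 / (sg i * Real.sqrt 2) * (1 / 4)) = A1 * sg i / (4 * Real.sqrt 2) := by
      field_simp
    rw [e6, div_le_div_iff₀ (by norm_num) (by positivity)]
    have : 0 ≤ A1 * sg i := by positivity
    nlinarith

/-- A special block polynomial is large in modulus on all scales up to `2^l`. -/
theorem Ev.large (h : Ev A1 K l b) (hK : 0 ≤ K) {A : ℝ} (hA1 : 16 * (A + 11 * K) < A1)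
    (hA : 0 ≤ A) {ε : ℝ} (hε : ε = 1 ∨ ε = -1) {j : ℕ} (hj : j < l)
    (y : ℝ) (hy : 1 - (1 / 2) ^ j ≤ y) (hy1 : y ≤ 1 - (1 / 2) ^ (j + 1)) :
    A * sg j < ∑ k ∈ Ico 0 (2 ^ l), ε ^ k * b k * y ^ k := by
  have hy0 : 0 ≤ y := by
    have : ((1 : ℝ) / 2) ^ j ≤ 1 := pow_le_one₀ (by norm_num) (by norm_num)
    linarith
  have hy1' : y ≤ 1 := by
    have : (0 : ℝ) < (1 / 2) ^ (j + 1) := by positivity
    linarith
  have h1 := h.noise hK hε hj y hy0 hy1
  have h2 := shift_large (l := l) (A1 := A1) (by nlinarith) hε hj y hy hy1'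
  have h3 : ∑ k ∈ Ico 0 (2 ^ l), ε ^ k * b k * y ^ k =
      ∑ k ∈ Ico 0 (2 ^ l), ε ^ k * hg A1 k * y ^ k +
      ∑ k ∈ Ico 0 (2 ^ l), ε ^ k * (b k - hg A1 k) * y ^ k := by
    rw [← Finset.sum_add_distrib]
    apply Finset.sum_congr rfl
    intro k _; ring
  rw [h3]
  rw [abs_le] at h1
  have := sg_pos j
  nlinarith [h1.1]

/-- Partial sums of a special block. -/
theorem Ev.partial_le (h : Ev A1 K l b) (hK : 0 ≤ K) (hA1 : 0 ≤ A1)
    {ε : ℝ} (hε : ε = 1 ∨ ε = -1) {m : ℕ} (hm : m ≤ 2 ^ l) :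
    |∑ k ∈ Ico 0 m, ε ^ k * b k| ≤ 4 * (A1 + K) * sg l := by
  -- noise part
  have hnoise : ∀ l' ≤ l, ∀ m ≤ 2 ^ l', |∑ k ∈ Ico 0 m, ε ^ k * (b k - hg A1 k)| ≤
      K * (1 + ∑ i ∈ range l', sg i) := by
    intro l'
    induction l' with
    | zero =>
      intro _ m hm
      simp only [pow_zero] at hm
      rcases Nat.eq_zero_or_pos m with h0 | h0
      · subst h0; simp [hK]
      · have : m = 1 := by omega
        subst this
        simp only [Nat.Ico_succ_singleton, Finset.sum_singleton, Finset.range_zero,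
          Finset.sum_empty, add_zero, mul_one]
        have : hg A1 0 = A1 := by unfold hg; rw [if_pos rfl]
        simp only [pow_zero, one_mul]
        rw [this]; exact h.1
    | succ l' ih =>
      intro hl' m hm
      rcases Nat.lt_or_ge (2 ^ l') m with h1 | h1
      · rw [← Finset.sum_Ico_consecutive _ (Nat.zero_le (2 ^ l')) h1.le]
        rw [Finset.sum_range_succ]
        calc _ ≤ _ := abs_add_le _ _
          _ ≤ K * (1 + ∑ i ∈ range l', sg i) + K * sg l' :=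
            add_le_add (ih (by omega) _ le_rfl) (h.block hε (by omega) h1.le hm)
          _ = _ := by ring
      · refine (ih (by omega) m h1).trans ?_
        apply mul_le_mul_of_nonneg_left _ hK
        rw [Finset.sum_range_succ]
        have := sg_pos l'
        linarith
  have hshift : |∑ k ∈ Ico 0 m, ε ^ k * hg A1 k| ≤ A1 * (1 + ∑ i ∈ range l, sg i) := by
    calc |∑ k ∈ Ico 0 m, ε ^ k * hg A1 k| ≤ ∑ k ∈ Ico 0 m, |ε ^ k * hg A1 k| :=
          Finset.abs_sum_le_sum_abs _ _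
      _ = ∑ k ∈ Ico 0 m, hg A1 k := by
          apply Finset.sum_congr rfl
          intro k _
          rw [abs_mul, abs_eps_pow hε, one_mul, abs_of_nonneg (hg_nonneg hA1 k)]
      _ ≤ ∑ k ∈ Ico 0 (2 ^ l), hg A1 k :=
          Finset.sum_le_sum_of_subset_of_nonneg (Finset.Ico_subset_Ico le_rfl hm)
            fun k _ _ => hg_nonneg hA1 k
      _ = hg A1 0 + ∑ i ∈ range l, ∑ k ∈ Ico (2 ^ i) (2 ^ (i + 1)), hg A1 k := sum_dyadic _ _
      _ ≤ A1 + ∑ i ∈ range l, A1 * sg i := by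
          apply add_le_add
          · unfold hg; rw [if_pos rfl]
          · apply Finset.sum_le_sum
            intro i _
            calc ∑ k ∈ Ico (2 ^ i) (2 ^ (i + 1)), hg A1 k
                ≤ ∑ k ∈ Ico (2 ^ i) (2 ^ (i + 1)), A1 / sg i := by
                  apply Finset.sum_le_sum
                  intro k hk
                  rw [hg_eq A1 i k hk]
                  unfold hb
                  split_ifs
                  · exact le_rfl
                  · exact div_nonneg hA1 (sg_pos i).le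
              _ = A1 * sg i := by
                  rw [Finset.sum_const, Nat.card_Ico, nsmul_eq_mul]
                  have e3 : 2 ^ (i + 1) - 2 ^ i = 2 ^ i := by
                    have : 2 ^ (i + 1) = 2 * 2 ^ i := by rw [pow_succ]; ring
                    omega
                  rw [e3]
                  push_cast
                  have e4 : (2 : ℝ) ^ i = sg i * sg i := by rw [sg_mul_self]; rfl
                  rw [e4]
                  have := sg_pos i
                  field_simp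
      _ = A1 * (1 + ∑ i ∈ range l, sg i) := by rw [← Finset.mul_sum]; ring
  have hsum : 1 + ∑ i ∈ range l, sg i ≤ 4 * sg l := by
    have := sum_sg_le l
    have := one_le_sg l
    linarith
  have h3 : ∑ k ∈ Ico 0 m, ε ^ k * b k = ∑ k ∈ Ico 0 m, ε ^ k * hg A1 k +
      ∑ k ∈ Ico 0 m, ε ^ k * (b k - hg A1 k) := by
    rw [← Finset.sum_add_distrib]
    apply Finset.sum_congr rfl
    intro k _; ring
  rw [h3]
  calc _ ≤ _ := abs_add_le _ _
    _ ≤ A1 * (1 + ∑ i ∈ range l, sg i) + K * (1 + ∑ i ∈ range l, sg i) :=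
        add_le_add hshift (hnoise l le_rfl m hm)
    _ = (A1 + K) * (1 + ∑ i ∈ range l, sg i) := by ring
    _ ≤ (A1 + K) * (4 * sg l) := mul_le_mul_of_nonneg_left hsum (by linarith)
    _ = _ := by ring

end

end Pool.Agent.H993R2.Kac
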