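import Pool.Agent.H993R2.Kac.Special

set_option autoImplicit false
set_option maxHeartbeats 1000000
set_option linter.unusedSectionVars false

/-!
The special block event: lower bound for its probability.
-/

namespace Pool.Agent.H993R2.Kac

open MeasureTheory ProbabilityTheory Finset

variable {Ω : Type*} [MeasurableSpace Ω] {P : Measure Ω}

theorem measurableSet_EvB {𝓩 : Type*} [MeasurableSpace 𝓩] (A1 K : ℝ) (i : ℕ) {b : 𝓩 → ℕ → ℝ}
    (hb' : ∀ k, Measurable (fun z => b z k)) : MeasurableSet {z | EvB A1 K i (b z)} := by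
  have hset : {z | EvB A1 K i (b z)} = ⋂ m ∈ Icc (2 ^ i) (2 ^ (i + 1)),
      ({z | |∑ k ∈ Ico (2 ^ i) m, (b z k - hb A1 i k)| ≤ K * sg i} ∩
        {z | |∑ k ∈ Ico (2 ^ i) m, (-1) ^ k * (b z k - hb A1 i k)| ≤ K * sg i}) := by
    ext z
    rw [Set.mem_iInter₂]
    rfl
  rw [hset]
  apply Finset.measurableSet_biInter
  intro m _
  apply MeasurableSet.inter
  · apply measurableSet_le _ measurable_const
    apply Measurable.abs
    exact Finset.measurable_sum _ fun k _ => (hb' k).sub_const _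
  · apply measurableSet_le _ measurable_const
    apply Measurable.abs
    exact Finset.measurable_sum _ fun k _ => ((hb' k).sub_const _).const_mul _

theorem measurableSet_Ev {𝓩 : Type*} [MeasurableSpace 𝓩] (A1 K : ℝ) (l : ℕ) {b : 𝓩 → ℕ → ℝ}
    (hb' : ∀ k, Measurable (fun z => b z k)) : MeasurableSet {z | Ev A1 K l (b z)} := by
  have hset : {z | Ev A1 K l (b z)} = {z | |b z 0 - A1| ≤ K} ∩
      ⋂ i ∈ range l, {z | EvB A1 K i (b z)} := by
    ext z
    rw [Set.mem_inter_iff, Set.mem_iInter₂]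
    rfl
  rw [hset]
  apply MeasurableSet.inter
  · exact measurableSet_le (((hb' 0).sub_const _).abs) measurable_const
  · apply Finset.measurableSet_biInter
    intro i _
    exact measurableSet_EvB A1 K i hb'

theorem EvB_congr {A1 K : ℝ} {i : ℕ} {b b' : ℕ → ℝ}
    (h : ∀ k ∈ Ico (2 ^ i) (2 ^ (i + 1)), b k = b' k) (hE : EvB A1 K i b) : EvB A1 K i b' := by
  intro m hm
  have hm' := Finset.mem_Icc.mp hm
  have h1 := hE m hm
  have e1 : ∑ k ∈ Ico (2 ^ i) m, (b' k - hb A1 i k) = ∑ k ∈ Ico (2 ^ i) m, (b k - hb A1 i k) := by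
    apply Finset.sum_congr rfl
    intro k hk
    rw [Finset.mem_Ico] at hk
    rw [h k (Finset.mem_Ico.mpr ⟨hk.1, by omega⟩)]
  have e2 : ∑ k ∈ Ico (2 ^ i) m, (-1) ^ k * (b' k - hb A1 i k) =
      ∑ k ∈ Ico (2 ^ i) m, (-1) ^ k * (b k - hb A1 i k) := by
    apply Finset.sum_congr rfl
    intro k hk
    rw [Finset.mem_Ico] at hk
    rw [h k (Finset.mem_Ico.mpr ⟨hk.1, by omega⟩)]
  rw [e1, e2]; exact h1

theorem Ev_congr {A1 K : ℝ} {l : ℕ} {b b' : ℕ → ℝ}
    (h : ∀ k ∈ Ico 0 (2 ^ l), b k = b' k) (hE : Ev A1 K l b) : Ev A1 K l b' := by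
  refine ⟨?_, ?_⟩
  · rw [← h 0 (Finset.mem_Ico.mpr ⟨le_rfl, by positivity⟩)]; exact hE.1
  · intro i hi
    have hi' := Finset.mem_range.mp hi
    apply EvB_congr _ (hE.2 i hi)
    intro k hk
    rw [Finset.mem_Ico] at hk
    apply h k
    rw [Finset.mem_Ico]
    have : 2 ^ (i + 1) ≤ 2 ^ l := Nat.pow_le_pow_right (by norm_num) (by omega)
    exact ⟨Nat.zero_le _, by omega⟩

variable {η : ℕ → Ω → ℝ}

theorem kolm_half (h : Std η P) (c : ℕ → ℝ) (s t : ℕ) (v : ℝ) (hv : 0 < v)
    (hc : ∑ k ∈ Ico s t, c k ^ 2 ≤ v ^ 2) :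
    P.real {ω | ∃ m, s ≤ m ∧ m ≤ t ∧ 3 * v ≤ |lf η c (Ico s m) ω|} ≤ 1 / 9 := by
  refine (h.kolm c s t (lam := 3 * v) (by positivity)).trans ?_
  rw [div_le_iff₀ (by positivity)]
  calc _ ≤ v ^ 2 := hc
    _ = 1 / 9 * (3 * v) ^ 2 := by ring

/-- Gaussian measure of `[a, a+1]` is positive. -/
theorem gauss_Icc_pos (a : ℝ) : 0 < (gaussianReal 0 1).real (Set.Icc a (a + 1)) := by
  have h1 : (gaussianReal 0 1) (Set.Icc a (a + 1)) ≠ 0 := by
    intro h0
    have h2 : (volume : Measure ℝ) (Set.Icc a (a + 1)) = 0 :=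
      gaussianReal_absolutelyContinuous' 0 one_ne_zero h0
    rw [Real.volume_Icc] at h2
    simp at h2
  rw [Measure.real, ENNReal.toReal_pos_iff]
  exact ⟨pos_iff_ne_zero.mpr h1, measure_lt_top _ _⟩

/-- The main estimate on one block, `i ≥ 1`. -/
theorem prob_EvB_pos (h : Std η P) (A1 : ℝ) (i : ℕ) :
    (2 / 3) * (gaussianReal 0 1).real (Set.Icc (A1 / Real.sqrt 2) (A1 / Real.sqrt 2 + 1)) ≤
      P.real {ω | EvB A1 7 (i + 1) (fun k => η k ω)} := by
  have hP := h.prob
  set n : ℝ := sg i with hn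
  have hnpos : 0 < n := sg_pos i
  set S : Finset ℕ := Ico (2 ^ (i + 1)) (2 ^ (i + 1 + 1)) with hS
  set e : ℕ → ℝ := fun k => if Even k then 1 / n else 0 with he
  set a : ℝ := A1 / Real.sqrt 2 with ha
  have hs2 : 0 < Real.sqrt 2 := by positivity
  have hsgi : sg (i + 1) = n * Real.sqrt 2 := sg_succ i
  -- `∑ e² = 1`
  have hcard : ((S.filter Even).card : ℝ) = n ^ 2 := by
    have himg : S.filter Even = (Ico (2 ^ i) (2 ^ (i + 1))).image (fun k => 2 * k) := by
      ext k
      rw [Finset.mem_filter, Finset.mem_image, hS, Finset.mem_Ico]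
      have e1 : 2 ^ (i + 1) = 2 * 2 ^ i := by rw [pow_succ]; ring
      have e2 : 2 ^ (i + 1 + 1) = 2 * 2 ^ (i + 1) := by rw [pow_succ]; ring
      constructor
      · rintro ⟨h1, ⟨k', hk'⟩⟩
        refine ⟨k', Finset.mem_Ico.mpr ?_, by omega⟩
        omega
      · rintro ⟨k', hk', rfl⟩
        rw [Finset.mem_Ico] at hk'
        exact ⟨by omega, even_two_mul k'⟩
    rw [himg, Finset.card_image_of_injective _ (fun a b hab => by
      have : 2 * a = 2 * b := hab
      omega),
      Nat.card_Ico]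
    have e3 : 2 ^ (i + 1) - 2 ^ i = 2 ^ i := by
      have : 2 ^ (i + 1) = 2 * 2 ^ i := by rw [pow_succ]; ring
      omega
    rw [e3, hn, sg_sq]
    unfold rr
    push_cast
    rfl
  have hesq : ∑ k ∈ S, e k ^ 2 = 1 := by
    have : ∀ k ∈ S, e k ^ 2 = if Even k then (1 / n) ^ 2 else 0 := by
      intro k _
      rw [he]
      simp only
      split_ifs <;> simp
    rw [Finset.sum_congr rfl this, ← Finset.sum_filter, Finset.sum_const, nsmul_eq_mul, hcard]
    field_simp
  set ξ : Ω → ℝ := lf η e S with hξ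
  set β : ℕ → ℕ → ℝ := fun k m => (if m = k then 1 else 0) - e k * e m with hβ
  have hgp : ∀ k ∈ S, ∀ ω, lf η (β k) S ω = η k ω - e k * ξ ω := by
    intro k hk ω
    rw [hξ, hβ]
    unfold lf
    simp only
    rw [Finset.mul_sum]
    have : ∀ m ∈ S, ((if m = k then (1 : ℝ) else 0) - e k * e m) * η m ω =
        (if m = k then η m ω else 0) - e k * (e m * η m ω) := by
      intro m _
      split_ifs <;> ring
    rw [Finset.sum_congr rfl this, Finset.sum_sub_distrib, Finset.sum_ite_eq' S k]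
    rw [if_pos hk]
  -- independence of ξ and g^⊥
  have hjoint : HasGaussianLaw (fun ω => ((fun _ : Unit => ξ ω), (fun k : S => lf η (β k) S ω))) P := by
    have h1 := (h.joint S).map_fun
      ((ContinuousLinearMap.pi (fun _ : Unit => Std.L e S)).prod
        (ContinuousLinearMap.pi (fun k : S => Std.L (β k) S)))
    have h2 : (fun ω => ((ContinuousLinearMap.pi (fun _ : Unit => Std.L e S)).prod
        (ContinuousLinearMap.pi (fun k : S => Std.L (β k) S))) (fun (i : S) => η i ω)) =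
        (fun ω => ((fun _ : Unit => ξ ω), (fun k : S => lf η (β k) S ω))) := by
      ext ω j
      · simp only [ContinuousLinearMap.prod_apply, ContinuousLinearMap.coe_pi', Std.L_apply]
        rfl
      · simp only [ContinuousLinearMap.prod_apply, ContinuousLinearMap.coe_pi', Std.L_apply]
    rw [← h2]
    exact h1
  have hind := hjoint.indepFun_of_covariance_eval (X := fun _ : Unit => ξ)
    (Y := fun k : S => lf η (β k) S) (by
      intro _ k
      show cov[lf η e S, lf η (β k) S; P] = 0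
      rw [h.cov_lf]
      have h3 : ∀ m ∈ S, e m * β k m = (if m = k then e m else 0) - e k * e m ^ 2 := by
        intro m _
        rw [hβ]
        simp only
        split_ifs <;> ring
      rw [Finset.sum_congr rfl h3, Finset.sum_sub_distrib, Finset.sum_ite_eq' S (k : ℕ),
        if_pos k.2, ← Finset.mul_sum, hesq]
      ring)
  -- the event for g^⊥
  set Q : Set (S → ℝ) := ⋂ m ∈ Icc (2 ^ (i + 1)) (2 ^ (i + 1 + 1)),
    ({x | |∑ k ∈ Ico (2 ^ (i + 1)) m, ex S x k| ≤ 6 * sg (i + 1)} ∩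
      {x | |∑ k ∈ Ico (2 ^ (i + 1)) m, (-1) ^ k * ex S x k| ≤ 6 * sg (i + 1)}) with hQ
  have hQm : MeasurableSet Q := by
    apply Finset.measurableSet_biInter
    intro m _
    apply MeasurableSet.inter
    · apply measurableSet_le _ measurable_const
      apply Measurable.abs
      exact Finset.measurable_sum _ fun k _ => measurable_ex S k
    · apply measurableSet_le _ measurable_const
      apply Measurable.abs
      exact Finset.measurable_sum _ fun k _ => (measurable_ex S k).const_mul _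
  -- sums of `e`
  have hesum : ∀ (ε : ℝ), (ε = 1 ∨ ε = -1) → ∀ m ∈ Icc (2 ^ (i + 1)) (2 ^ (i + 1 + 1)),
      |∑ k ∈ Ico (2 ^ (i + 1)) m, ε ^ k * e k| ≤ n := by
    intro ε hε m hm
    rw [Finset.mem_Icc] at hm
    calc |∑ k ∈ Ico (2 ^ (i + 1)) m, ε ^ k * e k|
        ≤ ∑ k ∈ Ico (2 ^ (i + 1)) m, |ε ^ k * e k| := Finset.abs_sum_le_sum_abs _ _
      _ ≤ ∑ k ∈ S, |ε ^ k * e k| := by
          apply Finset.sum_le_sum_of_subset_of_nonneg
          · exact Finset.Ico_subset_Ico le_rfl hm.2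
          · intro k _ _; positivity
      _ = ∑ k ∈ S, (if Even k then 1 / n else 0) := by
          apply Finset.sum_congr rfl
          intro k _
          rw [abs_mul, abs_eps_pow hε, one_mul, he]
          simp only
          split_ifs
          · exact abs_of_pos (by positivity)
          · exact abs_zero
      _ = n := by
          rw [← Finset.sum_filter, Finset.sum_const, nsmul_eq_mul, hcard]
          field_simp
  -- probability of the complement of the event for g^⊥
  set B1 : Set Ω := {ω | ∃ m, 2 ^ (i + 1) ≤ m ∧ m ≤ 2 ^ (i + 1 + 1) ∧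
    3 * sg (i + 1) ≤ |lf η (fun _ => 1) (Ico (2 ^ (i + 1)) m) ω|} with hB1
  set B2 : Set Ω := {ω | ∃ m, 2 ^ (i + 1) ≤ m ∧ m ≤ 2 ^ (i + 1 + 1) ∧
    3 * sg (i + 1) ≤ |lf η (fun k => (-1) ^ k) (Ico (2 ^ (i + 1)) m) ω|} with hB2
  set B3 : Set Ω := {ω | ∃ m, 2 ^ (i + 1) ≤ m ∧ m ≤ 2 ^ (i + 1 + 1) ∧
    3 * 1 ≤ |lf η e (Ico (2 ^ (i + 1)) m) ω|} with hB3
  have hlen : (((2 ^ (i + 1 + 1) - 2 ^ (i + 1) : ℕ)) : ℝ) = sg (i + 1) ^ 2 := by
    have e3 : 2 ^ (i + 1 + 1) - 2 ^ (i + 1) = 2 ^ (i + 1) := by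
      have : 2 ^ (i + 1 + 1) = 2 * 2 ^ (i + 1) := by rw [pow_succ]; ring
      omega
    rw [e3, sg_sq]; unfold rr; push_cast; rfl
  have hp1 : P.real B1 ≤ 1 / 9 := by
    apply kolm_half h _ _ _ _ (sg_pos _)
    simp only [one_pow, Finset.sum_const, Nat.card_Ico, nsmul_eq_mul, mul_one]
    rw [hlen]
  have hp2 : P.real B2 ≤ 1 / 9 := by
    apply kolm_half h _ _ _ _ (sg_pos _)
    have : ∀ k ∈ Ico (2 ^ (i + 1)) (2 ^ (i + 1 + 1)), (((-1 : ℝ)) ^ k) ^ 2 = 1 := by
      intro k _
      rw [← pow_mul, mul_comm, pow_mul]; norm_num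
    rw [Finset.sum_congr rfl this]
    simp only [Finset.sum_const, Nat.card_Ico, nsmul_eq_mul, mul_one]
    rw [hlen]
  have hp3 : P.real B3 ≤ 1 / 9 := by
    apply kolm_half h _ _ _ 1 one_pos
    rw [one_pow]
    exact hesq.le
  have hQprob : 2 / 3 ≤ P.real {ω | (fun k : S => lf η (β k) S ω) ∈ Q} := by
    have hsub : {ω | (fun k : S => lf η (β k) S ω) ∈ Q}ᶜ ⊆ B1 ∪ (B2 ∪ B3) := by
      intro ω hω
      by_contra hcon
      rw [Set.mem_union, Set.mem_union] at hcon
      push Not at hcon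
      obtain ⟨c1, c2, c3⟩ := hcon
      apply hω
      show (fun k : S => lf η (β k) S ω) ∈ Q
      rw [hQ, Set.mem_iInter₂]
      intro m hm
      have hm' := Finset.mem_Icc.mp hm
      have d1 : |lf η (fun _ => 1) (Ico (2 ^ (i + 1)) m) ω| < 3 * sg (i + 1) := by
        by_contra hc
        exact c1 ⟨m, hm'.1, hm'.2, not_lt.mp hc⟩
      have d2 : |lf η (fun k => (-1) ^ k) (Ico (2 ^ (i + 1)) m) ω| < 3 * sg (i + 1) := by
        by_contra hc
        exact c2 ⟨m, hm'.1, hm'.2, not_lt.mp hc⟩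
      have d3 : |ξ ω| < 3 := by
        by_contra hc
        refine c3 ⟨2 ^ (i + 1 + 1), Nat.pow_le_pow_right (by norm_num) (by omega), le_rfl, ?_⟩
        have := not_lt.mp hc
        simpa using this
      have key : ∀ ε : ℝ, (ε = 1 ∨ ε = -1) →
          |lf η (fun k => ε ^ k) (Ico (2 ^ (i + 1)) m) ω| < 3 * sg (i + 1) →
          |∑ k ∈ Ico (2 ^ (i + 1)) m, ε ^ k * ex S (fun k : S => lf η (β k) S ω) k| ≤
            6 * sg (i + 1) := by
        intro ε hε hd
        have e4 : ∑ k ∈ Ico (2 ^ (i + 1)) m, ε ^ k * ex S (fun k : S => lf η (β k) S ω) k =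
            lf η (fun k => ε ^ k) (Ico (2 ^ (i + 1)) m) ω -
              ξ ω * ∑ k ∈ Ico (2 ^ (i + 1)) m, ε ^ k * e k := by
          unfold lf
          rw [Finset.mul_sum, ← Finset.sum_sub_distrib]
          apply Finset.sum_congr rfl
          intro k hk
          have hkS : k ∈ S := by
            rw [Finset.mem_Ico] at hk
            exact Finset.mem_Ico.mpr ⟨hk.1, by omega⟩
          rw [ex_of_mem hkS]
          have := hgp k hkS ω
          unfold lf at this
          simp only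
          rw [this]; ring
        rw [e4]
        have e5 := hesum ε hε m hm
        calc _ ≤ |lf η (fun k => ε ^ k) (Ico (2 ^ (i + 1)) m) ω| +
              |ξ ω * ∑ k ∈ Ico (2 ^ (i + 1)) m, ε ^ k * e k| := abs_sub _ _
          _ ≤ 3 * sg (i + 1) + 3 * n := by
              apply add_le_add hd.le
              rw [abs_mul]
              exact mul_le_mul d3.le e5 (abs_nonneg _) (by norm_num)
          _ ≤ 6 * sg (i + 1) := by
              rw [hsgi]
              have := sqrt2_lo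
              nlinarith
      refine ⟨?_, ?_⟩
      · have := key 1 (Or.inl rfl) (by simpa using d1)
        simpa using this
      · exact key (-1) (Or.inr rfl) d2
    have hms : MeasurableSet {ω | (fun k : S => lf η (β k) S ω) ∈ Q} :=
      (measurable_pi_lambda _ fun k => h.measurable_lf _ _) hQm
    have h4 : P.real {ω | (fun k : S => lf η (β k) S ω) ∈ Q}ᶜ ≤ 1 / 3 := by
      calc _ ≤ P.real (B1 ∪ (B2 ∪ B3)) := measureReal_mono hsub (measure_ne_top _ _)
        _ ≤ P.real B1 + (P.real B2 + P.real B3) := by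
            refine (measureReal_union_le _ _).trans ?_
            apply add_le_add le_rfl
            exact measureReal_union_le _ _
        _ ≤ 1 / 9 + (1 / 9 + 1 / 9) := add_le_add hp1 (add_le_add hp2 hp3)
        _ = 1 / 3 := by norm_num
    rw [measureReal_compl hms, probReal_univ] at h4
    linarith
  -- probability for ξ
  have hξprob : P.real {ω | (fun _ : Unit => ξ ω) ∈ {x : Unit → ℝ | x () ∈ Set.Icc a (a + 1)}} =
      (gaussianReal 0 1).real (Set.Icc a (a + 1)) := by
    have h1 := h.law_lf e S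
    rw [hesq, Real.toNNReal_one] at h1
    rw [← h1, Measure.real, Measure.real, Measure.map_apply (h.measurable_lf e S)
      measurableSet_Icc]
    rfl
  have hEm : MeasurableSet {x : Unit → ℝ | x () ∈ Set.Icc a (a + 1)} :=
    (measurable_pi_apply ()) measurableSet_Icc
  have hprod := hind.measure_inter_preimage_eq_mul _ _ hEm hQm
  have hfinal : P.real ((fun ω (_ : Unit) => ξ ω) ⁻¹' {x : Unit → ℝ | x () ∈ Set.Icc a (a + 1)} ∩
      (fun ω (k : S) => lf η (β k) S ω) ⁻¹' Q) =
      P.real {ω | (fun _ : Unit => ξ ω) ∈ {x : Unit → ℝ | x () ∈ Set.Icc a (a + 1)}} *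
        P.real {ω | (fun k : S => lf η (β k) S ω) ∈ Q} := by
    rw [Measure.real, hprod, ENNReal.toReal_mul]
    rfl
  have hincl : ((fun ω (_ : Unit) => ξ ω) ⁻¹' {x : Unit → ℝ | x () ∈ Set.Icc a (a + 1)} ∩
      (fun ω (k : S) => lf η (β k) S ω) ⁻¹' Q) ⊆ {ω | EvB A1 7 (i + 1) (fun k => η k ω)} := by
    rintro ω ⟨h1, h2⟩
    have h1' : ξ ω ∈ Set.Icc a (a + 1) := h1
    have h2' : (fun k : S => lf η (β k) S ω) ∈ Q := h2
    rw [hQ, Set.mem_iInter₂] at h2'
    intro m hm
    have h3 := h2' m hm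
    have key : ∀ ε : ℝ, (ε = 1 ∨ ε = -1) →
        |∑ k ∈ Ico (2 ^ (i + 1)) m, ε ^ k * ex S (fun k : S => lf η (β k) S ω) k| ≤
          6 * sg (i + 1) →
        |∑ k ∈ Ico (2 ^ (i + 1)) m, ε ^ k * (η k ω - hb A1 (i + 1) k)| ≤ 7 * sg (i + 1) := by
      intro ε hε hd
      have e4 : ∑ k ∈ Ico (2 ^ (i + 1)) m, ε ^ k * (η k ω - hb A1 (i + 1) k) =
          ∑ k ∈ Ico (2 ^ (i + 1)) m, ε ^ k * ex S (fun k : S => lf η (β k) S ω) k +
            (ξ ω - a) * ∑ k ∈ Ico (2 ^ (i + 1)) m, ε ^ k * e k := by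
        rw [Finset.mul_sum, ← Finset.sum_add_distrib]
        apply Finset.sum_congr rfl
        intro k hk
        have hkS : k ∈ S := by
          rw [Finset.mem_Ico] at hk
          have := (Finset.mem_Icc.mp hm).2
          exact Finset.mem_Ico.mpr ⟨hk.1, by omega⟩
        rw [ex_of_mem hkS, hgp k hkS ω]
        have e6 : hb A1 (i + 1) k = a * e k := by
          unfold hb
          rw [ha, he, hsgi]
          simp only
          split_ifs
          · field_simp
          · ring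
        rw [e6]; ring
      rw [e4]
      have e5 := hesum ε hε m hm
      calc _ ≤ _ := abs_add_le _ _
        _ ≤ 6 * sg (i + 1) + 1 * n := by
            apply add_le_add hd
            rw [abs_mul]
            apply mul_le_mul _ e5 (abs_nonneg _) (by norm_num)
            rw [abs_le]
            constructor <;> linarith [h1'.1, h1'.2]
        _ ≤ 7 * sg (i + 1) := by
            rw [hsgi]
            have := sqrt2_lo
            nlinarith
    refine ⟨?_, ?_⟩
    · have := key 1 (Or.inl rfl) (by simpa using h3.1)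
      simpa using this
    · exact key (-1) (Or.inr rfl) h3.2
  calc (2 / 3) * (gaussianReal 0 1).real (Set.Icc a (a + 1))
      ≤ P.real {ω | (fun k : S => lf η (β k) S ω) ∈ Q} *
        (gaussianReal 0 1).real (Set.Icc a (a + 1)) :=
        mul_le_mul_of_nonneg_right hQprob measureReal_nonneg
    _ = P.real ((fun ω (_ : Unit) => ξ ω) ⁻¹' {x : Unit → ℝ | x () ∈ Set.Icc a (a + 1)} ∩
      (fun ω (k : S) => lf η (β k) S ω) ⁻¹' Q) := by rw [hfinal, hξprob, mul_comm]
    _ ≤ _ := measureReal_mono hincl (measure_ne_top _ _)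

end Pool.Agent.H993R2.Kac
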