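import Pool.Agent.H993R2.Kac.SpecialProb

set_option autoImplicit false
set_option maxHeartbeats 1000000
set_option linter.unusedSectionVars false

/-!
The special block event: lower bound for its probability (conclusion).
-/

namespace Pool.Agent.H993R2.Kac

open MeasureTheory ProbabilityTheory Finset

variable {Ω : Type*} [MeasurableSpace Ω] {P : Measure Ω}

variable {η : ℕ → Ω → ℝ}

theorem prob_coord_Icc (h : Std η P) (k : ℕ) (a : ℝ) :
    P.real {ω | η k ω ∈ Set.Icc a (a + 1)} = (gaussianReal 0 1).real (Set.Icc a (a + 1)) := by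
  rw [← h.law k, Measure.real, Measure.real, Measure.map_apply (h.meas k) measurableSet_Icc]
  rfl

theorem prob_EvB_zero (h : Std η P) (A1 : ℝ) :
    (gaussianReal 0 1).real (Set.Icc 0 (0 + 1)) ≤
      P.real {ω | EvB A1 7 0 (fun k => η k ω)} := by
  have hP := h.prob
  rw [← prob_coord_Icc h 1 0]
  apply measureReal_mono _ (measure_ne_top _ _)
  intro ω hω
  have h1 : η 1 ω ∈ Set.Icc (0 : ℝ) (0 + 1) := hω
  intro m hm
  rw [Finset.mem_Icc] at hm
  norm_num at hm
  have hsg : sg 0 = 1 := by unfold sg; norm_num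
  rw [hsg]
  have hh : hb A1 0 1 = 0 := by
    unfold hb
    rw [if_neg (by decide)]
  obtain ⟨h2, h3⟩ := h1
  obtain ⟨hm1, hm2⟩ := hm
  interval_cases m
  · norm_num
  · have e : Ico (2 ^ 0) 2 = ({1} : Finset ℕ) := by decide
    rw [e, Finset.sum_singleton, Finset.sum_singleton, hh]
    constructor
    · rw [abs_le]
      constructor <;> linarith
    · rw [abs_le]
      constructor <;> linarith

/-- A lower bound for block probabilities. -/
noncomputable def p0 (A1 : ℝ) : ℝ :=
  min (min ((2 / 3) * (gaussianReal 0 1).real (Set.Icc (A1 / Real.sqrt 2) (A1 / Real.sqrt 2 + 1)))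
    ((gaussianReal 0 1).real (Set.Icc 0 (0 + 1)))) ((gaussianReal 0 1).real (Set.Icc A1 (A1 + 1)))

theorem p0_pos (A1 : ℝ) : 0 < p0 A1 := by
  unfold p0
  have h1 := gauss_Icc_pos (A1 / Real.sqrt 2)
  have h2 := gauss_Icc_pos 0
  have h3 := gauss_Icc_pos A1
  exact lt_min (lt_min (by positivity) h2) h3

theorem p0_le_one (A1 : ℝ) : p0 A1 ≤ 1 := by
  unfold p0
  exact (min_le_right _ _).trans (by
    have := measureReal_le_one (μ := gaussianReal 0 1) (s := Set.Icc A1 (A1 + 1))
    exact this)

theorem prob_EvB_ge (h : Std η P) (A1 : ℝ) (i : ℕ) :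
    p0 A1 ≤ P.real {ω | EvB A1 7 i (fun k => η k ω)} := by
  rcases Nat.eq_zero_or_pos i with h0 | h0
  · subst h0
    exact ((min_le_left _ _).trans (min_le_right _ _)).trans (prob_EvB_zero h A1)
  · obtain ⟨i', rfl⟩ : ∃ i', i = i' + 1 := ⟨i - 1, by omega⟩
    exact ((min_le_left _ _).trans (min_le_left _ _)).trans (prob_EvB_pos h A1 i')

theorem prob_Ev_ge (h : Std η P) (A1 : ℝ) (l : ℕ) :
    p0 A1 ^ (l + 1) ≤ P.real {ω | Ev A1 7 l (fun k => η k ω)} := by
  have hP := h.prob
  induction l with
  | zero =>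
    rw [zero_add, pow_one]
    refine (min_le_right _ _).trans ?_
    rw [← prob_coord_Icc h 0 A1]
    apply measureReal_mono _ (measure_ne_top _ _)
    intro ω hω
    have h1 : η 0 ω ∈ Set.Icc A1 (A1 + 1) := hω
    refine ⟨?_, fun i hi => by simp at hi⟩
    rw [abs_le]
    constructor <;> linarith [h1.1, h1.2]
  | succ l ih =>
    set S : Finset ℕ := Ico 0 (2 ^ l) with hS
    set T : Finset ℕ := Ico (2 ^ l) (2 ^ (l + 1)) with hT
    have hind := h.indep.indepFun_finset S T (Finset.Ico_disjoint_Ico_consecutive 0 (2 ^ l) _) h.meas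
    set E : Set (S → ℝ) := {x | Ev A1 7 l (ex S x)} with hE
    set F : Set (T → ℝ) := {x | EvB A1 7 l (ex T x)} with hF
    have hEm : MeasurableSet E := measurableSet_Ev A1 7 l (fun k => measurable_ex S k)
    have hFm : MeasurableSet F := measurableSet_EvB A1 7 l (fun k => measurable_ex T k)
    have hprod := hind.measure_inter_preimage_eq_mul _ _ hEm hFm
    have e1 : (fun ω (i : S) => η i ω) ⁻¹' E = {ω | Ev A1 7 l (fun k => η k ω)} := by
      ext ω
      constructor
      · intro h1
        have h1' : Ev A1 7 l (ex S (fun i : S => η i ω)) := h1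
        show Ev A1 7 l (fun k => η k ω)
        exact Ev_congr (fun k hk => by rw [ex_of_mem hk]) h1'
      · intro h1
        have h1' : Ev A1 7 l (fun k => η k ω) := h1
        show Ev A1 7 l (ex S (fun i : S => η i ω))
        exact Ev_congr (fun k hk => by rw [ex_of_mem hk]) h1'
    have e2 : (fun ω (i : T) => η i ω) ⁻¹' F = {ω | EvB A1 7 l (fun k => η k ω)} := by
      ext ω
      constructor
      · intro h1
        have h1' : EvB A1 7 l (ex T (fun i : T => η i ω)) := h1
        show EvB A1 7 l (fun k => η k ω)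
        exact EvB_congr (fun k hk => by rw [ex_of_mem hk]) h1'
      · intro h1
        have h1' : EvB A1 7 l (fun k => η k ω) := h1
        show EvB A1 7 l (ex T (fun i : T => η i ω))
        exact EvB_congr (fun k hk => by rw [ex_of_mem hk]) h1'
    rw [e1, e2] at hprod
    have e3 : {ω | Ev A1 7 (l + 1) (fun k => η k ω)} =
        {ω | Ev A1 7 l (fun k => η k ω)} ∩ {ω | EvB A1 7 l (fun k => η k ω)} := by
      ext ω
      constructor
      · intro h1
        have h1' : Ev A1 7 (l + 1) (fun k => η k ω) := h1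
        refine ⟨⟨h1'.1, fun i hi => h1'.2 i ?_⟩, h1'.2 l (Finset.self_mem_range_succ l)⟩
        rw [Finset.mem_range] at hi ⊢; omega
      · rintro ⟨h1, h2⟩
        have h1' : Ev A1 7 l (fun k => η k ω) := h1
        refine ⟨h1'.1, fun i hi => ?_⟩
        rw [Finset.mem_range] at hi
        rcases Nat.lt_or_ge i l with h3 | h3
        · exact h1'.2 i (Finset.mem_range.mpr h3)
        · have : i = l := by omega
          subst this; exact h2
    rw [e3, Measure.real, hprod, ENNReal.toReal_mul, pow_succ]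
    apply mul_le_mul ih (prob_EvB_ge h A1 l) (p0_pos A1).le
    exact ENNReal.toReal_nonneg

/-- The probability of the special event does not depend on the family. -/
theorem prob_Ev_eq {η' : ℕ → Ω → ℝ} (h : Std η P) (h' : Std η' P) (A1 K : ℝ) (l : ℕ) :
    P.real {ω | Ev A1 K l (fun k => η k ω)} = P.real {ω | Ev A1 K l (fun k => η' k ω)} := by
  have hP := h.prob
  set S : Finset ℕ := Ico 0 (2 ^ l) with hS
  have hlaw : ∀ (ζ : ℕ → Ω → ℝ), Std ζ P →
      P.map (fun ω (i : S) => ζ i ω) = Measure.pi (fun _ => gaussianReal 0 1) := by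
    intro ζ hζ
    have h1 : iIndepFun (fun (i : S) => ζ i) P := hζ.indep.precomp Subtype.val_injective
    rw [iIndepFun_iff_map_fun_eq_pi_map (fun i : S => (hζ.meas i).aemeasurable)] at h1
    rw [h1]
    congr 1
    ext i : 1
    exact hζ.law i
  have hset : ∀ (ζ : ℕ → Ω → ℝ), Std ζ P → P.real {ω | Ev A1 K l (fun k => ζ k ω)} =
      (P.map (fun ω (i : S) => ζ i ω)).real {x | Ev A1 K l (ex S x)} := by
    intro ζ hζ
    have hX : Measurable (fun ω (i : S) => ζ i ω) := measurable_pi_lambda _ fun i => hζ.meas i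
    have hEm : MeasurableSet {x : S → ℝ | Ev A1 K l (ex S x)} :=
      measurableSet_Ev A1 K l (fun k => measurable_ex S k)
    rw [Measure.real, Measure.real, Measure.map_apply hX hEm]
    congr 2
    ext ω
    constructor
    · intro h1
      have h1' : Ev A1 K l (fun k => ζ k ω) := h1
      show Ev A1 K l (ex S (fun i : S => ζ i ω))
      exact Ev_congr (fun k hk => by rw [ex_of_mem hk]) h1'
    · intro h1
      have h1' : Ev A1 K l (ex S (fun i : S => ζ i ω)) := h1
      show Ev A1 K l (fun k => ζ k ω)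
      exact Ev_congr (fun k hk => by rw [ex_of_mem hk]) h1'
  rw [hset η h, hset η' h', hlaw η h, hlaw η' h']

end Pool.Agent.H993R2.Kac
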