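import Pool.Agent.H993R2.Kac.Det

set_option autoImplicit false
set_option maxHeartbeats 1000000

/-!
Stability of the number of zeros, and concatenation of windows.
-/

namespace Pool.Agent.H993R2.Kac

open Finset

theorem ivt {f : ℝ → ℝ} (hf : Continuous f) {a b : ℝ} (hab : a < b) (h : f a * f b < 0) :
    ∃ x, a < x ∧ x < b ∧ f x = 0 := by
  rcases mul_neg_iff.mp h with ⟨h1, h2⟩ | ⟨h1, h2⟩
  · have := intermediate_value_Ioo' hab.le hf.continuousOn (show (0 : ℝ) ∈ Set.Ioo (f b) (f a) from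
      ⟨h2, h1⟩)
    obtain ⟨x, hx, hx0⟩ := this
    exact ⟨x, hx.1, hx.2, hx0⟩
  · have := intermediate_value_Ioo hab.le hf.continuousOn (show (0 : ℝ) ∈ Set.Ioo (f a) (f b) from
      ⟨h1, h2⟩)
    obtain ⟨x, hx, hx0⟩ := this
    exact ⟨x, hx.1, hx.2, hx0⟩

theorem single_zero_sign {G G1 : ℝ → ℝ} (hG : ∀ x, HasDerivAt G (G1 x) x) {u v z : ℝ}
    (hpos : 0 < G u * G v) (hz1 : u < z) (hz2 : z < v) (hz : G z = 0) (hz' : G1 z ≠ 0)
    (huniq : ∀ y, u < y → y < v → G y = 0 → y = z) : False := by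
  have hGc : Continuous G := continuous_iff_continuousAt.mpr fun x => (hG x).continuousAt
  have hGu : G u ≠ 0 := by
    intro h; rw [h, zero_mul] at hpos; exact lt_irrefl _ hpos
  -- `H = G * G u`
  by_cases hex : ∃ x, u < x ∧ x < v ∧ G x * G u < 0
  · obtain ⟨x, hx1, hx2, hx⟩ := hex
    rcases lt_trichotomy x z with h | h | h
    · obtain ⟨y, hy1, hy2, hy⟩ := ivt hGc hx1 (by rw [mul_comm]; exact hx)
      have := huniq y hy1 (by linarith) hy
      linarith
    · rw [h, hz, zero_mul] at hx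
      exact lt_irrefl _ hx
    · have hxv : G x * G v < 0 := by
        rcases mul_neg_iff.mp hx with ⟨h1, h2⟩ | ⟨h1, h2⟩
        · have : G v < 0 := by
            by_contra hc
            push Not at hc
            nlinarith
          exact mul_neg_of_pos_of_neg h1 this
        · have : 0 < G v := by
            by_contra hc
            push Not at hc
            nlinarith
          exact mul_neg_of_neg_of_pos h1 this
      obtain ⟨y, hy1, hy2, hy⟩ := ivt hGc hx2 hxv
      have := huniq y (by linarith) hy2 hy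
      linarith
  · push Not at hex
    have hd : HasDerivAt (fun x => G x * G u) (G1 z * G u) z := (hG z).mul_const _
    have hmin : IsLocalMin (fun x => G x * G u) z := by
      filter_upwards [isOpen_Ioo.mem_nhds (show z ∈ Set.Ioo u v from ⟨hz1, hz2⟩)] with x hx
      rw [hz, zero_mul]
      exact hex x hx.1 hx.2
    have h0 := hmin.hasDerivAt_eq_zero hd
    rcases mul_eq_zero.mp h0 with h | h
    · exact hz' h
    · exact hGu h

theorem Zs_mono {G : ℝ → ℝ} {a b a' b' : ℝ} (h1 : a' ≤ a) (h2 : b ≤ b') :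
    Zs G a b ⊆ Zs G a' b' := fun _ hx => ⟨lt_of_le_of_lt h1 hx.1, lt_of_lt_of_le hx.2.1 h2, hx.2.2⟩

theorem Zs_union {G : ℝ → ℝ} {a b c : ℝ} (hb : G b ≠ 0) :
    Zs G a c ⊆ Zs G a b ∪ Zs G b c := by
  intro x hx
  rcases lt_trichotomy x b with h | h | h
  · exact Or.inl ⟨hx.1, h, hx.2.2⟩
  · rw [h] at hx; exact absurd hx.2.2 hb
  · exact Or.inr ⟨h, hx.2.1, hx.2.2⟩

theorem Zs_disj {G : ℝ → ℝ} {a b c : ℝ} : Disjoint (Zs G a b) (Zs G b c) := by
  rw [Set.disjoint_left]
  intro x hx hx'
  have := hx.2.1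
  have := hx'.1
  linarith

theorem Zs_ncard_add_le {G : ℝ → ℝ} {a b c : ℝ} (hab : a ≤ b) (hbc : b ≤ c)
    (hfin : (Zs G a c).Finite) :
    (Zs G a b).ncard + (Zs G b c).ncard ≤ (Zs G a c).ncard := by
  have h1 : Zs G a b ⊆ Zs G a c := Zs_mono le_rfl hbc
  have h2 : Zs G b c ⊆ Zs G a c := Zs_mono hab le_rfl
  rw [← Set.ncard_union_eq Zs_disj (hfin.subset h1) (hfin.subset h2)]
  exact Set.ncard_le_ncard (Set.union_subset h1 h2) hfin

theorem Zs_ncard_le_add {G : ℝ → ℝ} {a b c : ℝ} (hb : G b ≠ 0)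
    (h1 : (Zs G a b).Finite) (h2 : (Zs G b c).Finite) :
    (Zs G a c).ncard ≤ (Zs G a b).ncard + (Zs G b c).ncard :=
  (Set.ncard_le_ncard (Zs_union hb) (h1.union h2)).trans (Set.ncard_union_le _ _)

/-- Stability: `F` has at least as many zeros as `G`. -/
theorem stab {G G1 F : ℝ → ℝ} (hG : ∀ x, HasDerivAt G (G1 x) x) (hF : Continuous F) {τ : ℝ}
    (hτ : 0 < τ) (n : ℕ) : ∀ u v : ℝ, u < v →
    (∀ x, u ≤ x → x ≤ v → |G x| ≤ τ → G1 x ≠ 0) → τ < |G u| → τ < |G v| →
    (∀ x, u ≤ x → x ≤ v → |F x - G x| ≤ τ) → (Zs G u v).Finite → (Zs F u v).Finite →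
    (Zs G u v).ncard = n → n ≤ (Zs F u v).ncard := by
  induction n using Nat.strong_induction_on with
  | _ n ih =>
    intro u v huv hfree hu hv hFG hfinG hfinF hn
    rcases Nat.lt_or_ge n 2 with hn2 | hn2
    · rcases Nat.eq_zero_or_pos n with h0 | h0
      · omega
      · have hn1 : n = 1 := by omega
        subst hn1
        obtain ⟨z, hz⟩ := Set.ncard_eq_one.mp hn
        have hzm : z ∈ Zs G u v := by rw [hz]; exact Set.mem_singleton z
        have huniq : ∀ y, u < y → y < v → G y = 0 → y = z := by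
          intro y h1 h2 h3
          have : y ∈ Zs G u v := ⟨h1, h2, h3⟩
          rw [hz] at this
          exact this
        have hGuv : G u * G v < 0 := by
          by_contra hc
          push Not at hc
          have hGu : G u ≠ 0 := by intro h; rw [h, abs_zero] at hu; linarith
          have hGv : G v ≠ 0 := by intro h; rw [h, abs_zero] at hv; linarith
          have hpos : 0 < G u * G v := lt_of_le_of_ne hc (mul_ne_zero hGu hGv).symm
          refine single_zero_sign hG hpos hzm.1 hzm.2.1 hzm.2.2 ?_ huniq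
          apply hfree z hzm.1.le hzm.2.1.le
          rw [hzm.2.2, abs_zero]; exact hτ.le
        have hFu := hFG u le_rfl huv.le
        have hFv := hFG v huv.le le_rfl
        have hFuv : F u * F v < 0 := by
          rw [abs_le] at hFu hFv
          rcases mul_neg_iff.mp hGuv with ⟨h1, h2⟩ | ⟨h1, h2⟩
          · rw [abs_of_pos h1] at hu
            rw [abs_of_neg h2] at hv
            exact mul_neg_of_pos_of_neg (by linarith) (by linarith)
          · rw [abs_of_neg h1] at hu
            rw [abs_of_pos h2] at hv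
            exact mul_neg_of_neg_of_pos (by linarith) (by linarith)
        obtain ⟨y, hy1, hy2, hy⟩ := ivt hF huv hFuv
        have hne : (Zs F u v).Nonempty := ⟨y, hy1, hy2, hy⟩
        have := (Set.ncard_pos hfinF).mpr hne
        omega
    · -- two zeros and Rolle
      have h2 : 1 < (Zs G u v).ncard := by omega
      obtain ⟨z, hz, z', hz', hne⟩ := (Set.one_lt_ncard hfinG).mp h2
      obtain ⟨a, b, ha, hb, hab⟩ : ∃ a b, a ∈ Zs G u v ∧ b ∈ Zs G u v ∧ a < b := by
        rcases lt_or_gt_of_ne hne with h | h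
        · exact ⟨z, z', hz, hz', h⟩
        · exact ⟨z', z, hz', hz, h⟩
      obtain ⟨w, hw, hw0⟩ : ∃ w ∈ Set.Ioo a b, G1 w = 0 :=
        exists_hasDerivAt_eq_zero hab (fun x _ => (hG x).continuousAt.continuousWithinAt)
          (by rw [ha.2.2, hb.2.2]) (fun x _ => hG x)
      have huw : u < w := ha.1.trans hw.1
      have hwv : w < v := hw.2.trans hb.2.1
      have hGw : τ < |G w| := by
        by_contra hc
        push Not at hc
        exact hfree w huw.le hwv.le hc hw0
      have hGw0 : G w ≠ 0 := by intro h; rw [h, abs_zero] at hGw; linarith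
      have hf1 : (Zs G u w).Finite := hfinG.subset (Zs_mono le_rfl hwv.le)
      have hf2 : (Zs G w v).Finite := hfinG.subset (Zs_mono huw.le le_rfl)
      have hg1 : (Zs F u w).Finite := hfinF.subset (Zs_mono le_rfl hwv.le)
      have hg2 : (Zs F w v).Finite := hfinF.subset (Zs_mono huw.le le_rfl)
      have hle := Zs_ncard_le_add hGw0 hf1 hf2
      have hge := Zs_ncard_add_le huw.le hwv.le hfinG
      have hp1 : 0 < (Zs G u w).ncard := (Set.ncard_pos hf1).mpr ⟨a, ha.1, hw.1, ha.2.2⟩
      have hp2 : 0 < (Zs G w v).ncard := (Set.ncard_pos hf2).mpr ⟨b, hw.2, hb.2.1, hb.2.2⟩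
      have i1 := ih (Zs G u w).ncard (by omega) u w huw
        (fun x h1 h2 => hfree x h1 (by linarith)) hu hGw
        (fun x h1 h2 => hFG x h1 (by linarith)) hf1 hg1 rfl
      have i2 := ih (Zs G w v).ncard (by omega) w v hwv
        (fun x h1 h2 => hfree x (by linarith) h2) hGw hv
        (fun x h1 h2 => hFG x (by linarith) h2) hf2 hg2 rfl
      have hF := Zs_ncard_add_le huw.le hwv.le hfinF
      omega

/-- Concatenation of windows. -/
theorem concat {G F : ℝ → ℝ} (t : ℕ → ℝ) (c : ℕ → ℕ) (m n : ℕ) (hmn : m < n)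
    (hmono : ∀ i, m ≤ i → i < n → t i < t (i + 1))
    (hne : ∀ i, m < i → i < n → G (t i) ≠ 0)
    (hle : ∀ i, m ≤ i → i < n →
      (Zs G (t i) (t (i + 1))).ncard ≤ (Zs F (t i) (t (i + 1))).ncard + c i)
    (hfinG : ∀ a b, t m ≤ a → (Zs G a b).Finite) (hfinF : ∀ a b, t m ≤ a → (Zs F a b).Finite) :
    t m < t n ∧ (Zs G (t m) (t n)).ncard ≤ (Zs F (t m) (t n)).ncard + ∑ i ∈ Ico m n, c i := by
  induction n, hmn using Nat.le_induction with
  | base =>
    have h1 : m + 1 = Nat.succ m := rfl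
    refine ⟨hmono m le_rfl (Nat.lt_succ_self m), ?_⟩
    have := hle m le_rfl (Nat.lt_succ_self m)
    rw [Finset.sum_Ico_succ_top le_rfl]
    simpa using this
  | succ n hn ih =>
    have hn' : m < n := hn
    obtain ⟨i1, i2⟩ := ih (fun i h1 h2 => hmono i h1 (by omega)) (fun i h1 h2 => hne i h1 (by omega))
      (fun i h1 h2 => hle i h1 (by omega))
    have h3 := hmono n (by omega) (by omega)
    refine ⟨i1.trans h3, ?_⟩
    have h4 := Zs_ncard_le_add (a := t m) (c := t (n + 1)) (hne n (by omega) (by omega))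
      (hfinG _ _ le_rfl) (hfinG _ _ i1.le)
    have h5 := Zs_ncard_add_le (G := F) i1.le h3.le (hfinF _ _ le_rfl)
    have h6 := hle n (by omega) (by omega)
    rw [Finset.sum_Ico_succ_top (by omega)]
    omega

end Pool.Agent.H993R2.Kac
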