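import Pool.Agent.H993R2.Kac.Cond

set_option autoImplicit false
set_option maxHeartbeats 1000000
set_option linter.unusedSectionVars false

/-!
The good event in one block and the union over the blocks.
-/

namespace Pool.Agent.H993R2.Kac

open MeasureTheory ProbabilityTheory Finset

variable {Ω : Type*} [MeasurableSpace Ω] {P : Measure Ω} {ξ : ℕ → Ω → ℝ}

/-- all bad events -/
def BadA (A Amid Ain : ℝ) (l J n K I : ℕ) (a : ℕ → ℝ) : Prop :=
  (∃ e, e < 2 ∧ ((∃ j, j < J + 1 ∧ BadIn e j J n (2 ^ l) Ain a) ∨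
    ((∃ j, (l ≤ j ∧ j < J + 1) ∧ BadOut e j J n (2 ^ l) (AO Amid l K j) a) ∨
      BadS e l n A a))) ∨ BadF l n I a

/-- the good event -/
def Gd (A1 A Amid Ain : ℝ) (l J n K I : ℕ) (a : ℕ → ℝ) : Prop :=
  Q0 A1 l n a ∧ ¬ BadA A Amid Ain l J n K I a

section

variable {A1 A Amid Ain : ℝ} {l J n K I : ℕ}

theorem AO_ge_one (hAmid : 1 ≤ Amid) (j : ℕ) : 1 ≤ AO Amid l K j := by
  unfold AO
  split_ifs
  · exact hAmid
  · exact one_le_pow₀ (by norm_num)

theorem prob_BadA (h : Std ξ P) (hl : 1 ≤ l) (hn1 : 2 ^ (J + 1) ≤ n)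
    (hn2 : n + 2 ^ l ≤ 3 * 2 ^ (J + 1)) (hlJ : l ≤ J) (hI : 2 ≤ I) (hIl : 5 * I ≤ l)
    (hA : 0 < A) (hAmid : 1 ≤ Amid) (hAin : 1 ≤ Ain) :
    P.real {ω | Q0 A1 l n (fun k => ξ k ω) ∧ BadA A Amid Ain l J n K I (fun k => ξ k ω)} ≤
      (2 * ((J + 1 : ℝ) * (300000 / Ain ^ 2) +
        (∑ j ∈ Ico l (J + 1), 300000 / (AO Amid l K j) ^ 2 + 3 / A ^ 2)) + (1 - kap / 2)) *
        P.real {ω | Q0 A1 l n (fun k => ξ k ω)} := by
  have hP := h.prob
  set p := P.real {ω | Q0 A1 l n (fun k => ξ k ω)} with hp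
  set Qs : (Ω → Prop) → Set Ω := fun B => {ω | Q0 A1 l n (fun k => ξ k ω) ∧ B ω} with hQs
  have hcov : {ω | Q0 A1 l n (fun k => ξ k ω) ∧ BadA A Amid Ain l J n K I (fun k => ξ k ω)} ⊆
      (⋃ e ∈ range 2,
        ((⋃ j ∈ range (J + 1), Qs (fun ω => BadIn e j J n (2 ^ l) Ain (fun k => ξ k ω))) ∪
        ((⋃ j ∈ Ico l (J + 1), Qs (fun ω => BadOut e j J n (2 ^ l) (AO Amid l K j)
          (fun k => ξ k ω))) ∪ Qs (fun ω => BadS e l n A (fun k => ξ k ω))))) ∪
      Qs (fun ω => BadF l n I (fun k => ξ k ω)) := by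
    rintro ω ⟨hq, hb⟩
    rcases hb with ⟨e, he, ⟨j, hj, hb⟩ | ⟨j, hj, hb⟩ | hb⟩ | hb
    · left
      rw [Set.mem_iUnion₂]
      refine ⟨e, Finset.mem_range.mpr he, Or.inl ?_⟩
      rw [Set.mem_iUnion₂]
      exact ⟨j, Finset.mem_range.mpr hj, hq, hb⟩
    · left
      rw [Set.mem_iUnion₂]
      refine ⟨e, Finset.mem_range.mpr he, Or.inr (Or.inl ?_)⟩
      rw [Set.mem_iUnion₂]
      exact ⟨j, Finset.mem_Ico.mpr hj, hq, hb⟩
    · left
      rw [Set.mem_iUnion₂]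
      exact ⟨e, Finset.mem_range.mpr he, Or.inr (Or.inr ⟨hq, hb⟩)⟩
    · right
      exact ⟨hq, hb⟩
  have hone : ∀ e, P.real ((⋃ j ∈ range (J + 1),
        Qs (fun ω => BadIn e j J n (2 ^ l) Ain (fun k => ξ k ω))) ∪
        ((⋃ j ∈ Ico l (J + 1), Qs (fun ω => BadOut e j J n (2 ^ l) (AO Amid l K j)
          (fun k => ξ k ω))) ∪ Qs (fun ω => BadS e l n A (fun k => ξ k ω)))) ≤
      ((J + 1 : ℝ) * (300000 / Ain ^ 2) +
        (∑ j ∈ Ico l (J + 1), 300000 / (AO Amid l K j) ^ 2 + 3 / A ^ 2)) * p := by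
    intro e
    have h1 : P.real (⋃ j ∈ range (J + 1),
        Qs (fun ω => BadIn e j J n (2 ^ l) Ain (fun k => ξ k ω))) ≤
        (J + 1 : ℝ) * (300000 / Ain ^ 2) * p := by
      refine (measureReal_biUnion_finset_le _ _).trans ?_
      calc ∑ j ∈ range (J + 1), P.real (Qs (fun ω => BadIn e j J n (2 ^ l) Ain (fun k => ξ k ω)))
          ≤ ∑ j ∈ range (J + 1), (300000 / Ain ^ 2) * p := by
            apply Finset.sum_le_sum
            intro j hj
            rw [Finset.mem_range] at hj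
            exact cond_in h hn1 hn2 (by omega) hAin
        _ = (J + 1 : ℝ) * (300000 / Ain ^ 2) * p := by
            rw [Finset.sum_const, Finset.card_range, nsmul_eq_mul]
            push_cast; ring
    have h2 : P.real (⋃ j ∈ Ico l (J + 1), Qs (fun ω => BadOut e j J n (2 ^ l) (AO Amid l K j)
          (fun k => ξ k ω))) ≤ (∑ j ∈ Ico l (J + 1), 300000 / (AO Amid l K j) ^ 2) * p := by
      refine (measureReal_biUnion_finset_le _ _).trans ?_
      rw [Finset.sum_mul]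
      apply Finset.sum_le_sum
      intro j hj
      rw [Finset.mem_Ico] at hj
      exact cond_out h hl hn1 hn2 hj.1 (by omega) (AO_ge_one hAmid j)
    have h3 : P.real (Qs (fun ω => BadS e l n A (fun k => ξ k ω))) ≤ (3 / A ^ 2) * p :=
      cond_S h hA
    refine (measureReal_union_le _ _).trans ?_
    have h4 := measureReal_union_le (μ := P) (⋃ j ∈ Ico l (J + 1),
      Qs (fun ω => BadOut e j J n (2 ^ l) (AO Amid l K j) (fun k => ξ k ω)))
      (Qs (fun ω => BadS e l n A (fun k => ξ k ω)))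
    calc _ ≤ (J + 1 : ℝ) * (300000 / Ain ^ 2) * p +
          ((∑ j ∈ Ico l (J + 1), 300000 / (AO Amid l K j) ^ 2) * p + (3 / A ^ 2) * p) :=
          add_le_add h1 (h4.trans (add_le_add h2 h3))
      _ = _ := by ring
  calc P.real {ω | Q0 A1 l n (fun k => ξ k ω) ∧ BadA A Amid Ain l J n K I (fun k => ξ k ω)}
      ≤ _ := measureReal_mono hcov (measure_ne_top _ _)
    _ ≤ _ := measureReal_union_le _ _
    _ ≤ (∑ e ∈ range 2, ((J + 1 : ℝ) * (300000 / Ain ^ 2) +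
        (∑ j ∈ Ico l (J + 1), 300000 / (AO Amid l K j) ^ 2 + 3 / A ^ 2)) * p) +
        (1 - kap / 2) * p := by
        apply add_le_add
        · refine (measureReal_biUnion_finset_le _ _).trans ?_
          exact Finset.sum_le_sum fun e _ => hone e
        · apply cond_F h _ hI hIl
          have : 2 ^ l ≤ 2 ^ (J + 1) := Nat.pow_le_pow_right (by norm_num) (by omega)
          omega
    _ = _ := by
        rw [Finset.sum_const, Finset.card_range, nsmul_eq_mul]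
        push_cast
        ring

theorem prob_Gd (h : Std ξ P) (hl : 1 ≤ l) (hn1 : 2 ^ (J + 1) ≤ n)
    (hn2 : n + 2 ^ l ≤ 3 * 2 ^ (J + 1)) (hlJ : l ≤ J) (hI : 2 ≤ I) (hIl : 5 * I ≤ l)
    (hA : 0 < A) (hAmid : 1 ≤ Amid) (hAin : 1 ≤ Ain)
    (hnum : 2 * ((J + 1 : ℝ) * (300000 / Ain ^ 2) +
        (∑ j ∈ Ico l (J + 1), 300000 / (AO Amid l K j) ^ 2 + 3 / A ^ 2)) ≤ kap / 4) :
    kap / 4 * P.real {ω | Q0 A1 l n (fun k => ξ k ω)} ≤
      P.real {ω | Gd A1 A Amid Ain l J n K I (fun k => ξ k ω)} := by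
  have hP := h.prob
  have h1 := prob_BadA (A1 := A1) (K := K) h hl hn1 hn2 hlJ hI hIl hA hAmid hAin
  set p := P.real {ω | Q0 A1 l n (fun k => ξ k ω)} with hp
  have hp0 : 0 ≤ p := measureReal_nonneg
  have hcov : {ω | Q0 A1 l n (fun k => ξ k ω)} ⊆
      {ω | Gd A1 A Amid Ain l J n K I (fun k => ξ k ω)} ∪
      {ω | Q0 A1 l n (fun k => ξ k ω) ∧ BadA A Amid Ain l J n K I (fun k => ξ k ω)} := by
    intro ω hq
    by_cases hb : BadA A Amid Ain l J n K I (fun k => ξ k ω)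
    · exact Or.inr ⟨hq, hb⟩
    · exact Or.inl ⟨hq, hb⟩
  have h2 : p ≤ P.real {ω | Gd A1 A Amid Ain l J n K I (fun k => ξ k ω)} +
      P.real {ω | Q0 A1 l n (fun k => ξ k ω) ∧ BadA A Amid Ain l J n K I (fun k => ξ k ω)} :=
    (measureReal_mono hcov (measure_ne_top _ _)).trans (measureReal_union_le _ _)
  have h3 : (2 * ((J + 1 : ℝ) * (300000 / Ain ^ 2) +
        (∑ j ∈ Ico l (J + 1), 300000 / (AO Amid l K j) ^ 2 + 3 / A ^ 2)) + (1 - kap / 2)) * p ≤
        (1 - kap / 4) * p := by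
    apply mul_le_mul_of_nonneg_right _ hp0
    linarith
  linarith

theorem measurableSet_Gd (h : Std ξ P) :
    MeasurableSet {ω | Gd A1 A Amid Ain l J n K I (fun k => ξ k ω)} := by
  have hm : ∀ (ε : ℝ) (σ : ℕ → ℕ) k, Measurable (fun ω => tw ε σ (fun i => ξ i ω) k) :=
    fun ε σ k => measurable_tw ε σ h.meas k
  have hQ : MeasurableSet {ω | Q0 A1 l n (fun k => ξ k ω)} := by
    unfold Q0
    exact measurableSet_Ev _ _ _ (hm _ _)
  have hBin : ∀ e j, MeasurableSet {ω | BadIn e j J n (2 ^ l) Ain (fun k => ξ k ω)} := by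
    intro e j
    unfold BadIn
    exact measurableSet_BadW _ _ _ _ _ _ (fun x => measurable_E0 (hm _ _) _ _ x)
      (fun x => measurable_E1 (hm _ _) _ _ x) (hm _ _)
  have hBout : ∀ e j, MeasurableSet {ω | BadOut e j J n (2 ^ l) (AO Amid l K j)
      (fun k => ξ k ω)} := by
    intro e j
    unfold BadOut
    exact measurableSet_BadW _ _ _ _ _ _ (fun x => measurable_E0 (hm _ _) _ _ x)
      (fun x => measurable_E1 (hm _ _) _ _ x) (hm _ _)
  have hBS : ∀ e, MeasurableSet {ω | BadS e l n A (fun k => ξ k ω)} :=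
    fun e => measurableSet_BadS e A h.meas
  have hBF : MeasurableSet {ω | BadF l n I (fun k => ξ k ω)} := measurableSet_BadF I h.meas
  have hB : MeasurableSet {ω | BadA A Amid Ain l J n K I (fun k => ξ k ω)} := by
    have hset : {ω | BadA A Amid Ain l J n K I (fun k => ξ k ω)} =
        (⋃ e ∈ range 2,
        ((⋃ j ∈ range (J + 1), {ω | BadIn e j J n (2 ^ l) Ain (fun k => ξ k ω)}) ∪
        ((⋃ j ∈ Ico l (J + 1), {ω | BadOut e j J n (2 ^ l) (AO Amid l K j)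
          (fun k => ξ k ω)}) ∪ {ω | BadS e l n A (fun k => ξ k ω)}))) ∪
        {ω | BadF l n I (fun k => ξ k ω)} := by
      ext ω
      simp only [Set.mem_union, Set.mem_iUnion, Finset.mem_range, Finset.mem_Ico, exists_prop]
      rfl
    rw [hset]
    refine MeasurableSet.union ?_ hBF
    apply Finset.measurableSet_biUnion
    intro e _
    refine MeasurableSet.union ?_ (MeasurableSet.union ?_ (hBS e))
    · exact Finset.measurableSet_biUnion _ fun j _ => hBin e j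
    · exact Finset.measurableSet_biUnion _ fun j _ => hBout e j
  exact hQ.inter hB.compl

theorem Gd_det {a : ℕ → ℝ} (hA : 0 ≤ A) (hA1 : 16 * (A + 11 * 7) < A1)
    (hAmid : 1 ≤ Amid) (hAin : 1 ≤ Ain)
    (hn1 : 2 ^ (J + 1) ≤ n) (hn2 : n + 2 ^ l ≤ 3 * 2 ^ (J + 1))
    (hlJ : l + K ≤ J) (hI1 : 1 ≤ I) (hI : 5 * I ≤ l)
    (hnum1 : 13824 * (A1 + 7) * sg l ≤ sg J)
    (hnum2 : 192 * (A1 + 7) * sg l * Ain ^ 4 ≤ sg J)
    (hnum3 : ∀ j, l ≤ j → j ≤ J → 8 * (A1 + 7) * sg l ≤ AO Amid l K j * sg j)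
    (hnum4 : ∀ j, l + K ≤ j → j ≤ J → 4 * (A1 + 7) * sg l ≤ sg j / (AO Amid l K j) ^ 4)
    (hG : Gd A1 A Amid Ain l J n K I a) :
    ((pol a (n + 2 ^ l)).roots.card : ℝ) + kap / 2 * ((I : ℝ) - 1) ≤
      ((pol a n).roots.card : ℝ) + 2 * (K * (Ms Amid + 1)) := by
  obtain ⟨hQ, hB⟩ := hG
  unfold BadA at hB
  push Not at hB
  obtain ⟨hB1, hF⟩ := hB
  have hee : ∀ ε : ℝ, ε = 1 ∨ ε = -1 → ∃ e : ℕ, e < 2 ∧ (-1 : ℝ) ^ e = ε := by
    intro ε hε
    rcases hε with h | h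
    · exact ⟨0, by norm_num, by rw [h]; norm_num⟩
    · exact ⟨1, by norm_num, by rw [h]; norm_num⟩
  have hmain := main_det (A1 := A1) (A := A) (Amid := Amid) (Ain := Ain) (l := l) (J := J) (n := n)
    (K := K) (I := I) (a := a) hQ hA hA1 hAmid hAin hn1 hn2 hlJ hI1 hI hnum1 hnum2 hnum3 hnum4
    (fun ε hε j hj => by
      obtain ⟨e, he, rfl⟩ := hee ε hε
      exact (hB1 e he).1 j (by omega))
    (fun ε hε j hj m hm1 hm2 => by
      obtain ⟨e, he, rfl⟩ := hee ε hε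
      by_contra hcon
      push Not at hcon
      exact (hB1 e he).2.2 ⟨j, hj, m, hm1, hm2, hcon⟩)
    (fun ε hε j hj1 hj2 => by
      obtain ⟨e, he, rfl⟩ := hee ε hε
      exact (hB1 e he).2.1 j ⟨hj1, by omega⟩)
  have hF' : kap / 2 * ((I : ℝ) - 1) ≤
      (SCn (tw 1 (sgm (n + 2 ^ l)) a) (2 ^ l) (n + 2 ^ l) I : ℝ) := by
    unfold BadF at hF
    exact not_lt.mp hF
  have hmain' : ((pol a (n + 2 ^ l)).roots.card : ℝ) +
      (SCn (tw 1 (sgm (n + 2 ^ l)) a) (2 ^ l) (n + 2 ^ l) I : ℝ) ≤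
      ((pol a n).roots.card : ℝ) + 2 * (K * (Ms Amid + 1)) := by
    exact_mod_cast hmain
  linarith

end

/-! ### Bonferroni -/

theorem bonf [IsProbabilityMeasure P] (M : ℕ → Set Ω) (hM : ∀ i, MeasurableSet (M i)) (x y : ℝ)
    (hy0 : 0 ≤ y) (m : ℕ) (hx : ∀ i < m, x ≤ P.real (M i))
    (hy : ∀ i j, i < j → j < m → P.real (M i ∩ M j) ≤ y) :
    m * x - m ^ 2 * y / 2 ≤ P.real (⋃ i ∈ range m, M i) := by
  induction m with
  | zero => simp
  | succ m ih =>
    have ih' := ih (fun i hi => hx i (by omega)) (fun i j h1 h2 => hy i j h1 (by omega))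
    have h1 : (⋃ i ∈ range (m + 1), M i) = (⋃ i ∈ range m, M i) ∪ M m := by
      rw [Finset.range_add_one, Finset.set_biUnion_insert, Set.union_comm]
    have h2 := measureReal_union_add_inter (μ := P) (s := ⋃ i ∈ range m, M i) (hM m)
      (measure_ne_top _ _) (measure_ne_top _ _)
    have h3 : P.real ((⋃ i ∈ range m, M i) ∩ M m) ≤ m * y := by
      rw [Set.iUnion₂_inter]
      refine (measureReal_biUnion_finset_le _ _).trans ?_
      calc ∑ i ∈ range m, P.real (M i ∩ M m) ≤ ∑ i ∈ range m, y := by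
            apply Finset.sum_le_sum
            intro i hi
            exact hy i m (Finset.mem_range.mp hi) (Nat.lt_succ_self m)
        _ = m * y := by rw [Finset.sum_const, Finset.card_range, nsmul_eq_mul]
    have h4 := hx m (Nat.lt_succ_self m)
    rw [h1]
    push_cast
    nlinarith

end Pool.Agent.H993R2.Kac
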