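import Pool.Agent.H993R2.Kac.Total

set_option autoImplicit false
set_option maxHeartbeats 1000000
set_option linter.unusedSectionVars false

/-!
The union over the blocks and the choice of the parameters.
-/

namespace Pool.Agent.H993R2.Kac

open MeasureTheory ProbabilityTheory Finset Filter Topology

variable {Ω : Type*} [MeasurableSpace Ω] {P : Measure Ω} {ξ : ℕ → Ω → ℝ}

section

variable {A1 : ℝ} {l : ℕ}

theorem prob_Q0_eq (h : Std ξ P) (n n' : ℕ) :
    P.real {ω | Q0 A1 l n (fun k => ξ k ω)} = P.real {ω | Q0 A1 l n' (fun k => ξ k ω)} :=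
  prob_Ev_eq (h.tw (Or.inl rfl) (sgm_inj (n + 2 ^ l))) (h.tw (Or.inl rfl) (sgm_inj (n' + 2 ^ l)))
    A1 7 l

theorem prob_Q0_ge (h : Std ξ P) (n : ℕ) :
    p0 A1 ^ (l + 1) ≤ P.real {ω | Q0 A1 l n (fun k => ξ k ω)} :=
  prob_Ev_ge (h.tw (Or.inl rfl) (sgm_inj (n + 2 ^ l))) A1 l

theorem prob_Q0_inter (h : Std ξ P) (n n' : ℕ) (hnn : n + 2 ^ l ≤ n') :
    P.real ({ω | Q0 A1 l n (fun k => ξ k ω)} ∩ {ω | Q0 A1 l n' (fun k => ξ k ω)}) =
      P.real {ω | Q0 A1 l n (fun k => ξ k ω)} * P.real {ω | Q0 A1 l n' (fun k => ξ k ω)} := by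
  have hdisj : Disjoint (Ico n (n + 2 ^ l)) (Ico n' (n' + 2 ^ l)) := by
    rw [Finset.disjoint_left]
    intro k h1 h2
    rw [Finset.mem_Ico] at h1 h2
    omega
  have hind := h.indep.indepFun_finset _ _ hdisj h.meas
  have e : ∀ n, {ω | Q0 A1 l n (fun k => ξ k ω)} =
      (fun ω (i : ↥(Ico n (n + 2 ^ l))) => ξ i ω) ⁻¹' {x | Q0 A1 l n (ex _ x)} := by
    intro n
    have e1 : ∀ ω, ∀ k ∈ Ico n (n + 2 ^ l),
        ex (Ico n (n + 2 ^ l)) (fun i => ξ i ω) k = ξ k ω := fun ω k hk => ex_of_mem hk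
    ext ω
    exact ⟨fun hq => Q0_congr _ _ (fun k hk => (e1 ω k hk).symm) hq,
      fun hq => Q0_congr _ _ (fun k hk => e1 ω k hk) hq⟩
  rw [e n, e n']
  have := hind.measure_inter_preimage_eq_mul _ _ (Q0_meas (A1 := A1) (l := l) (n := n))
    (Q0_meas (A1 := A1) (l := l) (n := n'))
  rw [Measure.real, Measure.real, Measure.real, ← ENNReal.toReal_mul, ← this]

theorem prob_union (h : Std ξ P) {A Amid Ain : ℝ} {J K I : ℕ} (hl : 1 ≤ l) (hlJ : l ≤ J)
    (hI : 2 ≤ I) (hIl : 5 * I ≤ l)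
    (hA : 0 < A) (hAmid : 1 ≤ Amid) (hAin : 1 ≤ Ain)
    (hnum : 2 * ((J + 1 : ℝ) * (300000 / Ain ^ 2) +
        (∑ j ∈ Ico l (J + 1), 300000 / (AO Amid l K j) ^ 2 + 3 / A ^ 2)) ≤ kap / 4)
    (hm : ∀ p : ℝ, p0 A1 ^ (l + 1) ≤ p → p ≤ 1 → (kap / (8 * p) + 1) * 2 ^ l ≤ 2 ^ (J + 1)) :
    ∃ m : ℕ, m * 2 ^ l ≤ 2 ^ (J + 1) ∧ 3 * kap ^ 2 / 128 ≤
      P.real (⋃ i ∈ range m,
        {ω | Gd A1 A Amid Ain l J (2 ^ (J + 1) + i * 2 ^ l) K I (fun k => ξ k ω)}) := by
  have hP := h.prob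
  have hk0 := kap_pos
  have hk1 := kap_le_one
  set p := P.real {ω | Q0 A1 l 0 (fun k => ξ k ω)} with hp
  have hpge : p0 A1 ^ (l + 1) ≤ p := prob_Q0_ge h 0
  have hp0 : 0 < p := lt_of_lt_of_le (pow_pos (p0_pos A1) _) hpge
  have hp1 : p ≤ 1 := measureReal_le_one
  have hpn : ∀ n, P.real {ω | Q0 A1 l n (fun k => ξ k ω)} = p := fun n => prob_Q0_eq h n 0
  set m := ⌈kap / (8 * p)⌉₊ with hmdef
  have hpos : 0 < kap / (8 * p) := by positivity
  have hm1 : kap / (8 * p) ≤ m := Nat.le_ceil _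
  have hm2 : (m : ℝ) < kap / (8 * p) + 1 := Nat.ceil_lt_add_one hpos.le
  have hmN : m * 2 ^ l ≤ 2 ^ (J + 1) := by
    have h1 : ((m * 2 ^ l : ℕ) : ℝ) ≤ ((2 ^ (J + 1) : ℕ) : ℝ) := by
      push_cast
      refine le_trans ?_ (hm p hpge hp1)
      exact mul_le_mul_of_nonneg_right hm2.le (by positivity)
    exact_mod_cast h1
  refine ⟨m, hmN, ?_⟩
  set M : ℕ → Set Ω := fun i =>
    {ω | Gd A1 A Amid Ain l J (2 ^ (J + 1) + i * 2 ^ l) K I (fun k => ξ k ω)} with hM
  have hMm : ∀ i, MeasurableSet (M i) := fun i => measurableSet_Gd h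
  have hx : ∀ i < m, kap / 4 * p ≤ P.real (M i) := by
    intro i hi
    have h1 : (i + 1) * 2 ^ l ≤ m * 2 ^ l := Nat.mul_le_mul_right _ hi
    have h2 : (i + 1) * 2 ^ l = i * 2 ^ l + 2 ^ l := by ring
    have := prob_Gd (A1 := A1) (K := K) h hl (n := 2 ^ (J + 1) + i * 2 ^ l) (J := J) (l := l)
      (Nat.le_add_right _ _) (by omega) hlJ hI hIl hA hAmid hAin hnum
    rw [hpn] at this
    exact this
  have hy : ∀ i j, i < j → j < m → P.real (M i ∩ M j) ≤ p ^ 2 := by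
    intro i j hij _
    have h1 : (i + 1) * 2 ^ l ≤ j * 2 ^ l := Nat.mul_le_mul_right _ hij
    have h2 : (i + 1) * 2 ^ l = i * 2 ^ l + 2 ^ l := by ring
    have h3 := prob_Q0_inter (A1 := A1) (l := l) h (2 ^ (J + 1) + i * 2 ^ l)
      (2 ^ (J + 1) + j * 2 ^ l) (by omega)
    rw [hpn, hpn] at h3
    rw [pow_two, ← h3]
    apply measureReal_mono _ (measure_ne_top _ _)
    rintro ω ⟨h4, h5⟩
    exact ⟨h4.1, h5.1⟩
  rcases lt_or_ge p (kap / 8) with hc | hc
  · have hb := bonf M hMm (kap / 4 * p) (p ^ 2) (by positivity) m hx hy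
    refine le_trans ?_ hb
    have h1 : kap / 8 ≤ m * p := by
      rw [div_le_iff₀ (by positivity)] at hm1
      linarith
    have h2 : m * p < kap / 8 + p := by
      have h3 : kap / (8 * p) * p = kap / 8 := by field_simp
      calc (m : ℝ) * p < (kap / (8 * p) + 1) * p := mul_lt_mul_of_pos_right hm2 hp0
        _ = kap / 8 + p := by rw [add_mul, h3, one_mul]
    have h3 : m * (kap / 4 * p) - m ^ 2 * p ^ 2 / 2 = (m * p) * kap / 4 - (m * p) ^ 2 / 2 := by ring
    rw [h3]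
    set s := (m : ℝ) * p
    nlinarith [mul_nonneg (sub_nonneg.mpr h1) (sub_nonneg.mpr (show s ≤ 3 * kap / 8 by linarith))]
  · have hm0 : 0 < m := Nat.ceil_pos.mpr hpos
    have h1 := hx 0 hm0
    have h2 : P.real (M 0) ≤ P.real (⋃ i ∈ range m, M i) := by
      apply measureReal_mono _ (measure_ne_top _ _)
      exact Set.subset_biUnion_of_mem (u := M) (Finset.mem_coe.mpr (Finset.mem_range.mpr hm0))
    refine le_trans ?_ (h1.trans h2)
    nlinarith

end

/-! ### parameters -/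

theorem growth {C : ℝ} {K i l : ℕ} (hC : C ≤ (23 / 20) ^ K) (hK : K ≤ i) :
    C * (21 / 20) ^ (4 * i) * sg l ≤ sg (l + i) := by
  have h1 : sg (l + i) = sg l * Real.sqrt 2 ^ i := by unfold sg; rw [pow_add]
  have h2 : C ≤ (23 / 20) ^ i := hC.trans (pow_le_pow_right₀ (by norm_num) hK)
  have h3 : (23 / 20 : ℝ) ^ i * (21 / 20) ^ (4 * i) ≤ Real.sqrt 2 ^ i := by
    rw [pow_mul, ← mul_pow]
    apply pow_le_pow_left₀ (by norm_num)
    have := sqrt2_lo
    norm_num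
    linarith
  rw [h1, mul_comm (sg l)]
  apply mul_le_mul_of_nonneg_right _ (sg_pos l).le
  refine le_trans ?_ h3
  exact mul_le_mul_of_nonneg_right h2 (by positivity)

theorem sum_AO {Amid : ℝ} {l K J : ℕ} (hlJ : l + K ≤ J) :
    ∑ j ∈ Ico l (J + 1), 300000 / (AO Amid l K j) ^ 2 ≤
      K * (300000 / Amid ^ 2) + 3300000 * (400 / 441) ^ K := by
  rw [← Finset.sum_Ico_consecutive _ (Nat.le_add_right l K) (show l + K ≤ J + 1 by omega)]
  apply add_le_add
  · apply le_of_eq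
    have h1 : ∀ j ∈ Ico l (l + K), (300000 : ℝ) / (AO Amid l K j) ^ 2 = 300000 / Amid ^ 2 := by
      intro j hj
      rw [Finset.mem_Ico] at hj
      unfold AO
      rw [if_pos hj.2]
    rw [Finset.sum_congr rfl h1, Finset.sum_const, Nat.card_Ico, nsmul_eq_mul]
    congr 2
    omega
  · have h1 : ∀ j ∈ Ico (l + K) (J + 1), (300000 : ℝ) / (AO Amid l K j) ^ 2 =
        300000 * (400 / 441) ^ (j - l) := by
      intro j hj
      rw [Finset.mem_Ico] at hj
      unfold AO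
      rw [if_neg (by omega), ← pow_mul, mul_comm (j - l) 2, pow_mul, div_eq_mul_inv, ← inv_pow]
      norm_num
    rw [Finset.sum_congr rfl h1, ← Finset.mul_sum]
    have h2 : ∑ j ∈ Ico (l + K) (J + 1), (400 / 441 : ℝ) ^ (j - l) =
        ∑ i ∈ Ico K (K + (J + 1 - l - K)), (400 / 441 : ℝ) ^ i := by
      rw [Finset.sum_Ico_eq_sum_range, Finset.sum_Ico_eq_sum_range]
      apply Finset.sum_congr
      · congr 1; omega
      · intro i _
        congr 1; omega
    rw [h2, geom_Ico _ (by norm_num)]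
    have h3 : (0 : ℝ) ≤ (400 / 441) ^ (J + 1 - l - K) := by positivity
    have h4 : (0 : ℝ) < (400 / 441) ^ K := by positivity
    have h5 : (1 - (400 / 441 : ℝ) ^ (J + 1 - l - K)) / (1 - 400 / 441) ≤ 11 := by
      rw [div_le_iff₀ (by norm_num)]
      norm_num
      linarith
    nlinarith

theorem params : ∃ (A1 A Amid : ℝ) (K q I0 : ℕ), 0 < A ∧ 16 * (A + 11 * 7) < A1 ∧ 1 ≤ Amid ∧
    2 ≤ q ∧ ∀ I ≥ I0, ∀ l J : ℕ, l = 5 * I → J + 1 = q * l →
      2 ≤ I ∧ 1 ≤ l ∧ l + K ≤ J ∧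
      13824 * (A1 + 7) * sg l ≤ sg J ∧
      192 * (A1 + 7) * sg l * ((21 / 20) ^ (J - l)) ^ 4 ≤ sg J ∧
      (∀ j, l ≤ j → j ≤ J → 8 * (A1 + 7) * sg l ≤ AO Amid l K j * sg j) ∧
      (∀ j, l + K ≤ j → j ≤ J → 4 * (A1 + 7) * sg l ≤ sg j / (AO Amid l K j) ^ 4) ∧
      2 * ((J + 1 : ℝ) * (300000 / ((21 / 20) ^ (J - l)) ^ 2) +
        (∑ j ∈ Ico l (J + 1), 300000 / (AO Amid l K j) ^ 2 + 3 / A ^ 2)) ≤ kap / 4 ∧
      (∀ p : ℝ, p0 A1 ^ (l + 1) ≤ p → p ≤ 1 → (kap / (8 * p) + 1) * 2 ^ l ≤ 2 ^ (J + 1)) := by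
  have hk0 := kap_pos
  have hk1 := kap_le_one
  set A : ℝ := 96 / kap with hA
  set A1 : ℝ := 16 * (A + 11 * 7) + 1 with hA1
  have hA0 : 0 < A := by positivity
  have hA96 : 96 ≤ A := by
    rw [hA, le_div_iff₀ hk0]
    nlinarith
  have hA10 : 0 < A1 := by rw [hA1]; positivity
  set C : ℝ := 13824 * (A1 + 7) with hC
  have hCpos : 0 < C := by positivity
  obtain ⟨K1, hK1⟩ := pow_unbounded_of_one_lt C (show (1 : ℝ) < 23 / 20 by norm_num)
  obtain ⟨K2, hK2⟩ := exists_pow_lt_of_lt_one (show 0 < kap / 200000000 by positivity)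
    (show (400 / 441 : ℝ) < 1 by norm_num)
  set K := max K1 K2 with hK
  have hKC : C ≤ (23 / 20) ^ K :=
    hK1.le.trans (pow_le_pow_right₀ (by norm_num) (le_max_left _ _))
  have hKs : (400 / 441 : ℝ) ^ K ≤ kap / 200000000 :=
    (pow_le_pow_of_le_one (by norm_num) (by norm_num) (le_max_right _ _)).trans hK2.le
  set Amid : ℝ := 8 * (A1 + 7) + 9600000 * K / kap with hAmid
  have hKnn : (0 : ℝ) ≤ 9600000 * K / kap := by positivity
  have hAmid1 : 1 ≤ Amid := by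
    rw [hAmid]; linarith
  obtain ⟨C3, hC3⟩ := exists_pow_lt_of_lt_one (p0_pos A1) (show (1 / 2 : ℝ) < 1 by norm_num)
  set q := 2 * (C3 + 1) with hq
  have hlim : Tendsto (fun n : ℕ => (n : ℝ) * (400 / 441 : ℝ) ^ n) atTop (𝓝 0) :=
    tendsto_self_mul_const_pow_of_lt_one (by norm_num) (by norm_num)
  have hev : ∀ᶠ n : ℕ in atTop, (n : ℝ) * (400 / 441 : ℝ) ^ n ≤ kap / (48000000 * (q + 1)) := by
    have hpos : 0 < kap / (48000000 * (q + 1)) := by positivity
    filter_upwards [hlim.eventually (gt_mem_nhds hpos)] with n hn using hn.le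
  obtain ⟨I1, hI1⟩ := eventually_atTop.mp hev
  refine ⟨A1, A, Amid, K, q, max I1 (K + 2), hA0, by rw [hA1]; linarith, hAmid1, by omega, ?_⟩
  intro I hI l J hl hJ
  have hI2 : K + 2 ≤ I := (le_max_right _ _).trans hI
  have hII1 : I1 ≤ I := (le_max_left _ _).trans hI
  have hql : 2 * l ≤ q * l := Nat.mul_le_mul_right _ (by omega)
  have hlK : l + K ≤ J := by omega
  have hiJ : K ≤ J - l := by omega
  have hsgl := sg_pos l
  have hgr : ∀ i, K ≤ i → C * (21 / 20) ^ (4 * i) * sg l ≤ sg (l + i) :=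
    fun i hi => growth hKC hi
  have hone : ∀ i : ℕ, (1 : ℝ) ≤ (21 / 20) ^ (4 * i) := fun i => one_le_pow₀ (by norm_num)
  have hgr1 : ∀ j, l + K ≤ j → C * sg l ≤ sg j := by
    intro j hj
    have h1 := hgr (j - l) (by omega)
    rw [show l + (j - l) = j by omega] at h1
    refine le_trans ?_ h1
    apply mul_le_mul_of_nonneg_right _ hsgl.le
    have := hone (j - l)
    nlinarith
  have hgr2 : ∀ j, l + K ≤ j → C * sg l * ((21 / 20) ^ (j - l)) ^ 4 ≤ sg j := by
    intro j hj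
    have h1 := hgr (j - l) (by omega)
    rw [show l + (j - l) = j by omega] at h1
    refine le_trans (le_of_eq ?_) h1
    rw [← pow_mul, mul_comm (j - l) 4]; ring
  refine ⟨by omega, by omega, hlK, ?_, ?_, ?_, ?_, ?_, ?_⟩
  · exact hgr1 J hlK
  · refine le_trans ?_ (hgr2 J hlK)
    apply mul_le_mul_of_nonneg_right _ (by positivity)
    apply mul_le_mul_of_nonneg_right _ hsgl.le
    rw [hC]
    linarith
  · intro j hj1 hj2
    by_cases hj : j < l + K
    · unfold AO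
      rw [if_pos hj]
      apply mul_le_mul _ (sg_mono hj1) hsgl.le (by linarith)
      rw [hAmid]; linarith
    · have h1 := hgr1 j (by omega)
      have h2 := AO_ge_one (l := l) (K := K) hAmid1 j
      have h3 := sg_pos j
      calc 8 * (A1 + 7) * sg l ≤ C * sg l := by
            apply mul_le_mul_of_nonneg_right _ hsgl.le
            rw [hC]; linarith
        _ ≤ sg j := h1
        _ ≤ AO Amid l K j * sg j := by nlinarith
  · intro j hj1 hj2
    unfold AO
    rw [if_neg (by omega), le_div_iff₀ (by positivity)]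
    refine le_trans ?_ (hgr2 j hj1)
    apply mul_le_mul_of_nonneg_right _ (by positivity)
    apply mul_le_mul_of_nonneg_right _ hsgl.le
    rw [hC]
    linarith
  · have hsum := sum_AO (Amid := Amid) hlK
    have t1 : (K : ℝ) * (300000 / Amid ^ 2) ≤ kap / 32 := by
      have h1 : 9600000 * (K : ℝ) / kap ≤ Amid ^ 2 := by
        calc 9600000 * (K : ℝ) / kap ≤ Amid := by rw [hAmid]; linarith
          _ ≤ Amid ^ 2 := by nlinarith
      rw [div_le_iff₀ hk0] at h1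
      rw [← mul_div_assoc, div_le_iff₀ (by positivity)]
      nlinarith
    have t2 : 3300000 * (400 / 441 : ℝ) ^ K ≤ kap / 60 := by
      calc 3300000 * (400 / 441 : ℝ) ^ K ≤ 3300000 * (kap / 200000000) :=
            mul_le_mul_of_nonneg_left hKs (by norm_num)
        _ ≤ kap / 60 := by linarith
    have t3 : 3 / A ^ 2 ≤ kap / 32 := by
      rw [div_le_iff₀ (by positivity)]
      have h1 : kap * A = 96 := by rw [hA]; field_simp
      nlinarith
    have t4 : (J + 1 : ℝ) * (300000 / ((21 / 20) ^ (J - l)) ^ 2) ≤ kap / 32 := by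
      have h1 : (J + 1 : ℝ) = 5 * q * I := by
        have : ((J + 1 : ℕ) : ℝ) = ((q * l : ℕ) : ℝ) := by rw [hJ]
        rw [hl] at this
        push_cast at this
        rw [this]; ring
      have h2 : (300000 : ℝ) / ((21 / 20) ^ (J - l)) ^ 2 ≤ 300000 * (400 / 441) ^ I := by
        rw [← pow_mul, mul_comm (J - l) 2, pow_mul, div_eq_mul_inv, ← inv_pow]
        apply mul_le_mul_of_nonneg_left _ (by norm_num)
        have e : (((21 : ℝ) / 20) ^ 2)⁻¹ = 400 / 441 := by norm_num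
        rw [e]
        exact pow_le_pow_of_le_one (by norm_num) (by norm_num) (by omega)
      have h3 := hI1 I hII1
      have hq0 : (0 : ℝ) ≤ q := by positivity
      have h4 : (I : ℝ) * (400 / 441) ^ I * (48000000 * (q + 1)) ≤ kap := by
        rw [le_div_iff₀ (by positivity)] at h3
        exact h3
      have h5 : (0 : ℝ) ≤ (I : ℝ) * (400 / 441) ^ I := by positivity
      rw [h1]
      calc 5 * (q : ℝ) * I * (300000 / ((21 / 20) ^ (J - l)) ^ 2) ≤
            5 * (q : ℝ) * I * (300000 * (400 / 441) ^ I) :=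
            mul_le_mul_of_nonneg_left h2 (by positivity)
        _ = 1500000 * q * ((I : ℝ) * (400 / 441) ^ I) := by ring
        _ ≤ kap / 32 := by nlinarith
    linarith
  · intro p hp hp1
    have hp0 : 0 < p := lt_of_lt_of_le (pow_pos (p0_pos A1) _) hp
    have h1 : (1 / 2 : ℝ) ^ (C3 * (l + 1)) ≤ p := by
      calc (1 / 2 : ℝ) ^ (C3 * (l + 1)) = ((1 / 2 : ℝ) ^ C3) ^ (l + 1) := pow_mul _ _ _
        _ ≤ p0 A1 ^ (l + 1) := pow_le_pow_left₀ (by positivity) hC3.le _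
        _ ≤ p := hp
    have h2 : kap / (8 * p) + 1 ≤ 2 / p := by
      rw [div_add_one (by positivity), div_le_div_iff₀ (by positivity) hp0]
      nlinarith
    have h3 : 2 / p ≤ 2 * 2 ^ (C3 * (l + 1)) := by
      rw [div_le_iff₀ hp0]
      have h4 : (2 : ℝ) ^ (C3 * (l + 1)) * (1 / 2) ^ (C3 * (l + 1)) = 1 := by
        rw [← mul_pow]; norm_num
      have h5 : (2 : ℝ) ^ (C3 * (l + 1)) * (1 / 2) ^ (C3 * (l + 1)) ≤
          2 ^ (C3 * (l + 1)) * p := mul_le_mul_of_nonneg_left h1 (by positivity)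
      linarith
    calc (kap / (8 * p) + 1) * 2 ^ l ≤ (2 * 2 ^ (C3 * (l + 1))) * 2 ^ l :=
          mul_le_mul_of_nonneg_right (h2.trans h3) (by positivity)
      _ = 2 ^ ((C3 + 1) * (l + 1)) := by
          rw [← pow_succ', ← pow_add]; congr 1; ring
      _ ≤ 2 ^ (J + 1) := by
          apply pow_le_pow_right₀ (by norm_num)
          rw [hJ, hq]
          have : l + 1 ≤ 2 * l := by omega
          calc (C3 + 1) * (l + 1) ≤ (C3 + 1) * (2 * l) := Nat.mul_le_mul_left _ this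
            _ = 2 * (C3 + 1) * l := by ring

end Pool.Agent.H993R2.Kac
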