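import Pool.Agent.H993R2.Kac.Kolm
import Pool.Agent.H993R2.Kac.Stab

set_option autoImplicit false
set_option maxHeartbeats 1000000
set_option linter.unusedSectionVars false

/-!
Windows: the probability that a window is bad.
-/

namespace Pool.Agent.H993R2.Kac

open MeasureTheory ProbabilityTheory Finset

variable {Ω : Type*} [MeasurableSpace Ω] {P : Measure Ω}

/-- `2^{j/2}` -/
noncomputable def sg (j : ℕ) : ℝ := Real.sqrt 2 ^ j

/-- `2^j` -/
def rr (j : ℕ) : ℝ := 2 ^ j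

theorem sg_pos (j : ℕ) : 0 < sg j := by unfold sg; positivity
theorem rr_pos (j : ℕ) : 0 < rr j := by unfold rr; positivity
theorem one_le_rr (j : ℕ) : 1 ≤ rr j := by unfold rr; exact one_le_pow₀ (by norm_num)

theorem sg_sq (j : ℕ) : sg j ^ 2 = rr j := by
  unfold sg rr
  rw [← pow_mul, mul_comm, pow_mul, Real.sq_sqrt (by norm_num)]

theorem sg_mul_self (j : ℕ) : sg j * sg j = rr j := by rw [← sg_sq]; ring

/-- mesh size -/
noncomputable def Ms (A : ℝ) : ℕ := ⌈2 * A ^ 3⌉₊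

/-- A window is bad. -/
def BadW (j : ℕ) (u v A : ℝ) (s t : ℕ) (D0 D1 : ℝ → ℝ) (c : ℕ → ℝ) : Prop :=
  (∃ m, s ≤ m ∧ m ≤ t ∧
    A * sg j * rr j ^ 2 ≤ |∑ k ∈ Ico s m, c k * ((k : ℝ) * (((k - 1 : ℕ) : ℝ) * v ^ (k - 2)))|) ∨
  (∃ i : ℕ, i < Ms A + 1 ∧
    |D0 (u + (v - u) * i / Ms A) + E0 c s t (u + (v - u) * i / Ms A)| ≤ 2 * sg j / A ^ 4 ∧
    |D1 (u + (v - u) * i / Ms A) + E1 c s t (u + (v - u) * i / Ms A)| ≤
      2 * sg j * rr j / A ^ 2) ∨
  |D0 u + E0 c s t u| ≤ sg j / A ^ 4 ∨ |D0 v + E0 c s t v| ≤ sg j / A ^ 4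

theorem good_window {j : ℕ} {u v A : ℝ} {s t : ℕ} {D0 D1 D2 : ℝ → ℝ} {c : ℕ → ℝ}
    (hD0 : ∀ x, HasDerivAt D0 (D1 x) x) (hD1 : ∀ x, HasDerivAt D1 (D2 x) x)
    (hst : s ≤ t) (hu : 0 ≤ u) (huv : u < v) (hlen : (v - u) * rr j ≤ 1) (hA : 1 ≤ A)
    (hD2 : ∀ x, u ≤ x → x ≤ v → |D2 x| ≤ A * sg j * rr j ^ 2)
    (hgood : ¬ BadW j u v A s t D0 D1 c) :
    (∀ x, u ≤ x → x ≤ v → |D2 x + E2 c s t x| ≤ 2 * A * sg j * rr j ^ 2) ∧
    (∀ x, u ≤ x → x ≤ v → |D0 x + E0 c s t x| ≤ sg j / A ^ 4 → D1 x + E1 c s t x ≠ 0) ∧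
    sg j / A ^ 4 < |D0 u + E0 c s t u| ∧ sg j / A ^ 4 < |D0 v + E0 c s t v| := by
  unfold BadW at hgood
  push Not at hgood
  obtain ⟨h1, h2, h3, h4⟩ := hgood
  have hG2 : ∀ x, u ≤ x → x ≤ v → |D2 x + E2 c s t x| ≤ 2 * A * sg j * rr j ^ 2 := by
    intro x hx1 hx2
    have h5 := E2_le_of_partial c s t hst v (by linarith) (A * sg j * rr j ^ 2)
      (fun m hm1 hm2 => (h1 m hm1 hm2).le) x (by linarith) hx2
    calc |D2 x + E2 c s t x| ≤ |D2 x| + |E2 c s t x| := abs_add_le _ _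
      _ ≤ A * sg j * rr j ^ 2 + A * sg j * rr j ^ 2 := add_le_add (hD2 x hx1 hx2) h5
      _ = _ := by ring
  refine ⟨hG2, ?_, h3, h4⟩
  have hG : ∀ x, HasDerivAt (fun x => D0 x + E0 c s t x) (D1 x + E1 c s t x) x :=
    fun x => (hD0 x).add (hasDerivAt_E0 c s t x)
  have hG1 : ∀ x, HasDerivAt (fun x => D1 x + E1 c s t x) (D2 x + E2 c s t x) x :=
    fun x => (hD1 x).add (hasDerivAt_E1 c s t x)
  exact window_free hG hG1 huv (rr_pos j) (sg_pos j) hA (M := Ms A) (Nat.le_ceil _) hlen hG2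
    (fun i hi => by
      rintro ⟨h5, h6⟩
      have := h2 i (by omega) h5
      linarith)

theorem measurableSet_BadW {𝓩 : Type*} [MeasurableSpace 𝓩] (j : ℕ) (u v A : ℝ) (s t : ℕ)
    {D0 D1 : 𝓩 → ℝ → ℝ} {c : 𝓩 → ℕ → ℝ} (h0 : ∀ x, Measurable (fun z => D0 z x))
    (h1 : ∀ x, Measurable (fun z => D1 z x)) (hc : ∀ k, Measurable (fun z => c z k)) :
    MeasurableSet {z | BadW j u v A s t (D0 z) (D1 z) (c z)} := by
  have hE0 : ∀ x, Measurable (fun z => E0 (c z) s t x) := by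
    intro x
    unfold E0
    exact Finset.measurable_sum _ fun k _ => (hc k).mul_const _
  have hE1 : ∀ x, Measurable (fun z => E1 (c z) s t x) := by
    intro x
    unfold E1
    exact Finset.measurable_sum _ fun k _ => (hc k).mul_const _
  have hset : {z | BadW j u v A s t (D0 z) (D1 z) (c z)} =
      (⋃ m ∈ Icc s t, {z | A * sg j * rr j ^ 2 ≤
        |∑ k ∈ Ico s m, c z k * ((k : ℝ) * (((k - 1 : ℕ) : ℝ) * v ^ (k - 2)))|}) ∪
      ((⋃ i ∈ range (Ms A + 1),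
        ({z | |D0 z (u + (v - u) * (i : ℕ) / Ms A) + E0 (c z) s t (u + (v - u) * (i : ℕ) / Ms A)| ≤
            2 * sg j / A ^ 4} ∩
          {z | |D1 z (u + (v - u) * (i : ℕ) / Ms A) + E1 (c z) s t (u + (v - u) * (i : ℕ) / Ms A)| ≤
            2 * sg j * rr j / A ^ 2})) ∪
      ({z | |D0 z u + E0 (c z) s t u| ≤ sg j / A ^ 4} ∪
        {z | |D0 z v + E0 (c z) s t v| ≤ sg j / A ^ 4})) := by
    ext z
    simp only [Set.mem_union, Set.mem_iUnion, Finset.mem_Icc, Finset.mem_range, Set.mem_inter_iff,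
      exists_prop]
    show BadW j u v A s t (D0 z) (D1 z) (c z) ↔ _
    unfold BadW
    constructor
    · rintro (⟨m, h1, h2, h3⟩ | ⟨i, h1, h2, h3⟩ | h1 | h1)
      · exact Or.inl ⟨m, ⟨h1, h2⟩, h3⟩
      · exact Or.inr (Or.inl ⟨i, h1, h2, h3⟩)
      · exact Or.inr (Or.inr (Or.inl h1))
      · exact Or.inr (Or.inr (Or.inr h1))
    · rintro (⟨m, ⟨h1, h2⟩, h3⟩ | ⟨i, h1, h2, h3⟩ | h1 | h1)
      · exact Or.inl ⟨m, h1, h2, h3⟩
      · exact Or.inr (Or.inl ⟨i, h1, h2, h3⟩)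
      · exact Or.inr (Or.inr (Or.inl h1))
      · exact Or.inr (Or.inr (Or.inr h1))
  rw [hset]
  refine MeasurableSet.union ?_ (MeasurableSet.union ?_ (MeasurableSet.union ?_ ?_))
  · apply Finset.measurableSet_biUnion
    intro m _
    apply measurableSet_le measurable_const
    apply Measurable.abs
    exact Finset.measurable_sum _ fun k _ => (hc k).mul_const _
  · apply Finset.measurableSet_biUnion
    intro i _
    apply MeasurableSet.inter
    · exact measurableSet_le ((h0 _).add (hE0 _)).abs measurable_const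
    · exact measurableSet_le ((h1 _).add (hE1 _)).abs measurable_const
  · exact measurableSet_le ((h0 _).add (hE0 _)).abs measurable_const
  · exact measurableSet_le ((h0 _).add (hE0 _)).abs measurable_const

/-! ### Variance bounds -/

theorem pow_two_pow_ge (j : ℕ) (hj : 1 ≤ j) : (1 : ℝ) / 4 ≤ (1 - (1 / 2) ^ j) ^ (2 ^ j) := by
  obtain ⟨i, rfl⟩ : ∃ i, j = i + 1 := ⟨j - 1, by omega⟩
  have h1 : (1 : ℝ) + (2 ^ i : ℕ) * (-(1 / 2) ^ (i + 1)) ≤ (1 + -(1 / 2) ^ (i + 1)) ^ (2 ^ i) := by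
    apply one_add_mul_le_pow
    have : ((1 : ℝ) / 2) ^ (i + 1) ≤ 1 := pow_le_one₀ (by norm_num) (by norm_num)
    linarith
  have h2 : (1 : ℝ) + (2 ^ i : ℕ) * (-(1 / 2) ^ (i + 1)) = 1 / 2 := by
    push_cast
    rw [pow_succ, div_pow, one_pow]
    field_simp
    ring
  rw [h2, ← sub_eq_add_neg] at h1
  calc (1 : ℝ) / 4 = (1 / 2) ^ 2 := by norm_num
    _ ≤ ((1 - (1 / 2) ^ (i + 1)) ^ (2 ^ i)) ^ 2 := pow_le_pow_left₀ (by norm_num) h1 2
    _ = _ := by rw [← pow_mul, ← pow_succ]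

/-- lower bound for the powers -/
theorem pow_lower (j s : ℕ) (hj : 1 ≤ j) (hs : s ≤ 2 ^ j) (x : ℝ) (hx : 1 - (1 / 2) ^ j ≤ x)
    (hx1 : x ≤ 1) (k : ℕ) (hk : k ≤ s + 2 ^ (j + 1)) : (1 : ℝ) / 4096 ≤ (x ^ k) ^ 2 := by
  have h0 : (0 : ℝ) ≤ 1 - (1 / 2) ^ j := by
    have : ((1 : ℝ) / 2) ^ j ≤ 1 := pow_le_one₀ (by norm_num) (by norm_num)
    linarith
  have hk3 : k ≤ 2 ^ j * 3 := by
    have : 2 ^ (j + 1) = 2 ^ j * 2 := pow_succ 2 j
    omega
  calc (1 : ℝ) / 4096 = ((1 / 4) ^ 3) ^ 2 := by norm_num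
    _ ≤ (((1 - (1 / 2) ^ j) ^ (2 ^ j)) ^ 3) ^ 2 := by
        apply pow_le_pow_left₀ (by positivity)
        exact pow_le_pow_left₀ (by norm_num) (pow_two_pow_ge j hj) 3
    _ = ((1 - (1 / 2) ^ j) ^ (2 ^ j * 3)) ^ 2 := by
        congr 1
        rw [pow_mul]
    _ ≤ (x ^ (2 ^ j * 3)) ^ 2 := by
        apply pow_le_pow_left₀ (by positivity)
        exact pow_le_pow_left₀ h0 hx _
    _ ≤ (x ^ k) ^ 2 := by
        apply pow_le_pow_left₀ (by have := h0.trans hx; positivity)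
        exact pow_le_pow_of_le_one (h0.trans hx) hx1 hk3

theorem var0_lower (j s t : ℕ) (hs : s ≤ 2 ^ j) (hs0 : j = 0 → s = 0) (ht : s + 2 ^ (j + 1) ≤ t)
    (x : ℝ) (hx : 1 - (1 / 2) ^ j ≤ x) (hx1 : x ≤ 1) :
    rr j / 16384 ≤ ∑ k ∈ Ico s t, (x ^ k) ^ 2 := by
  rcases Nat.eq_zero_or_pos j with hj | hj
  · subst hj
    have hs' := hs0 rfl
    subst hs'
    have h1 : (x ^ 0) ^ 2 ≤ ∑ k ∈ Ico 0 t, (x ^ k) ^ 2 :=
      Finset.single_le_sum (f := fun k => (x ^ k) ^ 2) (fun k _ => by positivity)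
        (Finset.mem_Ico.mpr ⟨le_rfl, by omega⟩)
    refine le_trans ?_ h1
    unfold rr; norm_num
  · calc rr j / 16384 ≤ (2 ^ (j + 1) : ℕ) * (1 / 4096 : ℝ) := by
          unfold rr
          push_cast
          rw [pow_succ]
          have : (0 : ℝ) < 2 ^ j := by positivity
          linarith
      _ = ∑ k ∈ Ico s (s + 2 ^ (j + 1)), (1 / 4096 : ℝ) := by
          rw [Finset.sum_const, Nat.card_Ico, nsmul_eq_mul]
          congr 2
          omega
      _ ≤ ∑ k ∈ Ico s (s + 2 ^ (j + 1)), (x ^ k) ^ 2 := by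
          apply Finset.sum_le_sum
          intro k hk
          rw [Finset.mem_Ico] at hk
          exact pow_lower j s hj hs x hx hx1 k hk.2.le
      _ ≤ ∑ k ∈ Ico s t, (x ^ k) ^ 2 := by
          apply Finset.sum_le_sum_of_subset_of_nonneg
          · exact Finset.Ico_subset_Ico le_rfl ht
          · intro k _ _; positivity

theorem var1_lower (j s t : ℕ) (hs : s ≤ 2 ^ j) (hs0 : j = 0 → s = 0) (ht : s + 2 ^ (j + 1) ≤ t)
    (x : ℝ) (hx : 1 - (1 / 2) ^ j ≤ x) (hx1 : x ≤ 1) (l : ℝ) :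
    rr j ^ 3 / 16384 ≤ ∑ k ∈ Ico s t, ((k : ℝ) * x ^ (k - 1) - l * x ^ k) ^ 2 := by
  rcases Nat.eq_zero_or_pos j with hj | hj
  · subst hj
    have hs' := hs0 rfl
    subst hs'
    have hx0 : 0 ≤ x := by norm_num at hx; exact hx
    have h1 : ∑ k ∈ ({0, 1} : Finset ℕ), ((k : ℝ) * x ^ (k - 1) - l * x ^ k) ^ 2 ≤
        ∑ k ∈ Ico 0 t, ((k : ℝ) * x ^ (k - 1) - l * x ^ k) ^ 2 := by
      apply Finset.sum_le_sum_of_subset_of_nonneg
      · intro k hk
        rw [Finset.mem_insert, Finset.mem_singleton] at hk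
        rw [Finset.mem_Ico]
        rw [zero_add] at ht
        omega
      · intro k _ _; positivity
    refine le_trans ?_ h1
    rw [Finset.sum_pair (by norm_num)]
    simp only [Nat.cast_zero, zero_mul, pow_zero, mul_one, zero_sub, Nat.cast_one,
      Nat.sub_self, pow_one]
    unfold rr
    norm_num
    nlinarith [sq_nonneg (l - x / 2), sq_nonneg (2 * l - x), sq_nonneg (l * x), sq_nonneg (l - 1),
      sq_nonneg (l * x - 1), sq_nonneg l, mul_nonneg hx0 (sub_nonneg.mpr hx1),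
      sq_nonneg (l - 1 / 2)]
  · set R : ℕ := 2 ^ (j - 1) with hR
    have hR2 : 2 ^ j = 2 * R := by
      rw [hR, ← pow_succ']; congr 1; omega
    have hR4 : 2 ^ (j + 1) = 4 * R := by rw [pow_succ, hR2]; ring
    have hhalf : ((1 : ℝ) / 2) ^ j ≤ 1 / 2 := by
      calc ((1 : ℝ) / 2) ^ j ≤ (1 / 2) ^ 1 := pow_le_pow_of_le_one (by norm_num) (by norm_num) hj
        _ = 1 / 2 := by norm_num
    have hx0 : 0 < x := by linarith
    have hterm : ∀ k ∈ Ico s (s + 4 * R), (1 / 4096 : ℝ) * ((k : ℝ) / x - l) ^ 2 ≤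
        ((k : ℝ) * x ^ (k - 1) - l * x ^ k) ^ 2 := by
      intro k hk
      rw [Finset.mem_Ico] at hk
      have e1 : (k : ℝ) * x ^ (k - 1) - l * x ^ k = x ^ k * ((k : ℝ) / x - l) := by
        rcases Nat.eq_zero_or_pos k with h0 | h0
        · subst h0; simp
        · obtain ⟨i, rfl⟩ : ∃ i, k = i + 1 := ⟨k - 1, by omega⟩
          rw [Nat.add_sub_cancel, pow_succ]
          field_simp
      rw [e1, mul_pow]
      apply mul_le_mul_of_nonneg_right _ (sq_nonneg _)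
      exact pow_lower j s hj hs x hx hx1 k (by rw [hR4]; exact hk.2.le)
    have hpair : ∀ k : ℕ, 2 * (R : ℝ) ^ 2 ≤ ((k : ℝ) / x - l) ^ 2 +
        (((k + 2 * R : ℕ) : ℝ) / x - l) ^ 2 := by
      intro k
      have e2 : ((k + 2 * R : ℕ) : ℝ) / x = (k : ℝ) / x + 2 * R / x := by
        push_cast; ring
      rw [e2]
      have h3 : (2 * (R : ℝ)) ≤ 2 * R / x := by
        rw [le_div_iff₀ hx0]
        have : (0 : ℝ) ≤ R := by positivity
        nlinarith
      set p := (k : ℝ) / x - l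
      set q := 2 * (R : ℝ) / x
      have h4 : (k : ℝ) / x + q - l = p + q := by ring
      rw [h4]
      have hRnn : (0 : ℝ) ≤ R := by positivity
      nlinarith [sq_nonneg (2 * p + q)]
    calc rr j ^ 3 / 16384 ≤ (1 / 4096) * (2 * R * (2 * (R : ℝ) ^ 2)) := by
          have : rr j = 2 * R := by
            unfold rr
            have : ((2 ^ j : ℕ) : ℝ) = ((2 * R : ℕ) : ℝ) := by rw [hR2]
            push_cast at this
            exact this
          rw [this]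
          have hRnn : (0 : ℝ) ≤ (R : ℝ) ^ 3 := by positivity
          nlinarith
      _ = (1 / 4096) * ∑ k ∈ Ico s (s + 2 * R), 2 * (R : ℝ) ^ 2 := by
          rw [Finset.sum_const, Nat.card_Ico, nsmul_eq_mul]
          congr 2
          have : s + 2 * R - s = 2 * R := by omega
          rw [this]
          push_cast
          ring
      _ ≤ (1 / 4096) * ∑ k ∈ Ico s (s + 2 * R), (((k : ℝ) / x - l) ^ 2 +
          (((k + 2 * R : ℕ) : ℝ) / x - l) ^ 2) := by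
          apply mul_le_mul_of_nonneg_left _ (by norm_num)
          exact Finset.sum_le_sum fun k _ => hpair k
      _ = (1 / 4096) * ∑ k ∈ Ico s (s + 4 * R), ((k : ℝ) / x - l) ^ 2 := by
          congr 1
          rw [Finset.sum_add_distrib]
          have e3 : ∑ k ∈ Ico s (s + 2 * R), (((k + 2 * R : ℕ) : ℝ) / x - l) ^ 2 =
              ∑ k ∈ Ico (s + 2 * R) (s + 4 * R), ((k : ℝ) / x - l) ^ 2 := by
            rw [Finset.sum_Ico_add' (fun k : ℕ => ((k : ℝ) / x - l) ^ 2) s (s + 2 * R) (2 * R)]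
            congr 2
            omega
          rw [e3, Finset.sum_Ico_consecutive _ (by omega) (by omega)]
      _ = ∑ k ∈ Ico s (s + 4 * R), (1 / 4096) * ((k : ℝ) / x - l) ^ 2 := by
          rw [Finset.mul_sum]
      _ ≤ ∑ k ∈ Ico s (s + 4 * R), ((k : ℝ) * x ^ (k - 1) - l * x ^ k) ^ 2 :=
          Finset.sum_le_sum hterm
      _ ≤ ∑ k ∈ Ico s t, ((k : ℝ) * x ^ (k - 1) - l * x ^ k) ^ 2 := by
          apply Finset.sum_le_sum_of_subset_of_nonneg
          · exact Finset.Ico_subset_Ico le_rfl (by omega)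
          · intro k _ _; positivity

end Pool.Agent.H993R2.Kac
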