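import Pool.Agent.H993R2.Kac.Window

set_option autoImplicit false
set_option maxHeartbeats 1000000
set_option linter.unusedSectionVars false

/-!
The probability that a window is bad.
-/

namespace Pool.Agent.H993R2.Kac

open MeasureTheory ProbabilityTheory Finset

variable {Ω : Type*} [MeasurableSpace Ω] {P : Measure Ω}

theorem var2_upper (j s t : ℕ) (v : ℝ) (hv0 : 0 ≤ v) (hv1 : v ≤ 1)
    (hv : v = 1 - (1 / 2) ^ (j + 1) ∨ t ≤ 2 ^ (j + 3)) :
    ∑ k ∈ Ico s t, ((k : ℝ) * (((k - 1 : ℕ) : ℝ) * v ^ (k - 2))) ^ 2 ≤ 32768 * rr j ^ 5 := by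
  rcases hv with hv | hv
  · -- geometric
    have hq0 : 0 ≤ v ^ 2 := by positivity
    have hv' : v < 1 := by
      rw [hv]
      have : (0 : ℝ) < (1 / 2) ^ (j + 1) := by positivity
      linarith
    have hq1 : v ^ 2 < 1 := by nlinarith
    have hsum := hasSum_choose_mul_geometric_of_norm_lt_one (𝕜 := ℝ) 4 (r := v ^ 2)
      (by rw [Real.norm_eq_abs, abs_of_nonneg hq0]; exact hq1)
    have hterm : ∀ m : ℕ, (((m + 2 : ℕ) : ℝ) * (((m + 2 - 1 : ℕ) : ℝ) * v ^ (m + 2 - 2))) ^ 2 ≤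
        24 * (((m + 4).choose 4 : ℕ) * (v ^ 2) ^ m) := by
      intro m
      have e1 : m + 2 - 1 = m + 1 := by omega
      have e2 : m + 2 - 2 = m := by omega
      rw [e1, e2]
      have e3 : (24 : ℝ) * (((m + 4).choose 4 : ℕ) * (v ^ 2) ^ m) =
          ((4 : ℕ).factorial * (m + 4).choose 4 : ℕ) * (v ^ m) ^ 2 := by
        push_cast
        rw [← pow_mul, ← pow_mul, mul_comm 2 m]
        norm_num [Nat.factorial]
        ring
      rw [e3, ← Nat.descFactorial_eq_factorial_mul_choose]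
      have e4 : (m + 4).descFactorial 4 = (m + 4) * (m + 3) * (m + 2) * (m + 1) := by
        simp [Nat.descFactorial]
        ring
      rw [e4]
      push_cast
      have hm : (0 : ℝ) ≤ m := by positivity
      calc (((m : ℝ) + 2) * ((m + 1) * v ^ m)) ^ 2 = (((m : ℝ) + 2) * (m + 1)) ^ 2 * (v ^ m) ^ 2 := by
            ring
        _ ≤ ((m : ℝ) + 4) * (m + 3) * (m + 2) * (m + 1) * (v ^ m) ^ 2 := by
            apply mul_le_mul_of_nonneg_right _ (by positivity)
            nlinarith [mul_nonneg hm hm, mul_nonneg (mul_nonneg hm hm) hm]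
    have hbound : ∀ n : ℕ, ∑ k ∈ range n, ((k : ℝ) * (((k - 1 : ℕ) : ℝ) * v ^ (k - 2))) ^ 2 ≤
        24 * (1 / (1 - v ^ 2) ^ (4 + 1)) := by
      intro n
      have h1 : ∑ k ∈ range n, ((k : ℝ) * (((k - 1 : ℕ) : ℝ) * v ^ (k - 2))) ^ 2 ≤
          ∑ k ∈ range (n + 2), ((k : ℝ) * (((k - 1 : ℕ) : ℝ) * v ^ (k - 2))) ^ 2 := by
        apply Finset.sum_le_sum_of_subset_of_nonneg
        · exact Finset.range_mono (by omega)
        · intro k _ _; positivity
      refine h1.trans ?_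
      rw [Finset.sum_range_succ', Finset.sum_range_succ']
      simp only [Nat.cast_zero, zero_mul, ne_eq, OfNat.ofNat_ne_zero, not_false_eq_true, zero_pow,
        add_zero, zero_add, Nat.sub_self, mul_zero]
      calc ∑ k ∈ range n, (((k + 1 + 1 : ℕ) : ℝ) * (((k + 1 + 1 - 1 : ℕ) : ℝ) *
            v ^ (k + 1 + 1 - 2))) ^ 2
          ≤ ∑ k ∈ range n, 24 * (((k + 4).choose 4 : ℕ) * (v ^ 2) ^ k) :=
            Finset.sum_le_sum fun k _ => hterm k
        _ = 24 * ∑ k ∈ range n, (((k + 4).choose 4 : ℕ) * (v ^ 2) ^ k) := by rw [Finset.mul_sum]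
        _ ≤ 24 * (1 / (1 - v ^ 2) ^ (4 + 1)) := by
            apply mul_le_mul_of_nonneg_left _ (by norm_num)
            exact sum_le_hasSum _ (fun k _ => by positivity) hsum
    have h2 : ∑ k ∈ Ico s t, ((k : ℝ) * (((k - 1 : ℕ) : ℝ) * v ^ (k - 2))) ^ 2 ≤
        ∑ k ∈ range t, ((k : ℝ) * (((k - 1 : ℕ) : ℝ) * v ^ (k - 2))) ^ 2 := by
      apply Finset.sum_le_sum_of_subset_of_nonneg
      · intro k hk
        rw [Finset.mem_Ico] at hk
        exact Finset.mem_range.mpr hk.2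
      · intro k _ _; positivity
    refine (h2.trans (hbound t)).trans ?_
    have h3 : ((1 : ℝ) / 2) ^ (j + 1) ≤ 1 - v ^ 2 := by
      have : ((1 : ℝ) / 2) ^ (j + 1) = 1 - v := by rw [hv]; ring
      rw [this]; nlinarith
    have h4 : (0 : ℝ) < (1 / 2) ^ (j + 1) := by positivity
    calc 24 * (1 / (1 - v ^ 2) ^ (4 + 1)) ≤ 24 * (1 / ((1 / 2) ^ (j + 1)) ^ (4 + 1)) := by
          apply mul_le_mul_of_nonneg_left _ (by norm_num)
          apply one_div_le_one_div_of_le (by positivity)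
          exact pow_le_pow_left₀ h4.le h3 _
      _ = 768 * rr j ^ 5 := by
          unfold rr
          rw [div_pow, one_pow, pow_succ]
          field_simp
          ring
      _ ≤ 32768 * rr j ^ 5 := by
          have : 0 ≤ rr j ^ 5 := by have := rr_pos j; positivity
          linarith
  · calc ∑ k ∈ Ico s t, ((k : ℝ) * (((k - 1 : ℕ) : ℝ) * v ^ (k - 2))) ^ 2
        ≤ ∑ k ∈ Ico s t, ((8 * rr j) ^ 4) := by
          apply Finset.sum_le_sum
          intro k hk
          rw [Finset.mem_Ico] at hk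
          have hk1 : (k : ℝ) ≤ 8 * rr j := by
            have : k ≤ 2 ^ (j + 3) := by omega
            have h2 : ((k : ℕ) : ℝ) ≤ ((2 ^ (j + 3) : ℕ) : ℝ) := by exact_mod_cast this
            push_cast at h2
            unfold rr
            rw [pow_add] at h2
            linarith
          have hk2 : ((k - 1 : ℕ) : ℝ) ≤ 8 * rr j := by
            have : ((k - 1 : ℕ) : ℝ) ≤ (k : ℝ) := by exact_mod_cast Nat.sub_le k 1
            linarith
          have hv3 : v ^ (k - 2) ≤ 1 := pow_le_one₀ hv0 hv1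
          have hr := rr_pos j
          calc ((k : ℝ) * (((k - 1 : ℕ) : ℝ) * v ^ (k - 2))) ^ 2
              ≤ ((8 * rr j) * ((8 * rr j) * 1)) ^ 2 := by
                gcongr
            _ = (8 * rr j) ^ 4 := by ring
      _ = ((t - s : ℕ) : ℝ) * (8 * rr j) ^ 4 := by
          rw [Finset.sum_const, Nat.card_Ico, nsmul_eq_mul]
      _ ≤ (8 * rr j) * (8 * rr j) ^ 4 := by
          apply mul_le_mul_of_nonneg_right _ (by have := rr_pos j; positivity)
          have : t - s ≤ 2 ^ (j + 3) := by omega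
          have h2 : ((t - s : ℕ) : ℝ) ≤ ((2 ^ (j + 3) : ℕ) : ℝ) := by exact_mod_cast this
          push_cast at h2
          unfold rr
          rw [pow_add] at h2
          linarith
      _ = 32768 * rr j ^ 5 := by ring

theorem sqrt_rr (j : ℕ) : Real.sqrt (rr j / 16384) = sg j / 128 := by
  have h := sg_pos j
  rw [show rr j / 16384 = (sg j / 128) ^ 2 by rw [div_pow, sg_sq]; norm_num]
  exact Real.sqrt_sq (by positivity)

theorem sqrt_rr3 (j : ℕ) : Real.sqrt (rr j ^ 3 / 16384) = sg j * rr j / 128 := by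
  have h := sg_pos j
  have h' := rr_pos j
  rw [show rr j ^ 3 / 16384 = (sg j * rr j / 128) ^ 2 by
    rw [div_pow, mul_pow, sg_sq]; ring]
  exact Real.sqrt_sq (by positivity)

variable {η : ℕ → Ω → ℝ}

theorem prob_BadW (h : Std η P) (j s t : ℕ) (u v A : ℝ) (hs : s ≤ 2 ^ j) (hs0 : j = 0 → s = 0)
    (ht : s + 2 ^ (j + 1) ≤ t) (hu : 1 - (1 / 2) ^ j ≤ u) (huv : u ≤ v) (hv1 : v ≤ 1)
    (hv : v = 1 - (1 / 2) ^ (j + 1) ∨ t ≤ 2 ^ (j + 3)) (hA : 1 ≤ A) (D0 D1 : ℝ → ℝ) :
    P.real {ω | BadW j u v A s t D0 D1 (fun k => η k ω)} ≤ 300000 / A ^ 2 := by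
  have hP := h.prob
  have hA0 : 0 < A := by linarith
  have hsg := sg_pos j
  have hrr := rr_pos j
  have hu0 : 0 ≤ u := by
    have : ((1 : ℝ) / 2) ^ j ≤ 1 := pow_le_one₀ (by norm_num) (by norm_num)
    linarith
  set S1 : Set Ω := {ω | ∃ m, s ≤ m ∧ m ≤ t ∧ A * sg j * rr j ^ 2 ≤
    |lf η (fun k => (k : ℝ) * (((k - 1 : ℕ) : ℝ) * v ^ (k - 2))) (Ico s m) ω|} with hS1
  set y : ℕ → ℝ := fun i => u + (v - u) * i / Ms A with hy
  set S2 : ℕ → Set Ω := fun i => {ω | |lf η (fun k => y i ^ k) (Ico s t) ω - (-D0 (y i))| ≤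
      2 * sg j / A ^ 4 ∧
    |lf η (fun k => (k : ℝ) * y i ^ (k - 1)) (Ico s t) ω - (-D1 (y i))| ≤
      2 * sg j * rr j / A ^ 2} with hS2
  set S3 : ℝ → Set Ω := fun x => {ω | |lf η (fun k => x ^ k) (Ico s t) ω - (-D0 x)| ≤
    sg j / A ^ 4} with hS3
  have hcov : {ω | BadW j u v A s t D0 D1 (fun k => η k ω)} ⊆
      S1 ∪ ((⋃ i ∈ range (Ms A + 1), S2 i) ∪ (S3 u ∪ S3 v)) := by
    intro ω hω
    have e0 : ∀ x, D0 x + E0 (fun k => η k ω) s t x =
        lf η (fun k => x ^ k) (Ico s t) ω - (-D0 x) := by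
      intro x
      unfold E0 lf
      have : ∑ k ∈ Ico s t, η k ω * x ^ k = ∑ k ∈ Ico s t, x ^ k * η k ω :=
        Finset.sum_congr rfl fun k _ => mul_comm _ _
      rw [this]; ring
    have e1 : ∀ x, D1 x + E1 (fun k => η k ω) s t x =
        lf η (fun k => (k : ℝ) * x ^ (k - 1)) (Ico s t) ω - (-D1 x) := by
      intro x
      unfold E1 lf
      have : ∑ k ∈ Ico s t, η k ω * ((k : ℝ) * x ^ (k - 1)) =
          ∑ k ∈ Ico s t, (k : ℝ) * x ^ (k - 1) * η k ω :=
        Finset.sum_congr rfl fun k _ => mul_comm _ _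
      rw [this]; ring
    rcases hω with ⟨m, h1, h2, h3⟩ | ⟨i, h1, h2, h3⟩ | h1 | h1
    · left
      refine ⟨m, h1, h2, ?_⟩
      refine h3.trans (le_of_eq ?_)
      unfold lf
      congr 1
      exact Finset.sum_congr rfl fun k _ => mul_comm _ _
    · right; left
      rw [Set.mem_iUnion₂]
      refine ⟨i, Finset.mem_range.mpr h1, ?_⟩
      rw [e0] at h2
      rw [e1] at h3
      exact ⟨h2, h3⟩
    · right; right; left
      rw [e0] at h1
      exact h1
    · right; right; right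
      rw [e0] at h1
      exact h1
  have hp1 : P.real S1 ≤ 32768 / A ^ 2 := by
    have h1 := h.kolm (fun k => (k : ℝ) * (((k - 1 : ℕ) : ℝ) * v ^ (k - 2))) s t
      (lam := A * sg j * rr j ^ 2) (by positivity)
    refine h1.trans ?_
    have h2 := var2_upper j s t v (by linarith) hv1 hv
    calc _ ≤ 32768 * rr j ^ 5 / (A * sg j * rr j ^ 2) ^ 2 :=
          div_le_div_of_nonneg_right h2 (by positivity)
      _ = 32768 / A ^ 2 := by
          rw [mul_pow, mul_pow, sg_sq]
          field_simp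
  have hymem : ∀ i, i < Ms A + 1 → u ≤ y i ∧ y i ≤ v := by
    intro i hi
    have hM : (0 : ℝ) < Ms A := by
      have : (0 : ℝ) < 2 * A ^ 3 := by positivity
      exact lt_of_lt_of_le this (Nat.le_ceil _)
    have hvu : 0 ≤ v - u := by linarith
    have hi' : (i : ℝ) ≤ Ms A := by
      have : i ≤ Ms A := by omega
      exact_mod_cast this
    constructor
    · have : 0 ≤ (v - u) * i / Ms A := by positivity
      rw [hy]; linarith
    · have : (v - u) * i / Ms A ≤ v - u := by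
        rw [div_le_iff₀ hM]
        exact mul_le_mul_of_nonneg_left hi' hvu
      rw [hy]; linarith
  have hp2 : ∀ i ∈ range (Ms A + 1), P.real (S2 i) ≤ 65536 / A ^ 6 := by
    intro i hi
    rw [Finset.mem_range] at hi
    obtain ⟨hy1, hy2⟩ := hymem i hi
    have hb := h.small_ball2 (fun k => y i ^ k) (fun k => (k : ℝ) * y i ^ (k - 1)) (Ico s t)
      (v := rr j / 16384) (w := rr j ^ 3 / 16384) (by positivity) (by positivity)
      (var0_lower j s t hs hs0 ht (y i) (by linarith) (by linarith))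
      (fun l => var1_lower j s t hs hs0 ht (y i) (by linarith) (by linarith) l)
      (-D0 (y i)) (-D1 (y i)) (2 * sg j / A ^ 4) (2 * sg j * rr j / A ^ 2)
      (by positivity) (by positivity)
    refine hb.trans (le_of_eq ?_)
    rw [sqrt_rr, sqrt_rr3]
    field_simp
    norm_num
  have hp3 : ∀ x, u ≤ x → x ≤ v → P.real (S3 x) ≤ 128 / A ^ 4 := by
    intro x hx1 hx2
    have hb := h.small_ball (fun k => x ^ k) (Ico s t) (v := rr j / 16384) (by positivity)
      (var0_lower j s t hs hs0 ht x (by linarith) (by linarith)) (-D0 x) (sg j / A ^ 4)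
      (by positivity)
    refine hb.trans (le_of_eq ?_)
    rw [sqrt_rr]
    field_simp
  have hMs : ((Ms A : ℕ) : ℝ) + 1 ≤ 4 * A ^ 3 := by
    have h1 : ((Ms A : ℕ) : ℝ) < 2 * A ^ 3 + 1 := Nat.ceil_lt_add_one (by positivity)
    have h2 : 1 ≤ A ^ 3 := one_le_pow₀ hA
    linarith
  have hunion : P.real (⋃ i ∈ range (Ms A + 1), S2 i) ≤ 262144 / A ^ 3 := by
    refine (measureReal_biUnion_finset_le _ _).trans ?_
    refine (Finset.sum_le_sum hp2).trans ?_
    rw [Finset.sum_const, Finset.card_range, nsmul_eq_mul]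
    push_cast
    calc ((Ms A : ℝ) + 1) * (65536 / A ^ 6) ≤ 4 * A ^ 3 * (65536 / A ^ 6) :=
          mul_le_mul_of_nonneg_right hMs (by positivity)
      _ = 262144 / A ^ 3 := by field_simp; norm_num
  have hA32 : 1 / A ^ 3 ≤ 1 / A ^ 2 := by
    apply one_div_le_one_div_of_le (by positivity)
    exact pow_le_pow_right₀ hA (by norm_num)
  have hA42 : 1 / A ^ 4 ≤ 1 / A ^ 2 := by
    apply one_div_le_one_div_of_le (by positivity)
    exact pow_le_pow_right₀ hA (by norm_num)
  calc P.real {ω | BadW j u v A s t D0 D1 (fun k => η k ω)}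
      ≤ P.real (S1 ∪ ((⋃ i ∈ range (Ms A + 1), S2 i) ∪ (S3 u ∪ S3 v))) :=
        measureReal_mono hcov (measure_ne_top _ _)
    _ ≤ P.real S1 + (P.real (⋃ i ∈ range (Ms A + 1), S2 i) + (P.real (S3 u) + P.real (S3 v))) := by
        refine (measureReal_union_le _ _).trans ?_
        apply add_le_add le_rfl
        refine (measureReal_union_le _ _).trans ?_
        apply add_le_add le_rfl
        exact measureReal_union_le _ _
    _ ≤ 32768 / A ^ 2 + (262144 / A ^ 3 + (128 / A ^ 4 + 128 / A ^ 4)) :=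
        add_le_add hp1 (add_le_add hunion (add_le_add (hp3 u le_rfl huv) (hp3 v huv le_rfl)))
    _ = 32768 * (1 / A ^ 2) + (262144 * (1 / A ^ 3) + (128 * (1 / A ^ 4) + 128 * (1 / A ^ 4))) := by
        ring
    _ ≤ 300000 * (1 / A ^ 2) := by
        have : 0 ≤ 1 / A ^ 2 := by positivity
        linarith
    _ = 300000 / A ^ 2 := by ring

end Pool.Agent.H993R2.Kac
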